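import Mathlib

set_option autoImplicit false
open Set Filter Topology

namespace Pool.Bing

/-- A ray `j` (only its restriction to `[0,∞)` matters) with cluster set `L` at infinity. -/
structure IsRay {K : Type*} [TopologicalSpace K] (j : ℝ → K) (L : Set K) : Prop where
  cont : Continuous j
  inj : Set.InjOn j (Set.Ici 0)
  clus : ∀ z, MapClusterPt z Filter.atTop j ↔ z ∈ L
  disj : ∀ s, 0 ≤ s → j s ∉ L
  nontriv : L.Nontrivial

/-- The set covered by a ray. -/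
def rng {K : Type*} (j : ℝ → K) : Set K := j '' Set.Ici 0

/-- The wave `(1 - cos 2πs)/2`. -/
noncomputable def om (s : ℝ) : ℝ := (1 - Real.cos (2 * Real.pi * s)) / 2

/-- The abstract combinatorial structure of the continuum `K`. -/
structure Config {K : Type*} [TopologicalSpace K] (w0 w1 p r q1 q2 : ℝ → K) : Prop where
  hw0 : IsRay w0 (w1 '' Icc 0 1)
  hw1 : IsRay w1 (w0 '' Icc 0 1)
  hp : IsRay p (rng w0 ∪ rng w1)
  hr : IsRay r (rng w0 ∪ rng w1)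
  hq1 : IsRay q1 (p '' Icc 2 3)
  hq2 : IsRay q2 (p '' Icc 0 1)
  c1 : q1 0 = r 0
  c2 : q2 0 = r 0
  cover : ∀ z : K, z ∈ rng w0 ∨ z ∈ rng w1 ∨ z ∈ rng p ∨ z ∈ rng r ∨ z ∈ rng q1 ∨ z ∈ rng q2
  d01 : ∀ s t, 0 ≤ s → 0 ≤ t → w0 s ≠ w1 t
  dq1w : ∀ s, 0 ≤ s → q1 s ∉ rng w0 ∪ rng w1
  dq2w : ∀ s, 0 ≤ s → q2 s ∉ rng w0 ∪ rng w1
  drp : ∀ s t, 0 ≤ s → 0 ≤ t → r s ≠ p t
  dq1p : ∀ s t, 0 ≤ s → 0 ≤ t → q1 s ≠ p t
  dq2p : ∀ s t, 0 ≤ s → 0 ≤ t → q2 s ≠ p t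
  drq1 : ∀ s t, 0 ≤ s → 0 ≤ t → r s = q1 t → s = 0 ∧ t = 0
  drq2 : ∀ s t, 0 ≤ s → 0 ≤ t → r s = q2 t → s = 0 ∧ t = 0
  dq12 : ∀ s t, 0 ≤ s → 0 ≤ t → q1 s = q2 t → s = 0 ∧ t = 0

/-- The angle data. -/
structure Angles {K : Type*} [TopologicalSpace K] (w0 w1 p r : ℝ → K) (Θ : K → ℂ)
    (lp lr : ℝ → ℝ) : Prop where
  hΘ : Continuous Θ
  hlp : Continuous lp
  hlr : Continuous lr
  ep : ∀ s, 0 ≤ s → Θ (p s) = Complex.exp ((Real.pi * lp s : ℝ) * Complex.I)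
  er : ∀ s, 0 ≤ s → Θ (r s) = Complex.exp ((Real.pi * lr s : ℝ) * Complex.I)
  ew : ∀ s t, 0 ≤ s → 0 ≤ t → Θ (w0 s) ≠ Θ (w1 t)
  ap : ∃ c : ℝ, ∀ s, 5 ≤ s → |lp s - (s + 7 * om s) - c| ≤ 1
  ar : ∃ c : ℝ, ∀ s, 5 ≤ s → |lr s - (s + 15 * om s) - c| ≤ 1

/-! ### The concrete objects -/

/-- The wave `(1 + cos 2πt)/2`. -/
noncomputable def W (t : ℝ) : ℝ := (1 + Real.cos (2 * Real.pi * t)) / 2

/-- Clamp to `[0,1]`. -/
noncomputable def cl (t : ℝ) : ℝ := max 0 (min t 1)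

/-- The Möbius maps of `[0,1]` multiplying `σ/(1-σ)` by `exp (-n)`. -/
noncomputable def Asec (n : ℕ) (σ : ℝ) : ℝ := σ / (σ + Real.exp n * (1 - σ))

/-- The reparametrisation of the angle. -/
noncomputable def kap (x : ℝ) : ℝ := ⌊x⌋₊ + Asec ⌊x⌋₊ (x - ⌊x⌋₊)

/-- Height profile with `n` oscillations at relative angle `a`. -/
noncomputable def Hn (n : ℕ) (a : ℝ) : ℝ :=
  W (Real.log (max (Real.exp (-(n : ℝ))) (a / max a (1 - a))))

/-- Height of the strip over the angle `u`. -/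
noncomputable def eta (u : ℝ) : ℝ := Hn ⌊u⌋₊ (u - ⌊u⌋₊)

/-- The spiral strip (coordinates: lifted angle `u`, transversal coordinate `v`). -/
noncomputable def E (u v : ℝ) : ℂ :=
  ((1 + eta u + 1 / (8 + u + v / 4) : ℝ) : ℂ) * Complex.exp ((Real.pi * u : ℝ) * Complex.I)

/-- The strip in the coordinates `(x,y)`. -/
noncomputable def ee (z : ℝ × ℝ) : ℂ := E (kap z.1) z.2

/-- The two rays of the core (`i = 0, 1`). -/
noncomputable def w (i : ℝ) (s : ℝ) : ℂ :=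
  ((1 + cl s * W (Real.log (max (s - 1) 1)) : ℝ) : ℂ) *
    Complex.exp ((Real.pi * (i + 1 / max s 1) : ℝ) * Complex.I)

/-- The core: a double Warsaw circle. -/
def Core : Set ℂ := rng (w 0) ∪ rng (w 1)

/-- The region of the `(x,y)`-plane. -/
def Reg : Set (ℝ × ℝ) := {z | -3 ≤ z.1 ∧ |z.2| ≤ 3}

/-- The angle map of the shift. -/
noncomputable def Ush (u : ℝ) : ℝ := ⌊u⌋ + 1 + Asec 1 (Int.fract u)

/-- The height correction of the shift. -/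
noncomputable def del (u : ℝ) : ℝ :=
  W (Real.log (max 1 (Int.fract u / max (1 - Int.fract u) (Int.fract u / Real.exp 1)))) - 1

/-- The ray `P` in the plane. -/
noncomputable def pp (s : ℝ) : ℝ × ℝ :=
  (1 - 2 * cl (s - 1) + cl (s - 3) + 4 * cl (s - 4) + max (s - 5) 0 + 7 * om (max s 5),
   1 - cl s + cl (s - 2) + cl (s - 4) + om (max s 5))

/-- The leg `R` of the tripod in the plane. -/
noncomputable def rr (s : ℝ) : ℝ × ℝ :=
  (4 * cl s + max (s - 1) 0 + 15 * om (max s 1), -1 - cl s - om (max s 1))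

/-- The leg `Q₂` of the tripod in the plane. -/
noncomputable def qr (s : ℝ) : ℝ × ℝ :=
  (2 * cl s - 1 + 1 / max s 1, -1 + cl s + (1 + Real.cos (Real.pi * max s 1)) / 2)

/-- The leg `Q₁` of the tripod in the plane. -/
noncomputable def ql (s : ℝ) : ℝ × ℝ := (-(qr s).1, (qr s).2)

/-- The disk in the plane. -/
def DD : Set (ℝ × ℝ) := Icc (-1) 1 ×ˢ Icc 0 1

/-- The part of `K` outside the core, in the plane. -/
def NN : Set (ℝ × ℝ) := rng pp ∪ (rng rr ∪ rng ql ∪ rng qr)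

end Pool.Bing
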