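import Pool.Agent.Helper257.Bing.Defs

set_option autoImplicit false
open Set Filter Topology

namespace Pool.Bing


variable {K : Type*} [TopologicalSpace K]

/-! TARGET: prove this theorem (add helper lemmas before it if you like; keep the statement) -/



theorem eta_max_pos (a : ℝ) : 0 < max a (1 - a) := by
  rcases le_or_gt a (1 / 2) with h | h
  · exact lt_of_lt_of_le (by linarith) (le_max_right _ _)
  · exact lt_of_lt_of_le (by linarith) (le_max_left _ _)

theorem eta_X_le (a : ℝ) : a / max a (1 - a) ≤ 1 := by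
  rw [div_le_one (eta_max_pos a)]
  exact le_max_left _ _

theorem eta_W_bd (t : ℝ) : 0 ≤ W t ∧ W t ≤ 1 := by
  unfold W
  have h1 := Real.neg_one_le_cos (2 * Real.pi * t)
  have h2 := Real.cos_le_one (2 * Real.pi * t)
  constructor <;> linarith

theorem eta_W_neg (n : ℕ) : W (-(n : ℝ)) = 1 := by
  unfold W
  have h1 : Real.cos (2 * Real.pi * -(n : ℝ)) = 1 := by
    have : 2 * Real.pi * -(n : ℝ) = -((n : ℝ) * (2 * Real.pi)) := by ring
    rw [this, Real.cos_neg, Real.cos_nat_mul_two_pi]
  rw [h1]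
  norm_num

theorem eta_W_zero : W 0 = 1 := by
  have := eta_W_neg 0
  simpa using this

theorem eta_Hn_small (n : ℕ) (a : ℝ) (h : a / max a (1 - a) ≤ Real.exp (-(n : ℝ))) :
    Hn n a = 1 := by
  unfold Hn
  rw [max_eq_left h, Real.log_exp, eta_W_neg]

theorem eta_Hn_zero_left (a : ℝ) : Hn 0 a = 1 := by
  apply eta_Hn_small
  simpa using eta_X_le a

theorem eta_Hn_zero (n : ℕ) : Hn n 0 = 1 := by
  apply eta_Hn_small
  rw [zero_div]
  exact (Real.exp_pos _).le

theorem eta_Hn_one (n : ℕ) : Hn n 1 = 1 := by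
  unfold Hn
  have h1 : (1 : ℝ) / max 1 (1 - 1) = 1 := by norm_num
  have h2 : Real.exp (-(n : ℝ)) ≤ 1 := by
    apply Real.exp_le_one_iff.mpr
    have : (0 : ℝ) ≤ n := Nat.cast_nonneg n
    linarith
  rw [h1, max_eq_right h2, Real.log_one, eta_W_zero]

theorem eta_W_cont : Continuous W := by
  unfold W
  fun_prop

theorem eta_Hn_cont (n : ℕ) : Continuous (Hn n) := by
  unfold Hn
  apply eta_W_cont.comp
  apply Continuous.log
  · apply Continuous.max continuous_const
    apply Continuous.div continuous_id (by fun_prop)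
    intro a
    exact (eta_max_pos a).ne'
  · intro a
    exact (lt_of_lt_of_le (Real.exp_pos _) (le_max_left _ _)).ne'

theorem eta_Hn_mono (n k : ℕ) (a : ℝ) : Hn (n + k) a ≤ Hn n a := by
  rcases le_total (a / max a (1 - a)) (Real.exp (-(n : ℝ))) with h | h
  · rw [eta_Hn_small n a h]
    exact (eta_W_bd _).2
  · have h2 : Real.exp (-((n + k : ℕ) : ℝ)) ≤ Real.exp (-(n : ℝ)) := by
      apply Real.exp_le_exp.mpr
      push_cast
      have : (0 : ℝ) ≤ k := Nat.cast_nonneg k
      linarith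
    unfold Hn
    rw [max_eq_right h, max_eq_right (h2.trans h)]

theorem eta_le_one (u : ℝ) (hu : u ≤ 1) : eta u = 1 := by
  unfold eta
  rcases lt_or_eq_of_le hu with h | h
  · have : ⌊u⌋₊ = 0 := Nat.floor_eq_zero.mpr h
    rw [this]
    exact eta_Hn_zero_left _
  · subst h
    rw [Nat.floor_one]
    norm_num
    exact eta_Hn_zero 1

theorem eta_nat (n : ℕ) : eta n = 1 := by
  unfold eta
  rw [Nat.floor_natCast, sub_self]
  exact eta_Hn_zero n

theorem eta_on (n : ℕ) (u : ℝ) (h1 : (n : ℝ) ≤ u) (h2 : u ≤ n + 1) : eta u = Hn n (u - n) := by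
  rcases lt_or_eq_of_le h2 with h | h
  · have : ⌊u⌋₊ = n := by
      rw [Nat.floor_eq_iff (le_trans (Nat.cast_nonneg n) h1)]
      exact ⟨h1, h⟩
    unfold eta
    rw [this]
  · have h3 : u = ((n + 1 : ℕ) : ℝ) := by
      push_cast
      exact h
    rw [h3, eta_nat]
    have h4 : ((n + 1 : ℕ) : ℝ) - n = 1 := by
      push_cast
      ring
    rw [h4, eta_Hn_one]

theorem eta_contOn (N : ℕ) : ContinuousOn eta (Iic (N : ℝ)) := by
  induction N with
  | zero =>
    refine (continuousOn_const (c := (1 : ℝ))).congr ?_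
    intro u hu
    have h1 : u ≤ ((0 : ℕ) : ℝ) := hu
    rw [Nat.cast_zero] at h1
    exact eta_le_one u (by linarith)
  | succ N ih =>
    have h1 : Iic ((N + 1 : ℕ) : ℝ) = Iic (N : ℝ) ∪ Icc (N : ℝ) (N + 1) := by
      rw [Iic_union_Icc_eq_Iic]
      · push_cast
        rfl
      · linarith
    rw [h1]
    refine ContinuousOn.union_of_isClosed ih ?_ isClosed_Iic isClosed_Icc
    have h2 : Continuous (fun u : ℝ => Hn N (u - N)) :=
      (eta_Hn_cont N).comp (continuous_id.sub continuous_const)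
    refine h2.continuousOn.congr ?_
    intro u hu
    exact eta_on N u hu.1 hu.2

theorem eta_cont : Continuous eta := by
  rw [continuous_iff_continuousAt]
  intro u
  obtain ⟨N, hN⟩ := exists_nat_gt u
  exact (eta_contOn N).continuousAt (Iic_mem_nhds hN)

/-- Basic facts on `eta`. -/
theorem eta_facts : Continuous eta ∧ (∀ u, 0 ≤ eta u ∧ eta u ≤ 1) ∧
    (∀ u : ℝ, ∀ k : ℕ, eta (u + 2 * k) ≤ eta u) ∧ (∀ n : ℤ, eta n = 1) ∧ (∀ u, u ≤ 1 → eta u = 1) := by
  refine ⟨eta_cont, ?_, ?_, ?_, eta_le_one⟩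
  · intro u
    exact eta_W_bd _
  · intro u k
    rcases le_or_gt 0 u with h | h
    · unfold eta
      have h1 : ⌊u + 2 * (k : ℝ)⌋₊ = ⌊u⌋₊ + 2 * k := by
        have := Nat.floor_add_natCast h (2 * k)
        push_cast at this
        exact this
      rw [h1]
      have h2 : u + 2 * (k : ℝ) - ((⌊u⌋₊ + 2 * k : ℕ) : ℝ) = u - ⌊u⌋₊ := by
        push_cast
        ring
      rw [h2]
      exact eta_Hn_mono _ _ _
    · rw [eta_le_one u (by linarith)]
      exact (eta_W_bd _).2
  · intro n
    rcases le_or_gt n 1 with h | h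
    · apply eta_le_one
      exact_mod_cast h
    · lift n to ℕ using by linarith
      exact eta_nat n

end Pool.Bing
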