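import Pool.Agent.Helper257.Bing.Defs
import Pool.Agent.Helper257.Bing.P_eta_facts

set_option autoImplicit false
open Set Filter Topology

namespace Pool.Bing


variable {K : Type*} [TopologicalSpace K]


/-! TARGET: prove this theorem (add helper lemmas before it if you like; keep the statement) -/



theorem E_core_W_le (t : ℝ) : W t ≤ 1 := by
  unfold W
  linarith [Real.cos_le_one (2 * Real.pi * t)]

theorem E_core_W_nonneg (t : ℝ) : 0 ≤ W t := by
  unfold W
  linarith [Real.neg_one_le_cos (2 * Real.pi * t)]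

theorem E_core_W_neg (t : ℝ) : W (-t) = W t := by
  unfold W
  rw [mul_neg, Real.cos_neg]

theorem E_core_W_nat (n : ℕ) : W (-(n : ℝ)) = 1 := by
  rw [E_core_W_neg]
  unfold W
  rw [show 2 * Real.pi * (n : ℝ) = (n : ℝ) * (2 * Real.pi) by ring, Real.cos_nat_mul_two_pi]
  norm_num

theorem E_core_Hn (n : ℕ) (s : ℝ) (hs : 1 < s) :
    W (Real.log (max (s - 1) 1)) ≤ Hn n (1 / s) := by
  unfold Hn
  have hs0 : 0 < s := by linarith
  have hM : 0 < max (s - 1) 1 := lt_of_lt_of_le one_pos (le_max_right _ _)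
  have hX : 1 / s / max (1 / s) (1 - 1 / s) = (max (s - 1) 1)⁻¹ := by
    have h1 : max (1 / s) (1 - 1 / s) = max (s - 1) 1 / s := by
      rw [max_comm, ← max_div_div_right hs0.le]
      congr 1
      field_simp
    rw [h1]
    field_simp
  rw [hX]
  rcases le_total (Real.exp (-(n : ℝ))) ((max (s - 1) 1)⁻¹) with h | h
  · rw [max_eq_right h, Real.log_inv, E_core_W_neg]
  · rw [max_eq_left h, Real.log_exp, E_core_W_nat]
    exact E_core_W_le _

theorem E_core_aux (i : ℝ) (hi : i = 0 ∨ i = 1) (u v s : ℝ) (hu : -3 ≤ u) (hv : |v| ≤ 3)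
    (hs : 0 ≤ s) (h : E u v = w i s) : False := by
  obtain ⟨_, hη, _, hint, hle⟩ := eta_facts
  have hv' := abs_le.1 hv
  have hpos : 0 < 1 / (8 + u + v / 4) := by
    apply one_div_pos.2
    linarith [hv'.1]
  have hcl0 : 0 ≤ cl s := le_max_left _ _
  have hcl1 : cl s ≤ 1 := by
    unfold cl
    exact max_le (by norm_num) (min_le_right _ _)
  have hW0 := E_core_W_nonneg (Real.log (max (s - 1) 1))
  have hW1 := E_core_W_le (Real.log (max (s - 1) 1))
  have hcW : cl s * W (Real.log (max (s - 1) 1)) ≤ 1 := by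
    calc cl s * W (Real.log (max (s - 1) 1)) ≤ 1 * 1 := mul_le_mul hcl1 hW1 hW0 (by norm_num)
      _ = 1 := by norm_num
  have hcW0 : 0 ≤ cl s * W (Real.log (max (s - 1) 1)) := mul_nonneg hcl0 hW0
  have hρ : 0 < 1 + eta u + 1 / (8 + u + v / 4) := by linarith [(hη u).1]
  have hρ' : 0 < 1 + cl s * W (Real.log (max (s - 1) 1)) := by linarith
  unfold E w at h
  have hnorm : 1 + eta u + 1 / (8 + u + v / 4) = 1 + cl s * W (Real.log (max (s - 1) 1)) := by
    have h1 := congrArg norm h
    rw [norm_mul, norm_mul, Complex.norm_exp_ofReal_mul_I, Complex.norm_exp_ofReal_mul_I,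
      Complex.norm_real, Complex.norm_real, mul_one, mul_one, Real.norm_eq_abs, Real.norm_eq_abs,
      abs_of_pos hρ, abs_of_pos hρ'] at h1
    exact h1
  rw [hnorm] at h
  have hne : ((1 + cl s * W (Real.log (max (s - 1) 1)) : ℝ) : ℂ) ≠ 0 := by
    exact_mod_cast hρ'.ne'
  have h2 := mul_left_cancel₀ hne h
  rw [Complex.exp_eq_exp_iff_exists_int] at h2
  obtain ⟨k, hk⟩ := h2
  have hk2 : Real.pi * u = Real.pi * (i + 1 / max s 1) + k * (2 * Real.pi) := by
    have h3 := congrArg Complex.im hk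
    simpa using h3
  have hk3 : u = i + 1 / max s 1 + 2 * k := by
    have hpi : Real.pi ≠ 0 := Real.pi_ne_zero
    have h4 : Real.pi * u = Real.pi * (i + 1 / max s 1 + 2 * k) := by rw [hk2]; ring
    exact mul_left_cancel₀ hpi h4
  obtain ⟨m, hm⟩ : ∃ m : ℤ, (m : ℝ) = i + 2 * k := by
    rcases hi with hi | hi
    · exact ⟨2 * k, by rw [hi]; push_cast; ring⟩
    · exact ⟨1 + 2 * k, by rw [hi]; push_cast; ring⟩
  by_cases hs1 : s ≤ 1
  · have hu2 : u = ((m + 1 : ℤ) : ℝ) := by
      rw [hk3, max_eq_right hs1]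
      push_cast
      rw [hm]
      ring
    have h5 : eta u = 1 := by rw [hu2]; exact hint _
    linarith
  · push Not at hs1
    have hs0 : 0 < s := by linarith
    have hcl : cl s = 1 := by
      unfold cl
      rw [min_eq_right hs1.le, max_eq_right (by norm_num)]
    rw [max_eq_left hs1.le] at hk3
    by_cases hu1 : u ≤ 1
    · have h5 := hle u hu1
      linarith
    · push Not at hu1
      have ha : 0 < 1 / s := by positivity
      have ha1 : 1 / s < 1 := by rw [div_lt_one hs0]; exact hs1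
      have hmu : u = m + 1 / s := by rw [hk3, hm]; ring
      have hm0 : 0 < m := by
        have : (0 : ℝ) < m := by linarith
        exact_mod_cast this
      obtain ⟨n, hn⟩ : ∃ n : ℕ, (n : ℤ) = m := ⟨m.toNat, Int.toNat_of_nonneg hm0.le⟩
      have hnr : (n : ℝ) = m := by rw [← hn]; norm_num
      have hfl : ⌊u⌋₊ = n := by
        rw [Nat.floor_eq_iff (by linarith)]
        constructor <;> linarith
      have heta : eta u = Hn n (1 / s) := by
        unfold eta
        rw [hfl]
        congr 1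
        rw [hmu, hnr]
        ring
      have h6 := E_core_Hn n s hs1
      rw [← heta] at h6
      rw [hcl, one_mul] at hnorm
      linarith

/-- The spiral strip misses the core. -/
theorem E_core : ∀ u v : ℝ, -3 ≤ u → |v| ≤ 3 → E u v ∉ Core := by
  intro u v hu hv h
  rcases h with h | h
  · obtain ⟨s, hs, he⟩ := h
    exact E_core_aux 0 (Or.inl rfl) u v s hu hv hs he.symm
  · obtain ⟨s, hs, he⟩ := h
    exact E_core_aux 1 (Or.inr rfl) u v s hu hv hs he.symm

end Pool.Bing
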