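import Pool.Agent.Helper257.Bing.Defs
import Pool.Agent.Helper257.Bing.P_eta_facts

set_option autoImplicit false
open Set Filter Topology

namespace Pool.Bing


variable {K : Type*} [TopologicalSpace K]


/-! TARGET: prove this theorem (add helper lemmas before it if you like; keep the statement) -/


theorem E_norm (u v : ℝ) (hu : -3 ≤ u) (hv : |v| ≤ 3) :
    ‖E u v‖ = 1 + eta u + 1 / (8 + u + v / 4) := by
  have h1 := (eta_facts.2.1 u).1
  have h2 := abs_le.mp hv
  have h3 : 0 < 8 + u + v / 4 := by linarith [h2.1]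
  have h4 : 0 < 1 / (8 + u + v / 4) := by positivity
  unfold E
  rw [norm_mul, Complex.norm_real, Complex.norm_exp_ofReal_mul_I, mul_one, Real.norm_eq_abs,
    abs_of_pos (by linarith)]

theorem E_key (u v v' : ℝ) (k : ℕ) (hu : -3 ≤ u) (hv : |v| ≤ 3) (hv' : |v'| ≤ 3)
    (h : 1 + eta u + 1 / (8 + u + v / 4) =
      1 + eta (u + 2 * k) + 1 / (8 + (u + 2 * k) + v' / 4)) : k = 0 ∧ v = v' := by
  have h1 := abs_le.mp hv
  have h2 := abs_le.mp hv'
  have h3 : 0 < 8 + u + v / 4 := by linarith [h1.1]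
  have hk : (0 : ℝ) ≤ k := Nat.cast_nonneg k
  have h4 : 0 < 8 + (u + 2 * k) + v' / 4 := by linarith [h2.1]
  have h5 := eta_facts.2.2.1 u k
  rcases Nat.eq_zero_or_pos k with h0 | h0
  · subst h0
    refine ⟨rfl, ?_⟩
    simp only [Nat.cast_zero, mul_zero, add_zero] at h h4
    have h6 : 1 / (8 + u + v / 4) = 1 / (8 + u + v' / 4) := by linarith
    rw [one_div, one_div, inv_inj] at h6
    linarith
  · exfalso
    have hk1 : (1 : ℝ) ≤ k := by exact_mod_cast h0
    have h6 : 1 / (8 + (u + 2 * k) + v' / 4) < 1 / (8 + u + v / 4) := by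
      apply one_div_lt_one_div_of_lt h3
      linarith [h1.2, h2.1]
    linarith

/-- The spiral strip is injective. -/
theorem E_inj : ∀ u v u' v' : ℝ, -3 ≤ u → -3 ≤ u' → |v| ≤ 3 → |v'| ≤ 3 → E u v = E u' v' →
    u = u' ∧ v = v' := by
  intro u v u' v' hu hu' hv hv' h
  have hn : ‖E u v‖ = ‖E u' v'‖ := by rw [h]
  have hn' := hn
  rw [E_norm u v hu hv, E_norm u' v' hu' hv'] at hn
  have hpos : 0 < ‖E u v‖ := by
    rw [E_norm u v hu hv]
    have h1 := (eta_facts.2.1 u).1
    have h2 := abs_le.mp hv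
    have h3 : 0 < 8 + u + v / 4 := by linarith [h2.1]
    positivity
  have hexp : Complex.exp ((Real.pi * u : ℝ) * Complex.I) =
      Complex.exp ((Real.pi * u' : ℝ) * Complex.I) := by
    have e1 : ∀ a b, -3 ≤ a → |b| ≤ 3 → E a b = (‖E a b‖ : ℂ) * Complex.exp ((Real.pi * a : ℝ) * Complex.I) := by
      intro a b ha hb
      rw [E_norm a b ha hb]
      rfl
    have h1 := e1 u v hu hv
    have h2 := e1 u' v' hu' hv'
    rw [← hn'] at h2
    have h3 : (‖E u v‖ : ℂ) * Complex.exp ((Real.pi * u : ℝ) * Complex.I) =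
        (‖E u v‖ : ℂ) * Complex.exp ((Real.pi * u' : ℝ) * Complex.I) := by
      rw [← h1, ← h2, h]
    exact mul_left_cancel₀ (by exact_mod_cast hpos.ne') h3
  rw [Complex.exp_eq_exp_iff_exists_int] at hexp
  obtain ⟨n, hn2⟩ := hexp
  have h3 : u = u' + 2 * n := by
    have h4 : ((Real.pi * u : ℝ) : ℂ) * Complex.I = ((Real.pi * (u' + 2 * n) : ℝ) : ℂ) * Complex.I := by
      rw [hn2]
      push_cast
      ring
    have h5 := mul_right_cancel₀ Complex.I_ne_zero h4
    have h6 : Real.pi * u = Real.pi * (u' + 2 * n) := by exact_mod_cast h5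
    exact mul_left_cancel₀ Real.pi_ne_zero h6
  rcases le_total 0 n with h0 | h0
  · obtain ⟨k, rfl⟩ := Int.eq_ofNat_of_zero_le h0
    rw [h3] at hn
    have h7 : k = 0 ∧ v' = v := by
      apply E_key u' v' v k hu' hv' hv
      have := hn.symm
      push_cast at this
      exact this
    obtain ⟨rfl, rfl⟩ := h7
    simp at h3
    exact ⟨h3, rfl⟩
  · obtain ⟨k, hk⟩ := Int.eq_ofNat_of_zero_le (neg_nonneg.mpr h0)
    have hn3 : (n : ℝ) = -(k : ℝ) := by
      have : n = -(k : ℤ) := by omega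
      rw [this]; push_cast; ring
    have h8 : u' = u + 2 * k := by rw [h3, hn3]; ring
    rw [h8] at hn
    obtain ⟨rfl, rfl⟩ := E_key u v v' k hu hv hv' hn
    simp at h8
    exact ⟨h8.symm, rfl⟩

end Pool.Bing
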