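import Pool.Agent.Helper257.Bing.Defs

set_option autoImplicit false
open Set Filter Topology

namespace Pool.Bing


variable {K : Type*} [TopologicalSpace K]

/-! TARGET: prove this theorem (add helper lemmas before it if you like; keep the statement) -/


/-- If `f` never preserves the angle on the core, then far out it shifts the lifted angle by an
almost constant amount. -/
theorem angle_shift [T2Space K] [CompactSpace K] {j1 j2 : ℝ → K} {L : Set K} (h1 : IsRay j1 L)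
    (hj2 : Continuous j2) (Θ : K → ℂ) (hΘ : Continuous Θ) (l1 l2 : ℝ → ℝ) (hl1 : Continuous l1)
    (hl2 : Continuous l2)
    (e1 : ∀ s, 0 ≤ s → Θ (j1 s) = Complex.exp ((Real.pi * l1 s : ℝ) * Complex.I))
    (e2 : ∀ s, 0 ≤ s → Θ (j2 s) = Complex.exp ((Real.pi * l2 s : ℝ) * Complex.I))
    (f : C(K, K)) (hfL : ∀ z ∈ L, Θ (f z) ≠ Θ z) (N : ℝ) (φ : ℝ → ℝ) (hφ : Continuous φ)
    (hφ0 : ∀ t, 0 ≤ φ t) (hf : ∀ t, N ≤ t → f (j1 t) = j2 (φ t)) :
    ∃ c M : ℝ, ∀ t, M ≤ t → |l2 (φ t) - l1 t - c| ≤ 1 := by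
  have hSc : IsCompact {x : K | Θ (f x) = Θ x} :=
    (isClosed_eq (hΘ.comp f.continuous) hΘ).isCompact
  have hev : ∀ᶠ t in atTop, j1 t ∉ {x : K | Θ (f x) = Θ x} := by
    by_contra hcon
    rw [Filter.not_eventually] at hcon
    have hfr : ∃ᶠ t in atTop, j1 t ∈ {x : K | Θ (f x) = Θ x} := by
      refine hcon.mono fun t ht => ?_
      exact not_not.1 ht
    obtain ⟨z, hz, hzc⟩ := hSc.exists_mapClusterPt_of_frequently hfr
    exact hfL z ((h1.clus z).1 hzc) hz
  obtain ⟨M0, hM0⟩ := eventually_atTop.1 hev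
  set M : ℝ := max M0 (max N 0) with hM
  have hM1 : M0 ≤ M := le_max_left _ _
  have hM2 : N ≤ M := (le_max_left _ _).trans (le_max_right _ _)
  have hM3 : 0 ≤ M := (le_max_right _ _).trans (le_max_right _ _)
  set d : ℝ → ℝ := fun t => l2 (φ t) - l1 t with hd
  have hdc : Continuous d := (hl2.comp hφ).sub hl1
  have hne : ∀ t, M ≤ t → ∀ k : ℤ, d t ≠ 2 * k := by
    intro t ht k hk
    apply hM0 t (hM1.trans ht)
    show Θ (f (j1 t)) = Θ (j1 t)
    rw [hf t (hM2.trans ht), e2 _ (hφ0 t), e1 t (hM3.trans ht)]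
    have h3 : l2 (φ t) = l1 t + 2 * k := by
      have : l2 (φ t) - l1 t = 2 * k := hk
      linarith
    rw [h3, Complex.exp_eq_exp_iff_exists_int]
    exact ⟨k, by push_cast; ring⟩
  set k : ℤ := ⌊d M / 2⌋ with hk
  have hk1 : (k : ℝ) ≤ d M / 2 := Int.floor_le _
  have hk2 : d M / 2 < k + 1 := Int.lt_floor_add_one _
  refine ⟨2 * k + 1, M, fun t ht => ?_⟩
  show |d t - (2 * k + 1)| ≤ 1
  have hlow : 2 * (k : ℝ) < d t := by
    by_contra hcon
    push Not at hcon
    obtain ⟨s, hs, hsd⟩ := intermediate_value_Icc' ht hdc.continuousOn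
      (show 2 * (k : ℝ) ∈ Icc (d t) (d M) from ⟨hcon, by linarith⟩)
    exact hne s hs.1 k hsd
  have hupp : d t < 2 * ((k + 1 : ℤ) : ℝ) := by
    by_contra hcon
    push Not at hcon
    obtain ⟨s, hs, hsd⟩ := intermediate_value_Icc ht hdc.continuousOn
      (show 2 * ((k + 1 : ℤ) : ℝ) ∈ Icc (d M) (d t) from ⟨by push_cast; linarith, hcon⟩)
    exact hne s hs.1 (k + 1) hsd
  push_cast at hupp
  rw [abs_le]
  constructor <;> linarith

end Pool.Bing
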