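import Pool.Agent.Helper257.Bing.Defs

set_option autoImplicit false
open Set Filter Topology

namespace Pool.Bing


variable {K : Type*} [TopologicalSpace K]

/-! TARGET: prove this theorem (add helper lemmas before it if you like; keep the statement) -/


/-- A self-map of an arc has a fixed point. -/
theorem arc_map [T2Space K] {j : ℝ → K} (hj : Continuous j) {a b : ℝ} (hab : a ≤ b)
    (hinj : InjOn j (Icc a b)) (f : C(K, K)) (hf : ∀ z ∈ j '' Icc a b, f z ∈ j '' Icc a b) :
    ∃ x, f x = x := by
  have hJc : Continuous (fun t : Icc a b => j t) := hj.comp continuous_subtype_val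
  have hJi : Function.Injective (fun t : Icc a b => j t) := by
    intro s t h
    exact Subtype.ext (hinj s.2 t.2 h)
  have hJe : IsClosedEmbedding (fun t : Icc a b => j t) := hJc.isClosedEmbedding hJi
  have hex : ∀ t : Icc a b, ∃ u : Icc a b, j u = f (j t) := by
    intro t
    obtain ⟨u, hu, hfu⟩ := hf (j t) ⟨t, t.2, rfl⟩
    exact ⟨⟨u, hu⟩, hfu⟩
  choose g hg using hex
  have hgc : Continuous g := by
    rw [hJe.isEmbedding.continuous_iff]
    have : (fun t : Icc a b => j t) ∘ g = fun t : Icc a b => f (j t) := by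
      funext t
      exact hg t
    rw [this]
    exact f.continuous.comp hJc
  have hG : Continuous (fun t : ℝ => (g (projIcc a b hab t) : ℝ)) :=
    continuous_subtype_val.comp (hgc.comp continuous_projIcc)
  obtain ⟨t, ht, hfix⟩ := exists_mem_Icc_isFixedPt_of_mapsTo (f := fun t : ℝ => (g (projIcc a b hab t) : ℝ))
    hG.continuousOn hab (fun t _ => (g (projIcc a b hab t)).2)
  refine ⟨j t, ?_⟩
  have h1 : (g (projIcc a b hab t) : ℝ) = t := hfix
  rw [projIcc_of_mem hab ht] at h1
  have h2 := hg ⟨t, ht⟩
  rw [h1] at h2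
  exact h2.symm

end Pool.Bing
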