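import Pool.Agent.Helper257.Bing.Defs

set_option autoImplicit false
open Set Filter Topology

namespace Pool.Bing


variable {K : Type*} [TopologicalSpace K]

/-! TARGET: prove this theorem (add helper lemmas before it if you like; keep the statement) -/


theorem w_cluster_W (h : ℝ) (hh : h ∈ Icc (0:ℝ) 1) : ∃ t : ℝ, ∀ k : ℕ, W (t + k) = h := by
  refine ⟨Real.arccos (2 * h - 1) / (2 * Real.pi), fun k => ?_⟩
  have hpi : (2 * Real.pi) ≠ 0 := by positivity
  have h1 : 2 * Real.pi * (Real.arccos (2 * h - 1) / (2 * Real.pi) + k) =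
      Real.arccos (2 * h - 1) + k * (2 * Real.pi) := by
    field_simp
  rw [W, h1, Real.cos_add_nat_mul_two_pi, Real.cos_arccos (by linarith [hh.1]) (by linarith [hh.2])]
  ring

theorem w_cluster_Wmem (t : ℝ) : W t ∈ Icc (0:ℝ) 1 := by
  constructor
  · unfold W; linarith [Real.neg_one_le_cos (2 * Real.pi * t)]
  · unfold W; linarith [Real.cos_le_one (2 * Real.pi * t)]

theorem w_cluster_cl : Tendsto cl atTop (𝓝 1) := by
  refine tendsto_const_nhds.congr' ?_
  filter_upwards [eventually_ge_atTop (1 : ℝ)] with s hs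
  rw [cl, min_eq_right hs]
  norm_num

theorem w_cluster_exp (i : ℝ) : Tendsto (fun s : ℝ =>
    Complex.exp ((Real.pi * (i + 1 / max s 1) : ℝ) * Complex.I)) atTop
    (𝓝 (Complex.exp ((Real.pi * i : ℝ) * Complex.I))) := by
  have h1 : Tendsto (fun s : ℝ => 1 / max s 1) atTop (𝓝 0) := by
    have h2 : Tendsto (fun s : ℝ => 1 / s) atTop (𝓝 0) := by
      simpa using tendsto_inv_atTop_zero (𝕜 := ℝ)
    refine h2.congr' ?_
    filter_upwards [eventually_ge_atTop (1 : ℝ)] with s hs
    rw [max_eq_left hs]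
  have h2 : Tendsto (fun s : ℝ => Real.pi * (i + 1 / max s 1)) atTop (𝓝 (Real.pi * (i + 0))) :=
    (h1.const_add i).const_mul Real.pi
  rw [add_zero] at h2
  have h3 : Continuous (fun x : ℝ => Complex.exp ((x : ℂ) * Complex.I)) := by fun_prop
  exact (h3.tendsto _).comp h2

theorem w_cluster_aux (i : ℝ) (z : ℂ) : MapClusterPt z atTop (w i) ↔
    ∃ h ∈ Icc (0:ℝ) 1, z = ((1 + h : ℝ) : ℂ) * Complex.exp ((Real.pi * i : ℝ) * Complex.I) := by
  have hlim : ∀ (F : Filter ℝ) (h : ℝ), F ≤ atTop →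
      Tendsto (fun s : ℝ => W (Real.log (max (s - 1) 1))) F (𝓝 h) →
      Tendsto (w i) F (𝓝 (((1 + h : ℝ) : ℂ) * Complex.exp ((Real.pi * i : ℝ) * Complex.I))) := by
    intro F h hF hW
    have h1 := (w_cluster_cl.mono_left hF).mul hW
    rw [one_mul] at h1
    have h2 := h1.const_add 1
    have h3 := (Complex.continuous_ofReal.tendsto _).comp h2
    exact h3.mul ((w_cluster_exp i).mono_left hF)
  constructor
  · intro hz
    rw [mapClusterPt_iff_ultrafilter] at hz
    obtain ⟨U, hU, hz⟩ := hz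
    have hc : IsCompact (Icc (0:ℝ) 1) := isCompact_Icc
    have hm : Ultrafilter.map (fun s : ℝ => W (Real.log (max (s - 1) 1))) U ≤
        𝓟 (Icc (0:ℝ) 1) := by
      rw [le_principal_iff]
      exact Filter.mem_map.2 (Filter.univ_mem' fun s => w_cluster_Wmem _)
    obtain ⟨h, hh, hh2⟩ := isCompact_iff_ultrafilter_le_nhds.1 hc _ hm
    exact ⟨h, hh, tendsto_nhds_unique hz (hlim U h hU hh2)⟩
  · rintro ⟨h, hh, rfl⟩
    obtain ⟨t, ht⟩ := w_cluster_W h hh
    have hs : Tendsto (fun k : ℕ => 1 + Real.exp (t + k)) atTop atTop := by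
      apply tendsto_atTop_add_const_left
      apply Real.tendsto_exp_atTop.comp
      apply tendsto_atTop_add_const_left
      exact tendsto_natCast_atTop_atTop
    have hW : Tendsto (fun s : ℝ => W (Real.log (max (s - 1) 1)))
        (map (fun k : ℕ => 1 + Real.exp (t + k)) atTop) (𝓝 h) := by
      rw [tendsto_map'_iff]
      refine tendsto_const_nhds.congr' ?_
      filter_upwards [hs.eventually_ge_atTop 2] with k hk
      show h = W (Real.log (max (1 + Real.exp (t + k) - 1) 1))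
      rw [max_eq_left (by linarith), add_sub_cancel_left, Real.log_exp, ht k]
    have h2 := hlim _ h hs hW
    rw [tendsto_map'_iff] at h2
    exact MapClusterPt.of_comp hs h2.mapClusterPt

theorem w_cluster_bar (i : ℝ) (s : ℝ) (hs : s ∈ Icc (0:ℝ) 1) :
    w i s = ((1 + s : ℝ) : ℂ) * Complex.exp ((Real.pi * (i + 1) : ℝ) * Complex.I) := by
  have h1 : cl s = s := by rw [cl, min_eq_left hs.2, max_eq_right hs.1]
  have h2 : max (s - 1) 1 = 1 := max_eq_right (by linarith [hs.2])
  have h3 : max s 1 = 1 := max_eq_right hs.2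
  have h4 : W 0 = 1 := by simp [W]
  rw [w, h1, h2, h3, Real.log_one, h4, mul_one, div_one]

/-- The cluster sets of the rays of the core are the bars. -/
theorem w_cluster : (∀ z, MapClusterPt z atTop (w 0) ↔ z ∈ w 1 '' Icc 0 1) ∧
    (∀ z, MapClusterPt z atTop (w 1) ↔ z ∈ w 0 '' Icc 0 1) := by
  have h0 : Complex.exp ((Real.pi * ((1:ℝ) + 1) : ℝ) * Complex.I) =
      Complex.exp ((Real.pi * (0:ℝ) : ℝ) * Complex.I) := by
    have : ((Real.pi * ((1:ℝ) + 1) : ℝ) : ℂ) * Complex.I = 2 * Real.pi * Complex.I := by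
      push_cast; ring
    rw [this, Complex.exp_two_pi_mul_I]
    simp
  have h1 : Complex.exp ((Real.pi * ((0:ℝ) + 1) : ℝ) * Complex.I) =
      Complex.exp ((Real.pi * (1:ℝ) : ℝ) * Complex.I) := by
    rw [zero_add]
  constructor
  · intro z
    rw [w_cluster_aux]
    constructor
    · rintro ⟨h, hh, rfl⟩
      exact ⟨h, hh, by rw [w_cluster_bar 1 h hh, h0]⟩
    · rintro ⟨h, hh, rfl⟩
      exact ⟨h, hh, by rw [w_cluster_bar 1 h hh, h0]⟩
  · intro z
    rw [w_cluster_aux]
    constructor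
    · rintro ⟨h, hh, rfl⟩
      exact ⟨h, hh, by rw [w_cluster_bar 0 h hh, h1]⟩
    · rintro ⟨h, hh, rfl⟩
      exact ⟨h, hh, by rw [w_cluster_bar 0 h hh, h1]⟩

end Pool.Bing
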