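import Pool.Agent.Helper257.Bing.Defs

set_option autoImplicit false
open Set Filter Topology

namespace Pool.Bing


variable {K : Type*} [TopologicalSpace K]

/-! TARGET: prove this theorem (add helper lemmas before it if you like; keep the statement) -/


noncomputable def wR (s : ℝ) : ℝ := 1 + cl s * W (Real.log (max (s - 1) 1))

theorem w_W_mem (t : ℝ) : 0 ≤ W t ∧ W t ≤ 1 := by
  unfold W
  have h1 := Real.neg_one_le_cos (2 * Real.pi * t)
  have h2 := Real.cos_le_one (2 * Real.pi * t)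
  constructor <;> linarith

theorem w_cl_mem (t : ℝ) : 0 ≤ cl t ∧ cl t ≤ 1 := by
  unfold cl
  exact ⟨le_max_left _ _, max_le zero_le_one (min_le_right _ _)⟩

theorem wR_mem (s : ℝ) : 1 ≤ wR s ∧ wR s ≤ 2 := by
  unfold wR
  obtain ⟨h1, h2⟩ := w_W_mem (Real.log (max (s - 1) 1))
  obtain ⟨h3, h4⟩ := w_cl_mem s
  constructor
  · have := mul_nonneg h3 h1
    linarith
  · have : cl s * W (Real.log (max (s - 1) 1)) ≤ 1 * 1 := mul_le_mul h4 h2 h1 zero_le_one
    linarith

theorem wR_cont : Continuous wR := by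
  unfold wR
  have h1 : Continuous cl := by unfold cl; fun_prop
  have h2 : Continuous W := by unfold W; fun_prop
  have h3 : Continuous (fun s : ℝ => Real.log (max (s - 1) 1)) := by
    apply Continuous.log (by fun_prop)
    intro s
    have : (1 : ℝ) ≤ max (s - 1) 1 := le_max_right _ _
    linarith
  exact continuous_const.add (h1.mul (h2.comp h3))

theorem w_eq (i s : ℝ) : w i s = ((wR s : ℝ) : ℂ) *
    Complex.exp ((Real.pi * (i + 1 / max s 1) : ℝ) * Complex.I) := rfl

theorem w_norm (i s : ℝ) : ‖w i s‖ = wR s := by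
  rw [w_eq, norm_mul, Complex.norm_exp_ofReal_mul_I, mul_one, Complex.norm_real, Real.norm_eq_abs,
    abs_of_nonneg (by have := (wR_mem s).1; linarith)]

theorem w_key (i j s t : ℝ) (h : w i s = w j t) :
    wR s = wR t ∧ ∃ n : ℤ, (i - j) + (1 / max s 1 - 1 / max t 1) = 2 * n := by
  have h1 : wR s = wR t := by
    rw [← w_norm i s, ← w_norm j t, h]
  refine ⟨h1, ?_⟩
  rw [w_eq, w_eq, h1] at h
  have h2 : ((wR t : ℝ) : ℂ) ≠ 0 := by
    have := (wR_mem t).1
    exact_mod_cast (by linarith : wR t ≠ 0)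
  have h3 := mul_left_cancel₀ h2 h
  rw [Complex.exp_eq_exp_iff_exists_int] at h3
  obtain ⟨n, hn⟩ := h3
  refine ⟨n, ?_⟩
  have h4 := congrArg Complex.im hn
  simp only [Complex.mul_im, Complex.ofReal_re, Complex.ofReal_im, Complex.I_re, Complex.I_im,
    mul_zero, mul_one, add_zero, zero_add, Complex.add_im] at h4
  have h5 : ((n : ℂ) * (2 * (Real.pi : ℂ) * Complex.I)).im = n * (2 * Real.pi) := by
    have : (n : ℂ) * (2 * (Real.pi : ℂ) * Complex.I) = ((n * (2 * Real.pi) : ℝ) : ℂ) * Complex.I := by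
      push_cast; ring
    rw [this]
    simp
  have h6 : Real.pi * (i + 1 / max s 1) = Real.pi * (j + 1 / max t 1) + n * (2 * Real.pi) := by
    have h7 := congrArg Complex.im hn
    rw [Complex.add_im, h5] at h7
    simpa using h7
  have hpi := Real.pi_pos
  have h8 : Real.pi * (i + 1 / max s 1) = Real.pi * ((j + 1 / max t 1) + 2 * n) := by
    rw [h6]; ring
  have h9 := mul_left_cancel₀ hpi.ne' h8
  linarith

theorem w_inv_mem (s : ℝ) : 0 < 1 / max s 1 ∧ 1 / max s 1 ≤ 1 := by
  have h : (1 : ℝ) ≤ max s 1 := le_max_right _ _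
  constructor
  · positivity
  · rw [div_le_one (by linarith)]
    exact h

theorem w_inj (i s t : ℝ) (hs : 0 ≤ s) (ht : 0 ≤ t) (h : w i s = w i t) : s = t := by
  obtain ⟨h1, n, hn⟩ := w_key i i s t h
  obtain ⟨a1, a2⟩ := w_inv_mem s
  obtain ⟨b1, b2⟩ := w_inv_mem t
  have hn0 : n = 0 := by
    have h2 : (2 * n : ℝ) < 1 := by linarith
    have h3 : (-1 : ℝ) < 2 * n := by linarith
    have h4 : (2 * n : ℤ) < 1 := by exact_mod_cast h2
    have h5 : (-1 : ℤ) < 2 * n := by exact_mod_cast h3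
    omega
  rw [hn0] at hn
  have h6 : 1 / max s 1 = 1 / max t 1 := by
    push_cast at hn
    linarith
  have h7 : max s 1 = max t 1 := by
    rw [one_div, one_div] at h6
    exact inv_injective h6
  have hsmall : ∀ x : ℝ, 0 ≤ x → x ≤ 1 → wR x = 1 + x := by
    intro x hx0 hx1
    unfold wR cl W
    rw [max_eq_right (by linarith : x - 1 ≤ 1), Real.log_one, mul_zero, Real.cos_zero,
      min_eq_left hx1, max_eq_right hx0]
    ring
  rcases le_or_gt s 1 with hs1 | hs1
  · rw [max_eq_right hs1] at h7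
    have ht1 : t ≤ 1 := by
      rw [h7]; exact le_max_left _ _
    rw [hsmall s hs hs1, hsmall t ht ht1] at h1
    linarith
  · rw [max_eq_left hs1.le] at h7
    rcases le_or_gt t 1 with ht1 | ht1
    · rw [max_eq_right ht1] at h7
      linarith
    · rw [max_eq_left ht1.le] at h7
      exact h7

/-- Basic facts on the rays of the core. -/
theorem w_facts : (∀ i, Continuous (w i)) ∧ InjOn (w 0) (Ici 0) ∧ InjOn (w 1) (Ici 0) ∧
    (∀ s t, 0 ≤ s → 0 ≤ t → w 0 s ≠ w 1 t) ∧ (∀ i s, s ≤ 0 → w i s = w i 0) ∧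
    (∀ i s, 1 ≤ ‖w i s‖ ∧ ‖w i s‖ ≤ 2) := by
  refine ⟨?_, ?_, ?_, ?_, ?_, ?_⟩
  · intro i
    have h1 : Continuous (fun s => ((wR s : ℝ) : ℂ) *
        Complex.exp ((Real.pi * (i + 1 / max s 1) : ℝ) * Complex.I)) := by
      apply (Complex.continuous_ofReal.comp wR_cont).mul
      apply Complex.continuous_exp.comp
      apply Continuous.mul _ continuous_const
      apply Complex.continuous_ofReal.comp
      apply continuous_const.mul
      apply continuous_const.add
      apply continuous_const.div (by fun_prop)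
      intro s
      have : (1 : ℝ) ≤ max s 1 := le_max_right _ _
      linarith
    exact h1
  · intro s hs t ht h
    exact w_inj 0 s t hs ht h
  · intro s hs t ht h
    exact w_inj 1 s t hs ht h
  · intro s t hs ht h
    obtain ⟨-, n, hn⟩ := w_key 0 1 s t h
    obtain ⟨a1, a2⟩ := w_inv_mem s
    obtain ⟨b1, b2⟩ := w_inv_mem t
    have h2 : (2 * n : ℝ) < 0 := by linarith
    have h3 : (-2 : ℝ) < 2 * n := by linarith
    have h4 : (2 * n : ℤ) < 0 := by exact_mod_cast h2
    have h5 : (-2 : ℤ) < 2 * n := by exact_mod_cast h3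
    omega
  · intro i s hs
    have h1 : wR s = wR 0 := by
      unfold wR cl
      rw [min_eq_left (by linarith : s ≤ 1), max_eq_left hs, min_eq_left (by norm_num : (0 : ℝ) ≤ 1),
        max_eq_left (le_refl (0 : ℝ)), zero_mul, zero_mul]
    rw [w_eq, w_eq, h1, max_eq_right (by linarith : s ≤ 1), max_eq_right (by norm_num : (0 : ℝ) ≤ 1)]
  · intro i s
    rw [w_norm]
    exact wR_mem s

end Pool.Bing
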