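import Pool.Agent.Helper257.Bing.Defs
import Pool.Agent.Helper257.Bing.P_w_facts
import Pool.Agent.Helper257.Bing.P_w_cluster

set_option autoImplicit false
open Set Filter Topology

namespace Pool.Bing


variable {K : Type*} [TopologicalSpace K]


/-! TARGET: prove this theorem (add helper lemmas before it if you like; keep the statement) -/


theorem core_compact_closure {j : ℝ → ℂ} (hj : Continuous j) {z : ℂ}
    (hz : z ∈ closure (rng j)) : z ∈ rng j ∨ MapClusterPt z atTop j := by
  by_cases h : ∀ M : ℝ, z ∈ closure (j '' Ici M)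
  · right
    rw [mapClusterPt_iff_frequently]
    intro s hs
    rw [frequently_atTop]
    intro M
    obtain ⟨_, hy, b, hb, rfl⟩ := mem_closure_iff_nhds.1 (h M) s hs
    exact ⟨b, hb, hy⟩
  · left
    push Not at h
    obtain ⟨M, hM⟩ := h
    have hsub : rng j ⊆ j '' Icc 0 M ∪ j '' Ici M := by
      rintro _ ⟨s, hs, rfl⟩
      rcases le_total s M with h1 | h1
      · exact Or.inl ⟨s, ⟨hs, h1⟩, rfl⟩
      · exact Or.inr ⟨s, h1, rfl⟩
    have h1 := closure_mono hsub hz
    rw [closure_union] at h1
    rcases h1 with h1 | h1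
    · have hc : IsClosed (j '' Icc 0 M) := (isCompact_Icc.image hj).isClosed
      rw [hc.closure_eq] at h1
      obtain ⟨s, hs, rfl⟩ := h1
      exact ⟨s, hs.1, rfl⟩
    · exact absurd h1 hM


/-- The core is compact. -/
theorem core_compact : IsCompact Core := by
  obtain ⟨hc, -, -, -, -, hn⟩ := w_facts
  obtain ⟨hw0, hw1⟩ := w_cluster
  refine Metric.isCompact_of_isClosed_isBounded ?_ ?_
  · refine isClosed_of_closure_subset fun z hz => ?_
    unfold Core at hz
    rw [closure_union] at hz
    rcases hz with hz | hz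
    · rcases core_compact_closure (hc 0) hz with h | h
      · exact Or.inl h
      · obtain ⟨s, hs, rfl⟩ := (hw0 z).1 h
        exact Or.inr ⟨s, hs.1, rfl⟩
    · rcases core_compact_closure (hc 1) hz with h | h
      · exact Or.inr h
      · obtain ⟨s, hs, rfl⟩ := (hw1 z).1 h
        exact Or.inl ⟨s, hs.1, rfl⟩
  · refine (Metric.isBounded_closedBall (x := (0 : ℂ)) (r := 2)).subset ?_
    rintro _ (⟨s, _, rfl⟩ | ⟨s, _, rfl⟩)
    · rw [mem_closedBall_zero_iff]; exact (hn 0 s).2
    · rw [mem_closedBall_zero_iff]; exact (hn 1 s).2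


end Pool.Bing
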