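import Pool.Agent.Helper257.Bing.Defs

set_option autoImplicit false
open Set Filter Topology

namespace Pool.Bing


variable {K : Type*} [TopologicalSpace K]

/-! TARGET: prove this theorem (add helper lemmas before it if you like; keep the statement) -/


theorem kap_facts_den (n : ℕ) {σ : ℝ} (h1 : σ ≤ 1) : 1 ≤ σ + Real.exp n * (1 - σ) := by
  have he : 1 ≤ Real.exp n := Real.one_le_exp (Nat.cast_nonneg n)
  nlinarith

theorem kap_facts_Asec_zero (n : ℕ) : Asec n 0 = 0 := by simp [Asec]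

theorem kap_facts_Asec_one (n : ℕ) : Asec n 1 = 1 := by simp [Asec]

theorem kap_facts_Asec_zero' (σ : ℝ) : Asec 0 σ = σ := by simp [Asec]

theorem kap_facts_Asec_lt (n : ℕ) {σ τ : ℝ} (hστ : σ < τ) (h1 : τ ≤ 1) :
    Asec n σ < Asec n τ := by
  unfold Asec
  have d1 := kap_facts_den n (hστ.le.trans h1)
  have d2 := kap_facts_den n h1
  rw [div_lt_div_iff₀ (by linarith) (by linarith)]
  have he : 0 < Real.exp n := Real.exp_pos n
  nlinarith [mul_pos he (sub_pos.2 hστ)]

theorem kap_facts_Asec_nonneg (n : ℕ) {σ : ℝ} (h0 : 0 ≤ σ) (h1 : σ ≤ 1) : 0 ≤ Asec n σ := by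
  have d1 := kap_facts_den n h1
  exact div_nonneg h0 (by linarith)

theorem kap_facts_Asec_lt_one (n : ℕ) {σ : ℝ} (h1 : σ < 1) : Asec n σ < 1 := by
  have := kap_facts_Asec_lt n h1 le_rfl
  rwa [kap_facts_Asec_one] at this

theorem kap_facts_Asec_comp (n : ℕ) {σ : ℝ} (h1 : σ ≤ 1) :
    Asec 1 (Asec n σ) = Asec (n + 1) σ := by
  unfold Asec
  have d1 := kap_facts_den n h1
  have d2 := kap_facts_den (n + 1) h1
  have hd : σ + Real.exp n * (1 - σ) ≠ 0 := by linarith
  have e1 : Real.exp ((n + 1 : ℕ) : ℝ) = Real.exp n * Real.exp 1 := by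
    push_cast
    rw [Real.exp_add]
  rw [e1] at d2 ⊢
  have hd2 : σ + Real.exp n * Real.exp 1 * (1 - σ) ≠ 0 := by linarith
  have e3 : σ / (σ + Real.exp n * (1 - σ)) + Real.exp ((1 : ℕ) : ℝ) *
      (1 - σ / (σ + Real.exp n * (1 - σ))) =
      (σ + Real.exp n * Real.exp 1 * (1 - σ)) / (σ + Real.exp n * (1 - σ)) := by
    rw [Nat.cast_one]
    field_simp
    ring
  rw [e3, div_div_div_cancel_right₀ hd]

theorem kap_facts_floor {x : ℝ} (hx : 0 ≤ x) : (⌊x⌋₊ : ℝ) ≤ kap x ∧ kap x < ⌊x⌋₊ + 1 := by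
  have h1 := Nat.floor_le hx
  have h2 := Nat.lt_floor_add_one x
  have h3 := kap_facts_Asec_nonneg ⌊x⌋₊ (σ := x - ⌊x⌋₊) (by linarith) (by linarith)
  have h4 := kap_facts_Asec_lt_one ⌊x⌋₊ (σ := x - ⌊x⌋₊) (by linarith)
  unfold kap
  constructor <;> linarith

theorem kap_facts_nat (n : ℕ) : kap n = n := by
  unfold kap
  rw [Nat.floor_natCast, sub_self, kap_facts_Asec_zero, add_zero]

theorem kap_facts_le {x : ℝ} (hx : x ≤ 1) : kap x = x := by
  rcases hx.lt_or_eq with h | rfl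
  · have : ⌊x⌋₊ = 0 := Nat.floor_eq_zero.2 h
    unfold kap
    rw [this, kap_facts_Asec_zero']
    simp
  · have := kap_facts_nat 1
    simpa using this

theorem kap_facts_mono : StrictMono kap := by
  intro x y hxy
  rcases le_or_gt y 1 with hy | hy
  · rw [kap_facts_le hy, kap_facts_le (hxy.le.trans hy)]
    exact hxy
  · have hy0 : 0 ≤ y := by linarith
    obtain ⟨g1, g2⟩ := kap_facts_floor hy0
    rcases lt_or_ge x 0 with hx | hx
    · rw [kap_facts_le (by linarith : x ≤ 1)]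
      have : (0 : ℝ) ≤ ⌊y⌋₊ := Nat.cast_nonneg _
      linarith
    · obtain ⟨f1, f2⟩ := kap_facts_floor hx
      have hle : ⌊x⌋₊ ≤ ⌊y⌋₊ := Nat.floor_le_floor hxy.le
      rcases hle.lt_or_eq with h | h
      · have : (⌊x⌋₊ : ℝ) + 1 ≤ ⌊y⌋₊ := by exact_mod_cast h
        linarith
      · have h2 := Nat.lt_floor_add_one y
        unfold kap
        rw [h]
        have := kap_facts_Asec_lt ⌊y⌋₊ (σ := x - ⌊y⌋₊) (τ := y - ⌊y⌋₊) (by linarith)
          (by linarith)
        linarith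

theorem kap_facts_surj : Function.Surjective kap := by
  intro y
  rcases le_or_gt y 1 with hy | hy
  · exact ⟨y, kap_facts_le hy⟩
  · have hy0 : 0 ≤ y := by linarith
    set n := ⌊y⌋₊ with hn
    have h1 : (n : ℝ) ≤ y := Nat.floor_le hy0
    have h2 : y < n + 1 := Nat.lt_floor_add_one y
    set a := y - n with ha
    have ha0 : 0 ≤ a := by linarith
    have ha1 : a < 1 := by linarith
    have he : 0 < Real.exp n := Real.exp_pos n
    have hd : 0 < 1 - a + Real.exp n * a := by nlinarith [mul_nonneg he.le ha0]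
    set σ := Real.exp n * a / (1 - a + Real.exp n * a) with hσ
    have hσ0 : 0 ≤ σ := div_nonneg (mul_nonneg he.le ha0) hd.le
    have hσ1 : σ < 1 := by
      rw [hσ, div_lt_one hd]
      linarith
    refine ⟨n + σ, ?_⟩
    have hfl : ⌊(n : ℝ) + σ⌋₊ = n := by
      rw [Nat.floor_eq_iff (by positivity)]
      constructor <;> linarith
    unfold kap
    rw [hfl, add_sub_cancel_left]
    have e1 : Asec n σ = a := by
      unfold Asec
      have e2 : σ + Real.exp n * (1 - σ) = Real.exp n / (1 - a + Real.exp n * a) := by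
        rw [hσ]
        field_simp
        ring
      rw [e2, hσ, div_div_div_cancel_right₀ hd.ne']
      field_simp
    rw [e1, ha]
    ring

/-- Basic facts on `kap`. -/
theorem kap_facts : Continuous kap ∧ StrictMono kap ∧ (∀ n : ℕ, kap n = n) ∧
    (∀ x, x ≤ 1 → kap x = x) ∧ (∀ x, |kap x - x| ≤ 1) ∧ (∀ x, 0 ≤ x → kap (x + 1) = Ush (kap x)) ∧
    (∀ x, 0 ≤ x → (⌊kap x⌋₊ = ⌊x⌋₊)) := by
  refine ⟨kap_facts_mono.monotone.continuous_of_surjective kap_facts_surj, kap_facts_mono,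
    kap_facts_nat, fun x hx => kap_facts_le hx, ?_, ?_, ?_⟩
  · intro x
    rcases le_or_gt x 1 with hx | hx
    · rw [kap_facts_le hx]; simp
    · have hx0 : 0 ≤ x := by linarith
      obtain ⟨f1, f2⟩ := kap_facts_floor hx0
      have h1 := Nat.floor_le hx0
      have h2 := Nat.lt_floor_add_one x
      rw [abs_le]
      constructor <;> linarith
  · intro x hx
    obtain ⟨f1, f2⟩ := kap_facts_floor hx
    have h1 := Nat.floor_le hx
    have h2 := Nat.lt_floor_add_one x
    have hfl : ⌊kap x⌋ = (⌊x⌋₊ : ℤ) := by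
      rw [Int.floor_eq_iff]
      constructor
      · exact_mod_cast f1
      · exact_mod_cast f2
    have hfr : Int.fract (kap x) = Asec ⌊x⌋₊ (x - ⌊x⌋₊) := by
      rw [Int.fract, hfl]
      unfold kap
      push_cast
      ring
    unfold Ush
    rw [hfr, hfl, kap_facts_Asec_comp _ (by linarith)]
    have hfl2 : ⌊x + 1⌋₊ = ⌊x⌋₊ + 1 := Nat.floor_add_one hx
    conv_lhs => unfold kap
    rw [hfl2]
    have e : x + 1 - ((⌊x⌋₊ + 1 : ℕ) : ℝ) = x - ⌊x⌋₊ := by push_cast; ring
    rw [e]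
    push_cast
    ring
  · intro x hx
    obtain ⟨f1, f2⟩ := kap_facts_floor hx
    rw [Nat.floor_eq_iff (le_trans (Nat.cast_nonneg _) f1)]
    exact ⟨f1, f2⟩

end Pool.Bing
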