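import Pool.Agent.Helper257.Bing.Defs
import Pool.Agent.Helper257.Bing.P_kap_facts
import Pool.Agent.Helper257.Bing.P_eta_facts

set_option autoImplicit false
open Set Filter Topology

namespace Pool.Bing


variable {K : Type*} [TopologicalSpace K]


theorem lim_core_exp (u : ℝ) (n : ℕ) (i : ℕ) (hn : n % 2 = i) :
    Complex.exp ((Real.pi * u : ℝ) * Complex.I) =
      Complex.exp ((Real.pi * (i + (u - n)) : ℝ) * Complex.I) := by
  have h1 : n = 2 * (n / 2) + i := by omega
  have h2 : ((Real.pi * u : ℝ) : ℂ) * Complex.I = ((Real.pi * (i + (u - n)) : ℝ) : ℂ) * Complex.I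
      + ((n / 2 : ℕ) : ℂ) * (2 * Real.pi * Complex.I) := by
    have h3 : (n : ℝ) = 2 * ((n / 2 : ℕ) : ℝ) + i := by exact_mod_cast h1
    have h4 : u = (i + (u - n)) + ((n / 2 : ℕ) : ℝ) * 2 := by rw [h3]; ring
    have h5 : Real.pi * u = Real.pi * (i + (u - n)) + ((n / 2 : ℕ) : ℝ) * (2 * Real.pi) := by
      conv_lhs => rw [h4]
      ring
    rw [h5]
    push_cast
    ring
  rw [h2]
  exact (Complex.exp_periodic.nat_mul (n / 2)) _

theorem lim_core_W_neg (x : ℝ) : W (-x) = W x := by
  unfold W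
  rw [mul_neg, Real.cos_neg]

theorem lim_core_W_cont : Continuous W := by
  unfold W
  fun_prop

/-! TARGET: prove this theorem (add helper lemmas before it if you like; keep the statement) -/


/-- Limits of `ee` at the far end lie in the core. -/
theorem lim_core {α : Type*} (U : Filter α) [U.NeBot] (c : α → ℝ × ℝ) (hc : ∀ᶠ a in U, c a ∈ Reg)
    (h1 : Tendsto (fun a => (c a).1) U atTop) (y : ℂ) (h2 : Tendsto (fun a => ee (c a)) U (𝓝 y)) :
    y ∈ Core := by
  obtain ⟨_, _, _, _, hk, _⟩ := kap_facts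
  obtain ⟨_, he, _⟩ := eta_facts
  set F : Ultrafilter α := Ultrafilter.of U with hFdef
  have hF : (F : Filter α) ≤ U := Ultrafilter.of_le U
  have hc' : ∀ᶠ a in (F : Filter α), c a ∈ Reg := hF hc
  have h1' := h1.mono_left hF
  have h2' := h2.mono_left hF
  set u : α → ℝ := fun a => kap (c a).1 with hu
  have hut : Tendsto u F atTop := by
    refine tendsto_atTop_mono (f := fun a => (c a).1 + (-1)) (fun a => ?_)
      (tendsto_atTop_add_const_right _ _ h1')
    have := abs_le.1 (hk (c a).1)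
    show (c a).1 + -1 ≤ kap (c a).1
    linarith [this.1]
  have hd : Tendsto (fun a => 1 / (8 + u a + (c a).2 / 4)) F (𝓝 0) := by
    simp only [one_div]
    refine tendsto_inv_atTop_zero.comp ?_
    refine tendsto_atTop_mono' _ ?_ hut
    filter_upwards [hc'] with a ha
    have := (abs_le.1 ha.2).1
    show u a ≤ 8 + u a + (c a).2 / 4
    linarith
  set t : α → ℝ := fun a => u a - ⌊u a⌋₊ with ht
  have ht01 : ∀ᶠ a in (F : Filter α), t a ∈ Icc (0 : ℝ) 1 := by
    filter_upwards [hut.eventually_ge_atTop 0] with a ha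
    have h3 := Nat.floor_le ha
    have h4 := (Nat.lt_floor_add_one (u a)).le
    exact ⟨by show 0 ≤ u a - _; linarith, by show u a - _ ≤ 1; linarith⟩
  obtain ⟨b, hb, htb⟩ : ∃ b ∈ Icc (0 : ℝ) 1, Tendsto t F (𝓝 b) := by
    have h3 : ((F.map t : Ultrafilter ℝ) : Filter ℝ) ≤ 𝓟 (Icc 0 1) := by
      rw [le_principal_iff]
      exact ht01
    obtain ⟨b, hb, h4⟩ := isCompact_Icc.ultrafilter_le_nhds _ h3
    exact ⟨b, hb, h4⟩
  obtain ⟨h, hh, hth⟩ : ∃ h ∈ Icc (0 : ℝ) 1, Tendsto (fun a => eta (u a)) F (𝓝 h) := by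
    have h3 : ((F.map (fun a => eta (u a)) : Ultrafilter ℝ) : Filter ℝ) ≤ 𝓟 (Icc 0 1) := by
      rw [le_principal_iff]
      exact Eventually.of_forall (f := (F : Filter α)) (fun a => he (u a))
    obtain ⟨b, hb, h4⟩ := isCompact_Icc.ultrafilter_le_nhds _ h3
    exact ⟨b, hb, h4⟩
  obtain ⟨i, hi01, hi⟩ : ∃ i : ℕ, (i = 0 ∨ i = 1) ∧ ∀ᶠ a in (F : Filter α), ⌊u a⌋₊ % 2 = i := by
    have h3 : ∀ᶠ a in (F : Filter α), ⌊u a⌋₊ % 2 = 0 ∨ ⌊u a⌋₊ % 2 = 1 :=
      Eventually.of_forall (fun a => Nat.mod_two_eq_zero_or_one _)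
    rcases Ultrafilter.eventually_or.1 h3 with h3 | h3
    · exact ⟨0, Or.inl rfl, h3⟩
    · exact ⟨1, Or.inr rfl, h3⟩
  have hexp : Tendsto (fun a => Complex.exp ((Real.pi * u a : ℝ) * Complex.I)) F
      (𝓝 (Complex.exp ((Real.pi * (i + b) : ℝ) * Complex.I))) := by
    have h3 : Tendsto (fun a => Complex.exp ((Real.pi * (i + t a) : ℝ) * Complex.I)) F
      (𝓝 (Complex.exp ((Real.pi * (i + b) : ℝ) * Complex.I))) := by
      have h4 : Continuous (fun x : ℝ => Complex.exp ((Real.pi * (i + x) : ℝ) * Complex.I)) := by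
        fun_prop
      exact (h4.tendsto b).comp htb
    refine h3.congr' ?_
    filter_upwards [hi] with a ha
    exact (lim_core_exp (u a) _ i ha).symm
  have hy : y = ((1 + h : ℝ) : ℂ) * Complex.exp ((Real.pi * (i + b) : ℝ) * Complex.I) := by
    refine tendsto_nhds_unique h2' ?_
    have h3 : Tendsto (fun a => ((1 + eta (u a) + 1 / (8 + u a + (c a).2 / 4) : ℝ) : ℂ)) F
        (𝓝 ((1 + h + 0 : ℝ) : ℂ)) :=
      (Complex.continuous_ofReal.tendsto _).comp ((tendsto_const_nhds.add hth).add hd)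
    rw [add_zero] at h3
    exact h3.mul hexp
  rcases eq_or_lt_of_le hb.1 with hb0 | hb0
  · -- b = 0
    rcases hi01 with rfl | rfl
    · refine Or.inr ⟨h, hh.1, ?_⟩
      rw [hy, ← hb0]
      have h5 : cl h = h := by unfold cl; rw [min_eq_left hh.2, max_eq_right hh.1]
      have h6 : max (h - 1) 1 = 1 := max_eq_right (by linarith [hh.2])
      have h7 : max h 1 = 1 := max_eq_right hh.2
      have h8 : W 0 = 1 := by unfold W; simp
      show w 1 h = _
      unfold w
      rw [h5, h6, h7, Real.log_one, h8, mul_one]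
      congr 1
      have h9 : ((Real.pi * (1 + 1 / 1) : ℝ) : ℂ) * Complex.I = 2 * Real.pi * Complex.I := by
        push_cast; ring
      rw [h9, Complex.exp_two_pi_mul_I]
      simp
    · refine Or.inl ⟨h, hh.1, ?_⟩
      rw [hy, ← hb0]
      have h5 : cl h = h := by unfold cl; rw [min_eq_left hh.2, max_eq_right hh.1]
      have h6 : max (h - 1) 1 = 1 := max_eq_right (by linarith [hh.2])
      have h7 : max h 1 = 1 := max_eq_right hh.2
      have h8 : W 0 = 1 := by unfold W; simp
      show w 0 h = _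
      unfold w
      rw [h5, h6, h7, Real.log_one, h8, mul_one]
      congr 3
      push_cast; ring
  · -- b > 0
    have hX : 0 < b / max b (1 - b) := div_pos hb0 (lt_max_of_lt_left hb0)
    have hh' : h = W (Real.log (b / max b (1 - b))) := by
      refine tendsto_nhds_unique hth ?_
      have h3 : Tendsto (fun a => t a / max (t a) (1 - t a)) F (𝓝 (b / max b (1 - b))) := by
        refine htb.div (htb.max (tendsto_const_nhds.sub htb)) ?_
        exact (lt_max_of_lt_left hb0).ne'
      have h4 : Tendsto (fun a => Real.exp (-(⌊u a⌋₊ : ℝ))) F (𝓝 0) := by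
        refine Real.tendsto_exp_atBot.comp ?_
        refine tendsto_neg_atTop_atBot.comp ?_
        exact tendsto_natCast_atTop_atTop.comp (tendsto_nat_floor_atTop.comp hut)
      have h5 : Tendsto (fun a => max (Real.exp (-(⌊u a⌋₊ : ℝ))) (t a / max (t a) (1 - t a))) F
          (𝓝 (max 0 (b / max b (1 - b)))) := h4.max h3
      rw [max_eq_right hX.le] at h5
      exact (lim_core_W_cont.tendsto _).comp ((Real.continuousAt_log hX.ne').tendsto.comp h5)
    have hs1 : 1 ≤ 1 / b := by rw [le_div_iff₀ hb0]; linarith [hb.2]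
    have hwi : w i (1 / b) = y := by
      rw [hy, hh']
      unfold w
      have h5 : cl (1 / b) = 1 := by
        unfold cl
        rw [min_eq_right hs1, max_eq_right zero_le_one]
      have h6 : max (1 / b - 1) 1 = (b / max b (1 - b))⁻¹ := by
        rw [inv_div]
        rcases le_total b (1 - b) with h7 | h7
        · rw [max_eq_right h7, max_eq_left]
          · field_simp
          · rw [le_sub_iff_add_le, le_div_iff₀ hb0]; linarith
        · rw [max_eq_left h7, max_eq_right]
          · field_simp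
          · rw [sub_le_iff_le_add, div_le_iff₀ hb0]; linarith
      have h7 : max (1 / b) 1 = 1 / b := max_eq_left hs1
      rw [h5, h6, h7, Real.log_inv, lim_core_W_neg, one_mul, one_div_one_div]
    rcases hi01 with rfl | rfl
    · refine Or.inl ⟨1 / b, by show (0 : ℝ) ≤ 1 / b; linarith, ?_⟩
      rw [← hwi]; norm_num
    · refine Or.inr ⟨1 / b, by show (0 : ℝ) ≤ 1 / b; linarith, ?_⟩
      rw [← hwi]; norm_num

end Pool.Bing
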