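import Pool.Agent.Helper257.Bing.Defs
import Pool.Agent.Helper257.Bing.P_kap_facts
import Pool.Agent.Helper257.Bing.P_eta_facts
import Pool.Agent.Helper257.Bing.P_w_facts
import Pool.Agent.Helper257.Bing.P_w_cluster
import Pool.Agent.Helper257.Bing.P_core_compact
import Pool.Agent.Helper257.Bing.P_lim_core

set_option autoImplicit false
open Set Filter Topology

namespace Pool.Bing


variable {K : Type*} [TopologicalSpace K]


/-! TARGET: prove this theorem (add helper lemmas before it if you like; keep the statement) -/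


theorem curve_cluster_exp (i k : ℕ) (s : ℝ) :
    Complex.exp ((Real.pi * ((i : ℝ) + 2 * k + 1 / s) : ℝ) * Complex.I) =
      Complex.exp ((Real.pi * ((i : ℝ) + 1 / s) : ℝ) * Complex.I) := by
  rw [Complex.exp_eq_exp_iff_exists_int]
  refine ⟨k, ?_⟩
  push_cast
  ring

theorem curve_cluster_W (t : ℝ) : W (-t) = W t := by
  unfold W
  rw [mul_neg, Real.cos_neg]

theorem curve_cluster_eta (i : ℕ) (s : ℝ) (hs : 1 < s) : ∃ k0 : ℕ, ∀ k : ℕ, k0 ≤ k →
    eta ((i : ℝ) + 2 * k + 1 / s) = W (Real.log (max (s - 1) 1)) := by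
  have hs0 : 0 < s := by linarith
  have hX : (1 / s) / max (1 / s) (1 - 1 / s) = (max (s - 1) 1)⁻¹ := by
    have h1 : max (1 / s) (1 - 1 / s) = (1 / s) * max (s - 1) 1 := by
      rw [mul_max_of_nonneg _ _ (by positivity : (0 : ℝ) ≤ 1 / s), max_comm]
      congr 1
      · field_simp
      · ring
    rw [h1]
    have h2 : 0 < max (s - 1) 1 := lt_max_of_lt_right one_pos
    field_simp
  have hM : 0 < max (s - 1) 1 := lt_max_of_lt_right one_pos
  have hM' : 0 < (max (s - 1) 1)⁻¹ := inv_pos.2 hM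
  refine ⟨⌈-Real.log ((max (s - 1) 1)⁻¹)⌉₊, fun k hk => ?_⟩
  have hk' : -Real.log ((max (s - 1) 1)⁻¹) ≤ k := (Nat.le_ceil _).trans (by exact_mod_cast hk)
  have hfrac : 0 < 1 / s := by positivity
  have hfrac1 : 1 / s < 1 := by
    rw [div_lt_one hs0]
    exact hs
  have hfl : ⌊(i : ℝ) + 2 * k + 1 / s⌋₊ = i + 2 * k := by
    rw [Nat.floor_eq_iff (by positivity)]
    push_cast
    constructor
    · linarith
    · linarith
  unfold eta
  rw [hfl]
  have h3 : (i : ℝ) + 2 * k + 1 / s - ((i + 2 * k : ℕ) : ℝ) = 1 / s := by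
    push_cast
    ring
  rw [h3]
  unfold Hn
  rw [hX]
  have h4 : Real.exp (-((i + 2 * k : ℕ) : ℝ)) ≤ (max (s - 1) 1)⁻¹ := by
    rw [← Real.exp_log hM']
    apply Real.exp_le_exp.2
    push_cast
    have : (0 : ℝ) ≤ i := Nat.cast_nonneg i
    have : (0 : ℝ) ≤ k := Nat.cast_nonneg k
    linarith
  rw [max_eq_right h4, Real.log_inv, curve_cluster_W]

theorem curve_cluster_pt (c : ℝ → ℝ × ℝ) (hc : Continuous c) (hR : ∀ s, c s ∈ Reg)
    (ht : Tendsto (fun s => (c s).1) atTop atTop) (i : ℕ) (s : ℝ) (hs : 1 < s) :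
    MapClusterPt (w i s) atTop (fun s => ee (c s)) := by
  obtain ⟨hkc, -, -, -, hkb, -, -⟩ := kap_facts
  rw [mapClusterPt_iff_frequently]
  intro S hS
  obtain ⟨ε, hε, hεS⟩ := Metric.mem_nhds_iff.1 hS
  rw [frequently_atTop]
  intro M
  obtain ⟨k0, hk0⟩ := curve_cluster_eta i s hs
  obtain ⟨k1, hk1⟩ := exists_nat_gt (1 / ε)
  obtain ⟨k2, hk2⟩ := exists_nat_gt (kap (c M).1)
  set k : ℕ := max k0 (max k1 k2) with hk
  have hs0 : 0 < s := by linarith
  have hfrac : 0 < 1 / s := by positivity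
  set u : ℝ := (i : ℝ) + 2 * k + 1 / s with hu
  have hki : (0 : ℝ) ≤ i := Nat.cast_nonneg i
  have hk2' : (k2 : ℝ) ≤ k := by
    exact_mod_cast (le_max_right k1 k2).trans (le_max_right k0 _)
  have hk1' : (k1 : ℝ) ≤ k := by
    exact_mod_cast (le_max_left k1 k2).trans (le_max_right k0 _)
  have hk0' : (0 : ℝ) ≤ k := Nat.cast_nonneg k
  have huM : kap (c M).1 ≤ u := by
    rw [hu]
    linarith
  have hev : ∀ᶠ σ in atTop, u + 1 ≤ (c σ).1 := ht.eventually_ge_atTop _
  obtain ⟨σ', h1, h2⟩ := (hev.and (eventually_ge_atTop M)).exists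
  have h3 : u ≤ kap (c σ').1 := by
    have := (abs_le.1 (hkb (c σ').1)).1
    linarith
  have hgc : Continuous (fun σ => kap (c σ).1) := hkc.comp (continuous_fst.comp hc)
  obtain ⟨σ, hσ, hσu⟩ := intermediate_value_Icc h2 hgc.continuousOn ⟨huM, h3⟩
  refine ⟨σ, hσ.1, hεS ?_⟩
  have hσu' : kap (c σ).1 = u := hσu
  have hv : |(c σ).2| ≤ 3 := (hR σ).2
  have hv' := abs_le.1 hv
  show dist (E (kap (c σ).1) (c σ).2) (w i s) < ε
  rw [hσu', dist_eq_norm]
  have hden : 0 < 8 + u + (c σ).2 / 4 := by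
    rw [hu]
    linarith [hv'.1]
  have hE : E u (c σ).2 - w i s = ((1 / (8 + u + (c σ).2 / 4) : ℝ) : ℂ) *
      Complex.exp ((Real.pi * ((i : ℝ) + 1 / s) : ℝ) * Complex.I) := by
    have e1 : cl s = 1 := by
      unfold cl
      rw [min_eq_right hs.le, max_eq_right zero_le_one]
    unfold E w
    rw [hu, curve_cluster_exp, hk0 k (le_max_left _ _), e1, max_eq_left hs.le]
    push_cast
    ring
  rw [hE, norm_mul, Complex.norm_exp_ofReal_mul_I, mul_one, Complex.norm_real,
    Real.norm_of_nonneg (by positivity), div_lt_iff₀ hden]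
  rw [div_lt_iff₀ hε] at hk1
  have h5 : (k1 : ℝ) ≤ 8 + u + (c σ).2 / 4 := by
    rw [hu]
    linarith [hv'.1]
  nlinarith

/-- Every curve going to the far end has cluster set `Core`. -/
theorem curve_cluster (c : ℝ → ℝ × ℝ) (hc : Continuous c) (hR : ∀ s, c s ∈ Reg)
    (ht : Tendsto (fun s => (c s).1) atTop atTop) (z : ℂ) :
    MapClusterPt z atTop (fun s => ee (c s)) ↔ z ∈ Core := by
  constructor
  · intro h
    rw [mapClusterPt_iff_ultrafilter] at h
    obtain ⟨U, hU, h2⟩ := h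
    exact lim_core (U : Filter ℝ) c (Eventually.of_forall hR) (ht.mono_left hU) z h2
  · intro hz
    have hclosed : IsClosed {z : ℂ | MapClusterPt z atTop (fun s => ee (c s))} :=
      isClosed_setOfPred_clusterPt
    have hpt0 : ∀ s, 1 < s → MapClusterPt (w 0 s) atTop (fun s => ee (c s)) := by
      intro s hs
      have := curve_cluster_pt c hc hR ht 0 s hs
      rwa [Nat.cast_zero] at this
    have hpt1 : ∀ s, 1 < s → MapClusterPt (w 1 s) atTop (fun s => ee (c s)) := by
      intro s hs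
      have := curve_cluster_pt c hc hR ht 1 s hs
      rwa [Nat.cast_one] at this
    have hcl : ∀ (f : ℝ → ℂ), (∀ s, 1 < s → MapClusterPt (f s) atTop (fun s => ee (c s))) →
        ∀ z, MapClusterPt z atTop f → MapClusterPt z atTop (fun s => ee (c s)) := by
      intro f hf z hz
      have h1 : z ∈ closure (f '' Ioi 1) := by
        rw [mem_closure_iff_nhds]
        intro t ht
        rw [mapClusterPt_iff_frequently] at hz
        obtain ⟨a, ha, ha1⟩ := ((hz t ht).and_eventually (eventually_gt_atTop 1)).exists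
        exact ⟨f a, ha, ⟨a, ha1, rfl⟩⟩
      have h2 : closure (f '' Ioi 1) ⊆ {z : ℂ | MapClusterPt z atTop (fun s => ee (c s))} := by
        refine closure_minimal ?_ hclosed
        rintro _ ⟨a, ha, rfl⟩
        exact hf a ha
      exact h2 h1
    rcases hz with ⟨s, hs, rfl⟩ | ⟨s, hs, rfl⟩
    · rcases le_or_gt s 1 with h | h
      · exact hcl _ hpt1 _ ((w_cluster.2 _).2 ⟨s, ⟨hs, h⟩, rfl⟩)
      · exact hpt0 s h
    · rcases le_or_gt s 1 with h | h
      · exact hcl _ hpt0 _ ((w_cluster.1 _).2 ⟨s, ⟨hs, h⟩, rfl⟩)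
      · exact hpt1 s h

end Pool.Bing
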