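import Pool.Agent.Helper257.Bing.Defs

set_option autoImplicit false
open Set Filter Topology

namespace Pool.Bing


variable {K : Type*} [TopologicalSpace K]

/-! TARGET: prove this theorem (add helper lemmas before it if you like; keep the statement) -/



theorem pp_facts_om_bounds (s : ℝ) : 0 ≤ om s ∧ om s ≤ 1 := by
  unfold om
  have h1 := Real.neg_one_le_cos (2 * Real.pi * s)
  have h2 := Real.cos_le_one (2 * Real.pi * s)
  constructor <;> linarith

theorem pp_facts_om_five : om 5 = 0 := by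
  unfold om
  have : Real.cos (2 * Real.pi * 5) = 1 := by
    have := Real.cos_nat_mul_two_pi 5
    rw [show 2 * Real.pi * 5 = ((5 : ℕ) : ℝ) * (2 * Real.pi) by push_cast; ring]
    exact this
  rw [this]; norm_num

theorem pp_facts_cl0 {t : ℝ} (h : t ≤ 0) : cl t = 0 := by
  unfold cl
  rw [min_eq_left (by linarith), max_eq_left h]

theorem pp_facts_cl1 {t : ℝ} (h : 1 ≤ t) : cl t = 1 := by
  unfold cl
  rw [min_eq_right h, max_eq_right (by norm_num)]

theorem pp_facts_clm {t : ℝ} (h0 : 0 ≤ t) (h1 : t ≤ 1) : cl t = t := by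
  unfold cl
  rw [min_eq_left h1, max_eq_right h0]

theorem pp_facts_pieces (s : ℝ) :
    (s ≤ 0 ∧ pp s = (1, 1)) ∨ (0 ≤ s ∧ s ≤ 1 ∧ pp s = (1, 1 - s)) ∨
    (1 ≤ s ∧ s ≤ 2 ∧ pp s = (3 - 2 * s, 0)) ∨ (2 ≤ s ∧ s ≤ 3 ∧ pp s = (-1, s - 2)) ∨
    (3 ≤ s ∧ s ≤ 4 ∧ pp s = (s - 4, 1)) ∨ (4 ≤ s ∧ s ≤ 5 ∧ pp s = (4 * s - 16, s - 3)) ∨
    (5 ≤ s ∧ pp s = (s - 1 + 7 * om s, 2 + om s)) := by
  rcases le_total s 0 with h0 | h0
  · left
    refine ⟨h0, ?_⟩
    unfold pp
    rw [pp_facts_cl0 (by linarith : s - 1 ≤ 0), pp_facts_cl0 (by linarith : s - 3 ≤ 0),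
      pp_facts_cl0 (by linarith : s - 4 ≤ 0), pp_facts_cl0 (by linarith : s - 2 ≤ 0),
      pp_facts_cl0 h0, max_eq_right (by linarith : s - 5 ≤ 0), max_eq_right (by linarith : s ≤ 5),
      pp_facts_om_five]
    norm_num
  rcases le_total s 1 with h1 | h1
  · right; left
    refine ⟨h0, h1, ?_⟩
    unfold pp
    rw [pp_facts_cl0 (by linarith : s - 1 ≤ 0), pp_facts_cl0 (by linarith : s - 3 ≤ 0),
      pp_facts_cl0 (by linarith : s - 4 ≤ 0), pp_facts_cl0 (by linarith : s - 2 ≤ 0),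
      pp_facts_clm h0 h1, max_eq_right (by linarith : s - 5 ≤ 0),
      max_eq_right (by linarith : s ≤ 5), pp_facts_om_five]
    refine Prod.ext ?_ ?_ <;> simp
  rcases le_total s 2 with h2 | h2
  · right; right; left
    refine ⟨h1, h2, ?_⟩
    unfold pp
    rw [pp_facts_clm (by linarith : 0 ≤ s - 1) (by linarith), pp_facts_cl0 (by linarith : s - 3 ≤ 0),
      pp_facts_cl0 (by linarith : s - 4 ≤ 0), pp_facts_cl0 (by linarith : s - 2 ≤ 0),
      pp_facts_cl1 h1, max_eq_right (by linarith : s - 5 ≤ 0),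
      max_eq_right (by linarith : s ≤ 5), pp_facts_om_five]
    refine Prod.ext ?_ ?_
    · show _ = 3 - 2 * s
      ring
    · show _ = (0 : ℝ)
      ring
  rcases le_total s 3 with h3 | h3
  · right; right; right; left
    refine ⟨h2, h3, ?_⟩
    unfold pp
    rw [pp_facts_cl1 (by linarith : 1 ≤ s - 1), pp_facts_cl0 (by linarith : s - 3 ≤ 0),
      pp_facts_cl0 (by linarith : s - 4 ≤ 0), pp_facts_clm (by linarith : 0 ≤ s - 2) (by linarith),
      pp_facts_cl1 h1, max_eq_right (by linarith : s - 5 ≤ 0),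
      max_eq_right (by linarith : s ≤ 5), pp_facts_om_five]
    refine Prod.ext ?_ ?_
    · show _ = (-1 : ℝ)
      ring
    · show _ = s - 2
      ring
  rcases le_total s 4 with h4 | h4
  · right; right; right; right; left
    refine ⟨h3, h4, ?_⟩
    unfold pp
    rw [pp_facts_cl1 (by linarith : 1 ≤ s - 1), pp_facts_clm (by linarith : 0 ≤ s - 3) (by linarith),
      pp_facts_cl0 (by linarith : s - 4 ≤ 0), pp_facts_cl1 (by linarith : 1 ≤ s - 2),
      pp_facts_cl1 h1, max_eq_right (by linarith : s - 5 ≤ 0),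
      max_eq_right (by linarith : s ≤ 5), pp_facts_om_five]
    refine Prod.ext ?_ ?_
    · show _ = s - 4
      ring
    · show _ = (1 : ℝ)
      ring
  rcases le_total s 5 with h5 | h5
  · right; right; right; right; right; left
    refine ⟨h4, h5, ?_⟩
    unfold pp
    rw [pp_facts_cl1 (by linarith : 1 ≤ s - 1), pp_facts_cl1 (by linarith : 1 ≤ s - 3),
      pp_facts_clm (by linarith : 0 ≤ s - 4) (by linarith), pp_facts_cl1 (by linarith : 1 ≤ s - 2),
      pp_facts_cl1 h1, max_eq_right (by linarith : s - 5 ≤ 0),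
      max_eq_right (by linarith : s ≤ 5), pp_facts_om_five]
    refine Prod.ext ?_ ?_
    · show _ = 4 * s - 16
      ring
    · show _ = s - 3
      ring
  · right; right; right; right; right; right
    refine ⟨h5, ?_⟩
    unfold pp
    rw [pp_facts_cl1 (by linarith : 1 ≤ s - 1), pp_facts_cl1 (by linarith : 1 ≤ s - 3),
      pp_facts_cl1 (by linarith : 1 ≤ s - 4), pp_facts_cl1 (by linarith : 1 ≤ s - 2),
      pp_facts_cl1 h1, max_eq_left (by linarith : 0 ≤ s - 5),
      max_eq_left (by linarith : 5 ≤ s)]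
    refine Prod.ext ?_ ?_
    · show _ = s - 1 + 7 * om s
      ring
    · show _ = 2 + om s
      ring

theorem pp_facts_inj : InjOn pp (Ici 0) := by
  intro s hs t ht hst
  rw [mem_Ici] at hs ht
  have os := pp_facts_om_bounds s
  have ot := pp_facts_om_bounds t
  rcases pp_facts_pieces s with ⟨a1, e⟩ | ⟨a1, a2, e⟩ | ⟨a1, a2, e⟩ | ⟨a1, a2, e⟩ | ⟨a1, a2, e⟩ |
      ⟨a1, a2, e⟩ | ⟨a1, e⟩ <;>
    rcases pp_facts_pieces t with ⟨b1, e'⟩ | ⟨b1, b2, e'⟩ | ⟨b1, b2, e'⟩ | ⟨b1, b2, e'⟩ |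
      ⟨b1, b2, e'⟩ | ⟨b1, b2, e'⟩ | ⟨b1, e'⟩ <;>
    · rw [e, e', Prod.mk.injEq] at hst
      obtain ⟨c1, c2⟩ := hst
      first
        | linarith
        | (exfalso; linarith)

theorem pp_facts_cont : Continuous pp := by
  have hcl : Continuous cl := by
    unfold cl
    fun_prop
  have hom : Continuous om := by
    unfold om
    fun_prop
  unfold pp
  refine Continuous.prodMk ?_ ?_
  · have h1 := hcl.comp (continuous_id.sub (continuous_const (y := (1 : ℝ))))
    have h3 := hcl.comp (continuous_id.sub (continuous_const (y := (3 : ℝ))))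
    have h4 := hcl.comp (continuous_id.sub (continuous_const (y := (4 : ℝ))))
    have h5 : Continuous fun s : ℝ => max (s - 5) 0 := by fun_prop
    have h6 := hom.comp (continuous_id.max (continuous_const (y := (5 : ℝ))))
    exact ((((continuous_const.sub (continuous_const.mul h1)).add h3).add
      (continuous_const.mul h4)).add h5).add (continuous_const.mul h6)
  · have h1 := hcl
    have h2 := hcl.comp (continuous_id.sub (continuous_const (y := (2 : ℝ))))
    have h4 := hcl.comp (continuous_id.sub (continuous_const (y := (4 : ℝ))))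
    have h6 := hom.comp (continuous_id.max (continuous_const (y := (5 : ℝ))))
    exact (((continuous_const.sub h1).add h2).add h4).add h6

/-- Facts on the planar ray `pp`. -/
theorem pp_facts : Continuous pp ∧ InjOn pp (Ici 0) ∧ (∀ s, pp s ∈ Reg) ∧
    (∀ s, s ≤ 0 → pp s = pp 0) ∧ Tendsto (fun s => (pp s).1) atTop atTop ∧
    (∀ s, 5 ≤ s → pp s = (s - 1 + 7 * om s, 2 + om s)) := by
  have h5 : ∀ s, 5 ≤ s → pp s = (s - 1 + 7 * om s, 2 + om s) := by
    intro s hs
    unfold pp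
    rw [pp_facts_cl1 (by linarith : 1 ≤ s - 1), pp_facts_cl1 (by linarith : 1 ≤ s - 3),
      pp_facts_cl1 (by linarith : 1 ≤ s - 4), pp_facts_cl1 (by linarith : 1 ≤ s - 2),
      pp_facts_cl1 (by linarith : 1 ≤ s), max_eq_left (by linarith : 0 ≤ s - 5),
      max_eq_left (by linarith : 5 ≤ s)]
    refine Prod.ext ?_ ?_
    · show _ = s - 1 + 7 * om s
      ring
    · show _ = 2 + om s
      ring
  have h0 : ∀ s, s ≤ 0 → pp s = (1, 1) := by
    intro s hs
    unfold pp
    rw [pp_facts_cl0 (by linarith : s - 1 ≤ 0), pp_facts_cl0 (by linarith : s - 3 ≤ 0),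
      pp_facts_cl0 (by linarith : s - 4 ≤ 0), pp_facts_cl0 (by linarith : s - 2 ≤ 0),
      pp_facts_cl0 hs, max_eq_right (by linarith : s - 5 ≤ 0), max_eq_right (by linarith : s ≤ 5),
      pp_facts_om_five]
    norm_num
  refine ⟨pp_facts_cont, pp_facts_inj, ?_, ?_, ?_, h5⟩
  · intro s
    have os := pp_facts_om_bounds s
    show -3 ≤ (pp s).1 ∧ |(pp s).2| ≤ 3
    rw [abs_le]
    rcases pp_facts_pieces s with ⟨a1, e⟩ | ⟨a1, a2, e⟩ | ⟨a1, a2, e⟩ | ⟨a1, a2, e⟩ | ⟨a1, a2, e⟩ |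
      ⟨a1, a2, e⟩ | ⟨a1, e⟩ <;> rw [e] <;> refine ⟨?_, ?_, ?_⟩ <;> simp only <;> linarith
  · intro s hs
    rw [h0 s hs, h0 0 le_rfl]
  · refine tendsto_atTop_mono' atTop (f₁ := fun s : ℝ => s - 1) ?_
      (tendsto_atTop_add_const_right atTop (-1) tendsto_id)
    filter_upwards [eventually_ge_atTop (5 : ℝ)] with s hs
    rw [h5 s hs]
    have := (pp_facts_om_bounds s).1
    show s - 1 ≤ s - 1 + 7 * om s
    linarith

end Pool.Bing
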