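import Pool.Agent.Helper257.Bing.Defs

set_option autoImplicit false
open Set Filter Topology

namespace Pool.Bing


variable {K : Type*} [TopologicalSpace K]

/-! TARGET: prove this theorem (add helper lemmas before it if you like; keep the statement) -/


theorem qf_cl_nonneg (t : ℝ) : 0 ≤ cl t := le_max_left _ _

theorem qf_cl_le (t : ℝ) : cl t ≤ 1 := max_le zero_le_one (min_le_right _ _)

theorem qf_cl_cont : Continuous cl := by
  unfold cl
  fun_prop

theorem qf_cl_zero {t : ℝ} (h : t ≤ 0) : cl t = 0 := by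
  unfold cl
  rw [min_eq_left (by linarith), max_eq_left h]

theorem qf_cl_one {t : ℝ} (h : 1 ≤ t) : cl t = 1 := by
  unfold cl
  rw [min_eq_right h, max_eq_right zero_le_one]

theorem qf_cl_id {t : ℝ} (h : 0 ≤ t) (h' : t ≤ 1) : cl t = t := by
  unfold cl
  rw [min_eq_left h', max_eq_right h]

theorem qf_om_five : om 5 = 0 := by
  unfold om
  have : 2 * Real.pi * 5 = ((5 : ℕ) : ℝ) * (2 * Real.pi) := by push_cast; ring
  rw [this, Real.cos_nat_mul_two_pi]; ring

theorem qf_om_one : om 1 = 0 := by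
  unfold om
  rw [mul_one, Real.cos_two_pi]; ring

theorem qf_lt {s : ℝ} (h0 : 0 ≤ s) (h : s < 1) : qr s = (2 * s, -1 + s) := by
  unfold qr
  rw [max_eq_right h.le, qf_cl_id h0 h.le, mul_one, Real.cos_pi]
  ext <;> simp

theorem qf_ge {s : ℝ} (h : 1 ≤ s) : qr s = (1 + 1 / s, (1 + Real.cos (Real.pi * s)) / 2) := by
  unfold qr
  rw [max_eq_left h, qf_cl_one h]
  ext <;> ring

theorem qf_cont : Continuous qr := by
  unfold qr
  have h1 : Continuous fun s : ℝ => 1 / max s 1 :=
    continuous_const.div (continuous_id.max continuous_const)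
      (fun s => ne_of_gt (lt_of_lt_of_le one_pos (le_max_right _ _)))
  have h2 := qf_cl_cont
  fun_prop

theorem qf_inj : InjOn qr (Ici 0) := by
  intro s hs t ht h
  rcases lt_or_ge s 1 with h1 | h1 <;> rcases lt_or_ge t 1 with h2 | h2
  · rw [qf_lt hs h1, qf_lt ht h2] at h
    have := congrArg Prod.fst h
    simp at this
    exact this
  · rw [qf_lt hs h1, qf_ge h2] at h
    have := congrArg Prod.snd h
    simp only at this
    have := Real.neg_one_le_cos (Real.pi * t)
    linarith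
  · rw [qf_ge h1, qf_lt ht h2] at h
    have := congrArg Prod.snd h
    simp only at this
    have := Real.neg_one_le_cos (Real.pi * s)
    linarith
  · rw [qf_ge h1, qf_ge h2] at h
    have := congrArg Prod.fst h
    simp only [one_div, add_right_inj, inv_inj] at this
    exact this

theorem qf_reg (s : ℝ) : qr s ∈ Reg := by
  unfold qr Reg
  have h1 := qf_cl_nonneg s
  have h2 := qf_cl_le s
  have h3 := Real.neg_one_le_cos (Real.pi * max s 1)
  have h4 := Real.cos_le_one (Real.pi * max s 1)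
  have h5 : 0 < 1 / max s 1 := one_div_pos.mpr (lt_of_lt_of_le one_pos (le_max_right _ _))
  refine ⟨by simp only; linarith, ?_⟩
  simp only
  rw [abs_le]
  constructor <;> linarith

theorem qf_reg' (s : ℝ) : ql s ∈ Reg := by
  unfold ql qr Reg
  have h1 := qf_cl_nonneg s
  have h2 := qf_cl_le s
  have h3 := Real.neg_one_le_cos (Real.pi * max s 1)
  have h4 := Real.cos_le_one (Real.pi * max s 1)
  have h5 : 1 / max s 1 ≤ 1 := by
    rw [div_le_one (lt_of_lt_of_le one_pos (le_max_right _ _))]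
    exact le_max_right _ _
  refine ⟨by simp only; linarith, ?_⟩
  simp only
  rw [abs_le]
  constructor <;> linarith

theorem qf_neg {s : ℝ} (h : s ≤ 0) : qr s = qr 0 := by
  unfold qr
  rw [qf_cl_zero h, qf_cl_zero le_rfl, max_eq_right (by linarith), max_eq_right zero_le_one]

theorem qf_zero : qr 0 = (0, -1) := by
  rw [qf_lt le_rfl one_pos]; simp

theorem qf_rr : rr 0 = (0, -1) := by
  unfold rr
  rw [max_eq_right (by norm_num : (0 : ℝ) - 1 ≤ 0), max_eq_right zero_le_one, qf_om_one,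
    qf_cl_zero le_rfl]
  simp

theorem qf_pp {s : ℝ} (h0 : 0 ≤ s) (h1 : s ≤ 1) : pp s = (1, 1 - s) := by
  unfold pp
  rw [qf_cl_zero (by linarith : s - 1 ≤ 0), qf_cl_zero (by linarith : s - 3 ≤ 0),
    qf_cl_zero (by linarith : s - 4 ≤ 0), max_eq_right (by linarith : s - 5 ≤ 0),
    max_eq_right (by linarith : s ≤ 5), qf_om_five, qf_cl_id h0 h1,
    qf_cl_zero (by linarith : s - 2 ≤ 0)]
  ext <;> simp

theorem qf_pp' {s : ℝ} (h0 : 2 ≤ s) (h1 : s ≤ 3) : pp s = (-1, s - 2) := by
  unfold pp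
  rw [qf_cl_one (by linarith : 1 ≤ s - 1), qf_cl_zero (by linarith : s - 3 ≤ 0),
    qf_cl_zero (by linarith : s - 4 ≤ 0), max_eq_right (by linarith : s - 5 ≤ 0),
    max_eq_right (by linarith : s ≤ 5), qf_om_five, qf_cl_one (by linarith : 1 ≤ s),
    qf_cl_id (by linarith : 0 ≤ s - 2) (by linarith)]
  ext
  · simp; norm_num
  · simp

theorem qf_img (z : ℝ × ℝ) : z ∈ pp '' Icc 0 1 ↔ z.1 = 1 ∧ z.2 ∈ Icc (0 : ℝ) 1 := by
  constructor
  · rintro ⟨s, ⟨h0, h1⟩, rfl⟩
    rw [qf_pp h0 h1]
    exact ⟨rfl, by simp only; constructor <;> linarith⟩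
  · rintro ⟨h1, h2, h3⟩
    refine ⟨1 - z.2, ⟨by linarith, by linarith⟩, ?_⟩
    rw [qf_pp (by linarith) (by linarith)]
    ext
    · simp [h1]
    · simp

theorem qf_img' (z : ℝ × ℝ) : z ∈ pp '' Icc 2 3 ↔ z.1 = -1 ∧ z.2 ∈ Icc (0 : ℝ) 1 := by
  constructor
  · rintro ⟨s, ⟨h0, h1⟩, rfl⟩
    rw [qf_pp' h0 h1]
    exact ⟨rfl, by simp only; constructor <;> linarith⟩
  · rintro ⟨h1, h2, h3⟩
    refine ⟨z.2 + 2, ⟨by linarith, by linarith⟩, ?_⟩
    rw [qf_pp' (by linarith) (by linarith)]
    ext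
    · simp [h1]
    · simp

theorem qf_clus (z : ℝ × ℝ) : MapClusterPt z atTop qr ↔ z ∈ pp '' Icc 0 1 := by
  rw [qf_img]
  constructor
  · intro h
    constructor
    · have h1 : Tendsto (fun s => (qr s).1) atTop (𝓝 1) := by
        have h2 : Tendsto (fun s : ℝ => 1 + 1 / s) atTop (𝓝 (1 + 0)) := by
          refine tendsto_const_nhds.add ?_
          have h20 : (fun s : ℝ => 1 / s) = fun s : ℝ => s⁻¹ := by funext s; rw [one_div]
          change Tendsto (fun s : ℝ => 1 / s) atTop (𝓝 0)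
          rw [h20]
          exact tendsto_inv_atTop_zero (𝕜 := ℝ)
        rw [add_zero] at h2
        refine h2.congr' ?_
        filter_upwards [eventually_ge_atTop (1 : ℝ)] with s hs
        rw [qf_ge hs]
      have h3 : MapClusterPt z.1 atTop (fun s => (qr s).1) :=
        h.tendsto_comp continuous_fst.continuousAt
      have h4 : (𝓝 z.1 ⊓ 𝓝 (1 : ℝ)).NeBot := by
        have h5 : (𝓝 z.1 ⊓ map (fun s => (qr s).1) atTop).NeBot := h3
        exact h5.mono (inf_le_inf_left _ h1)
      exact eq_of_nhds_neBot h4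
    · by_contra hc
      have h3 : MapClusterPt z.2 atTop (fun s => (qr s).2) :=
        h.tendsto_comp continuous_snd.continuousAt
      have h4 := mapClusterPt_iff_frequently.mp h3 _ (isClosed_Icc.isOpen_compl.mem_nhds hc)
      apply h4
      filter_upwards [eventually_ge_atTop (1 : ℝ)] with s hs
      rw [qf_ge hs]
      simp only [mem_compl_iff, not_not]
      have := Real.neg_one_le_cos (Real.pi * s)
      have := Real.cos_le_one (Real.pi * s)
      constructor <;> linarith
  · rintro ⟨h1, h2, h3⟩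
    set t0 : ℝ := Real.arccos (2 * z.2 - 1) / Real.pi with ht0
    have hc : Real.cos (Real.pi * t0) = 2 * z.2 - 1 := by
      rw [ht0, mul_div_cancel₀ _ Real.pi_ne_zero]
      exact Real.cos_arccos (by linarith) (by linarith)
    have ht00 : 0 ≤ t0 := div_nonneg (Real.arccos_nonneg _) Real.pi_pos.le
    have hs : Tendsto (fun k : ℕ => t0 + 2 * (k : ℝ)) atTop atTop :=
      tendsto_atTop_add_const_left _ _ (tendsto_natCast_atTop_atTop.const_mul_atTop two_pos)
    apply MapClusterPt.of_comp hs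
    apply Tendsto.mapClusterPt
    have h4 : Tendsto (fun k : ℕ => ((1 + 1 / (t0 + 2 * (k : ℝ)), z.2) : ℝ × ℝ)) atTop (𝓝 z) := by
      have h5 : z = (1 + 0, z.2) := by
        ext
        · simp [h1]
        · simp
      conv => rhs; rw [h5]
      refine Tendsto.prodMk_nhds (tendsto_const_nhds.add ?_) tendsto_const_nhds
      simp only [one_div]
      exact tendsto_inv_atTop_zero.comp hs
    refine h4.congr' ?_
    filter_upwards [eventually_ge_atTop 1] with k hk
    have hk' : (1 : ℝ) ≤ k := by exact_mod_cast hk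
    simp only [Function.comp]
    rw [qf_ge (by linarith)]
    have h6 : Real.pi * (t0 + 2 * (k : ℝ)) = Real.pi * t0 + (k : ℝ) * (2 * Real.pi) := by ring
    rw [h6, Real.cos_add_nat_mul_two_pi, hc]
    ext
    · simp
    · simp

/-- the reflection -/
def qf_mir (z : ℝ × ℝ) : ℝ × ℝ := (-z.1, z.2)

theorem qf_mir_cont : Continuous qf_mir := by
  unfold qf_mir; fun_prop

theorem qf_mir_ql (s : ℝ) : qf_mir (ql s) = qr s := by
  unfold qf_mir ql
  ext <;> simp

theorem qf_mir_qr (s : ℝ) : qf_mir (qr s) = ql s := rfl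

theorem qf_mir_mir (z : ℝ × ℝ) : qf_mir (qf_mir z) = z := by
  unfold qf_mir; ext <;> simp

/-- Facts on the planar rays `qr`, `ql`. -/
theorem q_facts : Continuous qr ∧ Continuous ql ∧ InjOn qr (Ici 0) ∧ InjOn ql (Ici 0) ∧
    (∀ s, qr s ∈ Reg) ∧ (∀ s, ql s ∈ Reg) ∧ (∀ s, s ≤ 0 → qr s = qr 0) ∧
    (∀ s, s ≤ 0 → ql s = ql 0) ∧ qr 0 = rr 0 ∧ ql 0 = rr 0 ∧
    (∀ z, MapClusterPt z atTop qr ↔ z ∈ pp '' Icc 0 1) ∧
    (∀ z, MapClusterPt z atTop ql ↔ z ∈ pp '' Icc 2 3) := by
  refine ⟨qf_cont, ?_, qf_inj, ?_, qf_reg, qf_reg', fun s hs => qf_neg hs, ?_, ?_, ?_, qf_clus, ?_⟩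
  · exact qf_mir_cont.comp qf_cont
  · intro s hs t ht h
    apply qf_inj hs ht
    rw [← qf_mir_ql, ← qf_mir_ql, h]
  · intro s hs
    rw [← qf_mir_qr, ← qf_mir_qr, qf_neg hs]
  · rw [qf_zero, qf_rr]
  · rw [← qf_mir_qr, qf_zero, qf_rr]
    unfold qf_mir; simp
  · intro z
    have h1 : MapClusterPt z atTop ql ↔ MapClusterPt (qf_mir z) atTop qr := by
      constructor
      · intro h
        have h2 := h.tendsto_comp (qf_mir_cont.continuousAt (x := z))
        have h3 : qf_mir ∘ ql = qr := by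
          funext s; exact qf_mir_ql s
        rwa [h3] at h2
      · intro h
        have h2 := h.tendsto_comp (qf_mir_cont.continuousAt (x := qf_mir z))
        have h3 : qf_mir ∘ qr = ql := by
          funext s; exact qf_mir_qr s
        rwa [h3, qf_mir_mir] at h2
    rw [h1, qf_clus, qf_img, qf_img']
    unfold qf_mir
    simp only
    constructor
    · rintro ⟨h, h'⟩
      exact ⟨by linarith, h'⟩
    · rintro ⟨h, h'⟩
      exact ⟨by linarith, h'⟩

end Pool.Bing
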