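import Pool.Agent.Helper257.Bing.Defs

set_option autoImplicit false
open Set Filter Topology

namespace Pool.Bing


variable {K : Type*} [TopologicalSpace K]

/-! TARGET: prove this theorem (add helper lemmas before it if you like; keep the statement) -/


theorem om_nonneg_866 (s : ℝ) : 0 ≤ om s := by
  unfold om
  have := Real.cos_le_one (2 * Real.pi * s)
  linarith

theorem om_le_one_866 (s : ℝ) : om s ≤ 1 := by
  unfold om
  have := Real.neg_one_le_cos (2 * Real.pi * s)
  linarith

theorem om_one_866 : om 1 = 0 := by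
  unfold om
  rw [mul_one, Real.cos_two_pi]; norm_num

theorem rr_ge_one_866 (s : ℝ) (hs : 1 ≤ s) : rr s = (s + 3 + 15 * om s, -2 - om s) := by
  unfold rr
  have h1 : cl s = 1 := by
    unfold cl
    rw [min_eq_right hs, max_eq_right (by norm_num)]
  have h2 : max (s - 1) 0 = s - 1 := max_eq_left (by linarith)
  have h3 : max s 1 = s := max_eq_left hs
  rw [h1, h2, h3]
  ext
  · simp only; ring
  · simp only; ring

theorem rr_le_one_866 (s : ℝ) (h0 : 0 ≤ s) (hs : s ≤ 1) : rr s = (4 * s, -1 - s) := by
  unfold rr
  have h1 : cl s = s := by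
    unfold cl
    rw [min_eq_left hs, max_eq_right h0]
  have h2 : max (s - 1) 0 = 0 := max_eq_right (by linarith)
  have h3 : max s 1 = 1 := max_eq_right hs
  rw [h1, h2, h3, om_one_866]
  ext
  · simp only; ring
  · simp only; ring

theorem rr_le_zero_866 (s : ℝ) (hs : s ≤ 0) : rr s = rr 0 := by
  rw [rr_le_one_866 0 le_rfl (by norm_num)]
  unfold rr
  have h1 : cl s = 0 := by
    unfold cl
    rw [min_eq_left (by linarith), max_eq_left hs]
  have h2 : max (s - 1) 0 = 0 := max_eq_right (by linarith)
  have h3 : max s 1 = 1 := max_eq_right (by linarith)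
  rw [h1, h2, h3, om_one_866]
  ext
  · simp only; ring
  · simp only; ring

/-- Facts on the planar ray `rr`. -/
theorem rr_facts : Continuous rr ∧ InjOn rr (Ici 0) ∧ (∀ s, rr s ∈ Reg) ∧
    (∀ s, s ≤ 0 → rr s = rr 0) ∧ Tendsto (fun s => (rr s).1) atTop atTop ∧
    (∀ s, 1 ≤ s → rr s = (s + 3 + 15 * om s, -2 - om s)) := by
  refine ⟨?_, ?_, ?_, rr_le_zero_866, ?_, rr_ge_one_866⟩
  · unfold rr cl om
    fun_prop
  · intro s hs t ht h
    rw [mem_Ici] at hs ht
    rcases le_total s 1 with h1 | h1 <;> rcases le_total t 1 with h2 | h2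
    · rw [rr_le_one_866 s hs h1, rr_le_one_866 t ht h2, Prod.mk.injEq] at h
      linarith [h.1]
    · rw [rr_le_one_866 s hs h1, rr_ge_one_866 t h2, Prod.mk.injEq] at h
      have := om_nonneg_866 t
      linarith [h.1]
    · rw [rr_ge_one_866 s h1, rr_le_one_866 t ht h2, Prod.mk.injEq] at h
      have := om_nonneg_866 s
      linarith [h.1]
    · rw [rr_ge_one_866 s h1, rr_ge_one_866 t h2, Prod.mk.injEq] at h
      linarith [h.1, h.2]
  · intro s
    have key : ∀ t, 0 ≤ t → rr t ∈ Reg := by
      intro t ht
      rcases le_total t 1 with h1 | h1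
      · rw [rr_le_one_866 t ht h1]
        refine ⟨?_, ?_⟩
        · simp only; linarith
        · simp only
          rw [abs_le]; constructor <;> linarith
      · rw [rr_ge_one_866 t h1]
        have := om_nonneg_866 t
        have := om_le_one_866 t
        refine ⟨?_, ?_⟩
        · simp only; linarith
        · simp only
          rw [abs_le]; constructor <;> linarith
    rcases le_total s 0 with h | h
    · rw [rr_le_zero_866 s h]; exact key 0 le_rfl
    · exact key s h
  · apply tendsto_atTop_mono' atTop _ tendsto_id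
    filter_upwards [eventually_ge_atTop (1 : ℝ)] with s hs
    rw [rr_ge_one_866 s hs]
    have := om_nonneg_866 s
    simp only [id]
    linarith

end Pool.Bing
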