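import Pool.Agent.Helper257.Bing.Defs
import Pool.Agent.Helper257.Bing.P_pp_facts
import Pool.Agent.Helper257.Bing.P_rr_facts
import Pool.Agent.Helper257.Bing.P_q_facts

set_option autoImplicit false
open Set Filter Topology

namespace Pool.Bing


variable {K : Type*} [TopologicalSpace K]


/-! TARGET: prove this theorem (add helper lemmas before it if you like; keep the statement) -/


theorem dd_closure_ray {X : Type*} [TopologicalSpace X] [T2Space X] {j : ℝ → X}
    (hj : Continuous j) : closure (rng j) ⊆ rng j ∪ {z | MapClusterPt z atTop j} := by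
  intro z hz
  by_cases hc : MapClusterPt z atTop j
  · exact Or.inr hc
  · left
    rw [mapClusterPt_iff_frequently] at hc
    push Not at hc
    obtain ⟨U, hU, hU2⟩ := hc
    rw [eventually_atTop] at hU2
    obtain ⟨A, hA⟩ := hU2
    have hcl : IsClosed (j '' Icc 0 A) := (isCompact_Icc.image hj).isClosed
    have h1 : z ∈ closure (j '' Icc 0 A) := by
      rw [mem_closure_iff_nhds] at hz ⊢
      intro V hV
      obtain ⟨y, ⟨hyV, hyU⟩, s, hs, rfl⟩ := hz (V ∩ U) (inter_mem hV hU)
      refine ⟨j s, hyV, s, ⟨hs, ?_⟩, rfl⟩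
      by_contra hlt
      push Not at hlt
      exact hA s hlt.le hyU
    rw [hcl.closure_eq] at h1
    obtain ⟨s, hs, rfl⟩ := h1
    exact ⟨s, hs.1, rfl⟩

theorem dd_no_cluster {j : ℝ → ℝ × ℝ} (h : Tendsto (fun s => (j s).1) atTop atTop) (z : ℝ × ℝ) :
    ¬ MapClusterPt z atTop j := by
  intro hc
  rw [mapClusterPt_iff_frequently] at hc
  have hU : {w : ℝ × ℝ | w.1 < z.1 + 1} ∈ 𝓝 z :=
    (isOpen_lt continuous_fst continuous_const).mem_nhds (by
      show z.1 < z.1 + 1
      linarith)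
  have h1 := hc _ hU
  have h2 := h.eventually_ge_atTop (z.1 + 1)
  obtain ⟨s, hs1, hs2⟩ := (h1.and_eventually h2).exists
  have hs1' : (j s).1 < z.1 + 1 := hs1
  linarith

theorem dd_om_nonneg (s : ℝ) : 0 ≤ om s := by
  unfold om
  have := Real.cos_le_one (2 * Real.pi * s)
  linarith

theorem dd_om_five : om 5 = 0 := by
  unfold om
  have h : Real.cos (2 * Real.pi * 5) = 1 := by
    have := Real.cos_nat_mul_two_pi 5
    rw [← this]
    congr 1
    push_cast
    ring
  rw [h]; norm_num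

theorem dd_cl_zero {t : ℝ} (h : t ≤ 0) : cl t = 0 := by
  unfold cl
  rw [max_eq_left]
  exact (min_le_left _ _).trans h

theorem dd_cl_one {t : ℝ} (h : 1 ≤ t) : cl t = 1 := by
  unfold cl
  rw [min_eq_right h]; norm_num

theorem dd_cl_id {t : ℝ} (h0 : 0 ≤ t) (h : t ≤ 1) : cl t = t := by
  unfold cl
  rw [min_eq_left h, max_eq_right h0]

theorem dd_cl_nonneg (t : ℝ) : 0 ≤ cl t := le_max_left _ _

theorem dd_pp_mem {s : ℝ} (h0 : 0 ≤ s) (h4 : s ≤ 4) : pp s ∈ DD := by
  have e4 : cl (s - 4) = 0 := dd_cl_zero (by linarith)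
  have e5 : max (s - 5) 0 = 0 := max_eq_right (by linarith)
  have e6 : max s 5 = 5 := max_eq_right (by linarith)
  unfold pp DD
  rw [e4, e5, e6, dd_om_five, Set.mem_prod, mem_Icc, mem_Icc]
  simp only
  rcases le_total s 1 with h1 | h1
  · rw [dd_cl_id h0 h1, dd_cl_zero (t := s - 1) (by linarith), dd_cl_zero (t := s - 2) (by linarith),
      dd_cl_zero (t := s - 3) (by linarith)]
    refine ⟨⟨?_, ?_⟩, ?_, ?_⟩ <;> linarith
  · rcases le_total s 2 with h2 | h2
    · rw [dd_cl_one h1, dd_cl_id (t := s - 1) (by linarith) (by linarith),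
        dd_cl_zero (t := s - 2) (by linarith), dd_cl_zero (t := s - 3) (by linarith)]
      refine ⟨⟨?_, ?_⟩, ?_, ?_⟩ <;> linarith
    · rcases le_total s 3 with h3 | h3
      · rw [dd_cl_one h1, dd_cl_one (t := s - 1) (by linarith),
          dd_cl_id (t := s - 2) (by linarith) (by linarith), dd_cl_zero (t := s - 3) (by linarith)]
        refine ⟨⟨?_, ?_⟩, ?_, ?_⟩ <;> linarith
      · rw [dd_cl_one h1, dd_cl_one (t := s - 1) (by linarith),
          dd_cl_one (t := s - 2) (by linarith), dd_cl_id (t := s - 3) (by linarith) (by linarith)]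
        refine ⟨⟨?_, ?_⟩, ?_, ?_⟩ <;> linarith

theorem dd_pp_big {s : ℝ} (h4 : 4 < s) : 1 < (pp s).2 := by
  show 1 < 1 - cl s + cl (s - 2) + cl (s - 4) + om (max s 5)
  rw [dd_cl_one (t := s) (by linarith), dd_cl_one (t := s - 2) (by linarith)]
  have h1 := dd_om_nonneg (max s 5)
  have h2 : 0 < cl (s - 4) := by
    unfold cl
    refine lt_max_of_lt_right (lt_min (by linarith) (by norm_num))
  linarith

theorem dd_rr_neg (s : ℝ) : (rr s).2 < 0 := by
  show -1 - cl s - om (max s 1) < 0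
  have h1 := dd_om_nonneg (max s 1)
  have h2 := dd_cl_nonneg s
  linarith

theorem dd_qr_out {s : ℝ} (h0 : 0 ≤ s) : (qr s).2 < 0 ∨ 1 < (qr s).1 := by
  rcases lt_or_ge s 1 with h1 | h1
  · left
    show -1 + cl s + (1 + Real.cos (Real.pi * max s 1)) / 2 < 0
    rw [dd_cl_id h0 h1.le, max_eq_right h1.le, mul_one, Real.cos_pi]
    linarith
  · right
    show 1 < 2 * cl s - 1 + 1 / max s 1
    rw [dd_cl_one h1, max_eq_left h1]
    have : 0 < 1 / s := by positivity
    linarith

/-- The disk meets the rest in an arc. -/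
theorem dd_facts : DD ⊆ Reg ∧ DD ∩ NN = pp '' Icc 0 4 ∧ IsClosed NN ∧ NN ⊆ Reg := by
  obtain ⟨p1, p2, p3, p4, p5, p6⟩ := pp_facts
  obtain ⟨r1, r2, r3, r4, r5, r6⟩ := rr_facts
  obtain ⟨q1, q2, q3, q4, q5, q6, q7, q8, q9, q10, q11, q12⟩ := q_facts
  refine ⟨?_, ?_, ?_, ?_⟩
  · rintro z ⟨⟨h1, h2⟩, h3, h4⟩
    refine ⟨by linarith, ?_⟩
    rw [abs_of_nonneg h3]; linarith
  · ext z
    constructor
    · rintro ⟨⟨⟨h1, h2⟩, h3, h4⟩, hz⟩
      rcases hz with ⟨s, hs, rfl⟩ | ((⟨s, hs, rfl⟩ | ⟨s, hs, rfl⟩) | ⟨s, hs, rfl⟩)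
      · refine ⟨s, ⟨hs, ?_⟩, rfl⟩
        by_contra hc
        push Not at hc
        have := dd_pp_big hc
        linarith
      · have := dd_rr_neg s
        linarith
      · exfalso
        have e1 : (ql s).1 = -(qr s).1 := rfl
        have e2 : (ql s).2 = (qr s).2 := rfl
        rcases dd_qr_out hs with h | h
        · linarith
        · linarith
      · exfalso
        rcases dd_qr_out hs with h | h
        · linarith
        · linarith
    · rintro ⟨s, ⟨h0, h4⟩, rfl⟩
      exact ⟨dd_pp_mem h0 h4, Or.inl ⟨s, h0, rfl⟩⟩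
  · apply isClosed_of_closure_subset
    unfold NN
    rw [closure_union, closure_union, closure_union]
    rintro z (hz | ((hz | hz) | hz))
    · rcases dd_closure_ray p1 hz with h | h
      · exact Or.inl h
      · exact absurd h (dd_no_cluster p5 z)
    · rcases dd_closure_ray r1 hz with h | h
      · exact Or.inr (Or.inl (Or.inl h))
      · exact absurd h (dd_no_cluster r5 z)
    · rcases dd_closure_ray q2 hz with h | h
      · exact Or.inr (Or.inl (Or.inr h))
      · obtain ⟨s, hs, rfl⟩ := (q12 z).1 h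
        exact Or.inl ⟨s, by
          show (0:ℝ) ≤ s
          linarith [hs.1], rfl⟩
    · rcases dd_closure_ray q1 hz with h | h
      · exact Or.inr (Or.inr h)
      · obtain ⟨s, hs, rfl⟩ := (q11 z).1 h
        exact Or.inl ⟨s, hs.1, rfl⟩
  · rintro z (⟨s, hs, rfl⟩ | ((⟨s, hs, rfl⟩ | ⟨s, hs, rfl⟩) | ⟨s, hs, rfl⟩))
    · exact p3 s
    · exact r3 s
    · exact q6 s
    · exact q5 s

end Pool.Bing
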