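import Pool.Agent.Helper257.Bing.Defs

set_option autoImplicit false
open Set Filter Topology

namespace Pool.Bing


variable {K : Type*} [TopologicalSpace K]

/-! TARGET: prove this theorem (add helper lemmas before it if you like; keep the statement) -/


theorem df_cl_nonneg (t : ℝ) : 0 ≤ cl t := le_max_left _ _

theorem df_cl_le_one (t : ℝ) : cl t ≤ 1 := max_le zero_le_one (min_le_right _ _)

theorem df_cl_pos (t : ℝ) (h : 0 < t) : 0 < cl t := lt_max_of_lt_right (lt_min h one_pos)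

theorem df_cl_mono {s t : ℝ} (h : s ≤ t) : cl s ≤ cl t :=
  max_le_max le_rfl (min_le_min h le_rfl)

theorem df_cl_one (t : ℝ) (h : 1 ≤ t) : cl t = 1 := by
  unfold cl
  rw [min_eq_right h]
  exact max_eq_right zero_le_one

theorem df_cl_eq (t : ℝ) (h0 : 0 ≤ t) (h : t ≤ 1) : cl t = t := by
  unfold cl
  rw [min_eq_left h]
  exact max_eq_right h0

theorem df_cl_neg (t : ℝ) (h : t ≤ 0) : cl t = 0 := by
  unfold cl
  exact max_eq_left ((min_le_left _ _).trans h)

theorem df_om_nonneg (s : ℝ) : 0 ≤ om s := by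
  unfold om
  have := Real.cos_le_one (2 * Real.pi * s)
  linarith

theorem df_om_five : om 5 = 0 := by
  unfold om
  have h : Real.cos (2 * Real.pi * 5) = 1 := by
    have := Real.cos_nat_mul_two_pi 5
    rw [← this]
    congr 1
    push_cast
    ring
  rw [h]; norm_num

theorem df_pp_snd (t : ℝ) : 0 ≤ (pp t).2 := by
  have h1 := df_cl_le_one t
  have h2 := df_cl_nonneg (t - 2)
  have h3 := df_cl_nonneg (t - 4)
  have h4 := df_om_nonneg (max t 5)
  show 0 ≤ 1 - cl t + cl (t - 2) + cl (t - 4) + om (max t 5)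
  linarith

theorem df_pp_snd_gt (t : ℝ) (h : 4 < t) : 1 < (pp t).2 := by
  have h1 := df_cl_one t (by linarith)
  have h2 := df_cl_one (t - 2) (by linarith)
  have h3 := df_cl_pos (t - 4) (by linarith)
  have h4 := df_om_nonneg (max t 5)
  show 1 < 1 - cl t + cl (t - 2) + cl (t - 4) + om (max t 5)
  linarith

theorem df_pp_fst_le (t : ℝ) (h : t ≤ 4) : (pp t).1 ≤ 1 := by
  have h1 := df_cl_mono (show t - 3 ≤ t - 1 by linarith)
  have h2 := df_cl_nonneg (t - 1)
  have h3 := df_cl_neg (t - 4) (by linarith)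
  have h4 : max (t - 5) 0 = 0 := max_eq_right (by linarith)
  have h5 : max t 5 = 5 := max_eq_right (by linarith)
  show 1 - 2 * cl (t - 1) + cl (t - 3) + 4 * cl (t - 4) + max (t - 5) 0 + 7 * om (max t 5) ≤ 1
  rw [h3, h4, h5, df_om_five]
  linarith

theorem df_pp_fst_ge (t : ℝ) : -1 ≤ (pp t).1 := by
  have h1 := df_cl_le_one (t - 1)
  have h2 := df_cl_nonneg (t - 3)
  have h3 := df_cl_nonneg (t - 4)
  have h4 : 0 ≤ max (t - 5) 0 := le_max_right _ _
  have h5 := df_om_nonneg (max t 5)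
  show -1 ≤ 1 - 2 * cl (t - 1) + cl (t - 3) + 4 * cl (t - 4) + max (t - 5) 0 + 7 * om (max t 5)
  linarith

theorem df_rr_snd (s : ℝ) : (rr s).2 ≤ -1 - cl s := by
  have h4 := df_om_nonneg (max s 1)
  show -1 - cl s - om (max s 1) ≤ -1 - cl s
  linarith

theorem df_qr_snd_ge (s : ℝ) : -1 + cl s ≤ (qr s).2 := by
  have h := Real.neg_one_le_cos (Real.pi * max s 1)
  show -1 + cl s ≤ -1 + cl s + (1 + Real.cos (Real.pi * max s 1)) / 2
  linarith

theorem df_qr_snd_neg (s : ℝ) (h0 : 0 ≤ s) (h : s < 1) : (qr s).2 < 0 := by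
  have h1 := df_cl_eq s h0 h.le
  have h2 : max s 1 = 1 := max_eq_right h.le
  show -1 + cl s + (1 + Real.cos (Real.pi * max s 1)) / 2 < 0
  rw [h1, h2, mul_one, Real.cos_pi]
  linarith

theorem df_qr_snd_le (s : ℝ) : (qr s).2 ≤ 1 := by
  have h := Real.cos_le_one (Real.pi * max s 1)
  have h1 := df_cl_le_one s
  show -1 + cl s + (1 + Real.cos (Real.pi * max s 1)) / 2 ≤ 1
  linarith

theorem df_qr_fst_gt (s : ℝ) (h : 1 ≤ s) : 1 < (qr s).1 := by
  have h1 := df_cl_one s h
  have h2 : max s 1 = s := max_eq_left h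
  have h3 : 0 < 1 / s := by positivity
  show 1 < 2 * cl s - 1 + 1 / max s 1
  rw [h1, h2]
  linarith

theorem df_qr_fst_nonneg (s : ℝ) (h0 : 0 ≤ s) : 0 ≤ (qr s).1 ∧ ((qr s).1 = 0 → s = 0) := by
  rcases le_total 1 s with h | h
  · have := df_qr_fst_gt s h
    exact ⟨by linarith, fun h' => by linarith⟩
  · have h1 := df_cl_eq s h0 h
    have h2 : max s 1 = 1 := max_eq_right h
    have h3 : (qr s).1 = 2 * s := by
      show 2 * cl s - 1 + 1 / max s 1 = 2 * s
      rw [h1, h2]
      ring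
    rw [h3]
    exact ⟨by linarith, fun h' => by linarith⟩

theorem df_cl_zero (s : ℝ) (h0 : 0 ≤ s) (h : cl s ≤ 0) : s = 0 := by
  rcases h0.lt_or_eq with h1 | h1
  · have := df_cl_pos s h1
    linarith
  · exact h1.symm

/-- Disjointness of the planar rays. -/
theorem disj_facts : (∀ s t, 0 ≤ s → 0 ≤ t → rr s ≠ pp t) ∧ (∀ s t, 0 ≤ s → 0 ≤ t → ql s ≠ pp t) ∧
    (∀ s t, 0 ≤ s → 0 ≤ t → qr s ≠ pp t) ∧ (∀ s t, 0 ≤ s → 0 ≤ t → rr s = ql t → s = 0 ∧ t = 0) ∧
    (∀ s t, 0 ≤ s → 0 ≤ t → rr s = qr t → s = 0 ∧ t = 0) ∧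
    (∀ s t, 0 ≤ s → 0 ≤ t → ql s = qr t → s = 0 ∧ t = 0) := by
  refine ⟨?_, ?_, ?_, ?_, ?_, ?_⟩
  · intro s t hs ht h
    have h1 := congrArg Prod.snd h
    have h2 := df_rr_snd s
    have h3 := df_pp_snd t
    have h4 := df_cl_nonneg s
    linarith
  · intro s t hs ht h
    have h1 : (ql s).2 = (pp t).2 := congrArg Prod.snd h
    have h2 : (ql s).1 = (pp t).1 := congrArg Prod.fst h
    change (qr s).2 = (pp t).2 at h1
    change -(qr s).1 = (pp t).1 at h2
    have h3 := df_pp_snd t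
    rcases lt_or_ge s 1 with h4 | h4
    · have := df_qr_snd_neg s hs h4
      linarith
    · have h5 := df_qr_fst_gt s h4
      have h6 := df_pp_fst_ge t
      linarith
  · intro s t hs ht h
    have h1 : (qr s).2 = (pp t).2 := congrArg Prod.snd h
    have h2 : (qr s).1 = (pp t).1 := congrArg Prod.fst h
    have h3 := df_pp_snd t
    rcases lt_or_ge s 1 with h4 | h4
    · have := df_qr_snd_neg s hs h4
      linarith
    · have h5 := df_qr_fst_gt s h4
      rcases le_or_gt t 4 with h6 | h6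
      · have := df_pp_fst_le t h6
        linarith
      · have h7 := df_pp_snd_gt t h6
        have h8 := df_qr_snd_le s
        linarith
  · intro s t hs ht h
    have h1 : (rr s).2 = (ql t).2 := congrArg Prod.snd h
    change (rr s).2 = (qr t).2 at h1
    have h2 := df_rr_snd s
    have h3 := df_qr_snd_ge t
    have h4 := df_cl_nonneg s
    have h5 := df_cl_nonneg t
    exact ⟨df_cl_zero s hs (by linarith), df_cl_zero t ht (by linarith)⟩
  · intro s t hs ht h
    have h1 : (rr s).2 = (qr t).2 := congrArg Prod.snd h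
    have h2 := df_rr_snd s
    have h3 := df_qr_snd_ge t
    have h4 := df_cl_nonneg s
    have h5 := df_cl_nonneg t
    exact ⟨df_cl_zero s hs (by linarith), df_cl_zero t ht (by linarith)⟩
  · intro s t hs ht h
    have h1 : -(qr s).1 = (qr t).1 := congrArg Prod.fst h
    obtain ⟨h2, h3⟩ := df_qr_fst_nonneg s hs
    obtain ⟨h4, h5⟩ := df_qr_fst_nonneg t ht
    exact ⟨h3 (by linarith), h5 (by linarith)⟩

end Pool.Bing
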