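import Pool.Agent.Helper257.Bing.Defs
import Pool.Agent.Helper257.Bing.P_kap_facts
import Pool.Agent.Helper257.Bing.P_eta_facts
import Pool.Agent.Helper257.Bing.P_E_inj
import Pool.Agent.Helper257.Bing.P_E_core

set_option autoImplicit false
open Set Filter Topology

namespace Pool.Bing


variable {K : Type*} [TopologicalSpace K]


/-! TARGET: prove this theorem (add helper lemmas before it if you like; keep the statement) -/


/-- `ee` is continuous and injective on the region and misses the core. -/
theorem ee_facts : ContinuousOn ee Reg ∧ InjOn ee Reg ∧ (∀ z ∈ Reg, ee z ∉ Core) ∧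
    (∀ z ∈ Reg, ‖ee z‖ ≤ 3) := by
  obtain ⟨hkc, hkm, -, hk1, -, -, -⟩ := kap_facts
  obtain ⟨hec, heb, -, -, -⟩ := eta_facts
  have hlow : ∀ z ∈ Reg, -3 ≤ kap z.1 := by
    intro z hz
    have h1 := hkm.monotone hz.1
    rwa [hk1 (-3) (by norm_num)] at h1
  have hden : ∀ z ∈ Reg, 17 / 4 ≤ 8 + kap z.1 + z.2 / 4 := by
    intro z hz
    have h1 := hlow z hz
    have h2 := (abs_le.1 hz.2).1
    linarith
  refine ⟨?_, ?_, ?_, ?_⟩
  · unfold ee E
    apply ContinuousOn.mul
    · apply Complex.continuous_ofReal.comp_continuousOn
      apply ContinuousOn.add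
      · exact (continuous_const.add (hec.comp (hkc.comp continuous_fst))).continuousOn
      · apply ContinuousOn.div continuousOn_const
        · exact ((continuous_const.add (hkc.comp continuous_fst)).add
            (continuous_snd.div_const 4)).continuousOn
        · intro z hz
          have := hden z hz
          intro h0
          linarith
    · apply Continuous.continuousOn
      apply Complex.continuous_exp.comp
      apply Continuous.mul _ continuous_const
      apply Complex.continuous_ofReal.comp
      exact continuous_const.mul (hkc.comp continuous_fst)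
  · intro z hz z' hz' h
    have := E_inj (kap z.1) z.2 (kap z'.1) z'.2 (hlow z hz) (hlow z' hz') hz.2 hz'.2 h
    exact Prod.ext (hkm.injective this.1) this.2
  · intro z hz
    exact E_core (kap z.1) z.2 (hlow z hz) hz.2
  · intro z hz
    unfold ee E
    rw [norm_mul, Complex.norm_exp_ofReal_mul_I, mul_one, Complex.norm_real, Real.norm_eq_abs]
    have h1 := hden z hz
    have h2 := heb (kap z.1)
    have h3 : 1 / (8 + kap z.1 + z.2 / 4) ≤ 1 := by
      rw [div_le_one (by linarith)]
      linarith
    have h4 : 0 ≤ 1 / (8 + kap z.1 + z.2 / 4) := by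
      apply div_nonneg zero_le_one
      linarith
    rw [abs_of_nonneg (by linarith [h2.1])]
    linarith [h2.2]

end Pool.Bing
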