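import Pool.Agent.Helper257.Bing.Defs
import Pool.Agent.Helper257.Bing.P_core_compact
import Pool.Agent.Helper257.Bing.P_ee_facts
import Pool.Agent.Helper257.Bing.P_lim_core

set_option autoImplicit false
open Set Filter Topology

namespace Pool.Bing


variable {K : Type*} [TopologicalSpace K]


/-! TARGET: prove this theorem (add helper lemmas before it if you like; keep the statement) -/


/-- A closed subset of the region together with the core gives a compact set. -/
theorem ee_compact (M : Set (ℝ × ℝ)) (hM : IsClosed M) (hR : M ⊆ Reg) :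
    IsCompact (ee '' M ∪ Core) := by
  obtain ⟨hcont, _, _, hnorm⟩ := ee_facts
  rw [isCompact_iff_ultrafilter_le_nhds]
  intro U hU
  have hU' : (ee '' M ∪ Core) ∈ U := by simpa using hU
  rcases Ultrafilter.union_mem_iff.1 hU' with h | h
  · set V : Ultrafilter (ℝ × ℝ) := Ultrafilter.ofComapInfPrincipal h with hV
    have hMV : M ∈ V := Ultrafilter.ofComapInfPrincipal_mem h
    have hmap : V.map ee = U := Ultrafilter.ofComapInfPrincipal_eq_of_map h
    have hmap' : Filter.map ee (V : Filter (ℝ × ℝ)) = (U : Filter ℂ) := by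
      rw [← hmap]; rfl
    have hRV : Reg ∈ V := V.sets_of_superset hMV hR
    by_cases hB : ∃ B : ℝ, {z : ℝ × ℝ | z.1 ≤ B} ∈ V
    · obtain ⟨B, hB⟩ := hB
      have hQ : IsCompact (Icc (-3 : ℝ) B ×ˢ Icc (-3 : ℝ) 3) := isCompact_Icc.prod isCompact_Icc
      have hQV : (Icc (-3 : ℝ) B ×ˢ Icc (-3 : ℝ) 3) ∈ V := by
        have h1 : Reg ∩ {z : ℝ × ℝ | z.1 ≤ B} ∈ V := Filter.inter_mem hRV hB
        refine V.sets_of_superset h1 ?_
        rintro z ⟨hz1, hz2⟩
        exact ⟨⟨hz1.1, hz2⟩, abs_le.1 hz1.2⟩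
      obtain ⟨z, _, hVz⟩ := isCompact_iff_ultrafilter_le_nhds.1 hQ V (by simpa using hQV)
      have hzM : z ∈ M := by
        rw [← hM.closure_eq]
        exact mem_closure_iff_ultrafilter.2 ⟨V, hMV, hVz⟩
      refine ⟨ee z, Or.inl ⟨z, hzM, rfl⟩, ?_⟩
      rw [← hmap']
      have h1 : (V : Filter (ℝ × ℝ)) ≤ 𝓝[Reg] z := le_inf hVz (by simpa using hRV)
      exact (Filter.map_mono h1).trans (hcont z (hR hzM))
    · push Not at hB
      have htop : Tendsto (fun z : ℝ × ℝ => z.1) V atTop := by
        rw [tendsto_atTop]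
        intro B
        have := Ultrafilter.compl_mem_iff_notMem.2 (hB B)
        filter_upwards [this] with z hz
        have hz' : ¬ (z.1 ≤ B) := hz
        exact (not_le.1 hz').le
      have hbU : Metric.closedBall (0 : ℂ) 3 ∈ U := by
        rw [← hmap]
        show ee ⁻¹' (Metric.closedBall (0 : ℂ) 3) ∈ V
        refine V.sets_of_superset hRV ?_
        intro z hz
        rw [Set.mem_preimage, mem_closedBall_zero_iff]
        exact hnorm z hz
      obtain ⟨y, _, hUy⟩ := isCompact_iff_ultrafilter_le_nhds.1 (isCompact_closedBall (0 : ℂ) 3) U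
        (by simpa using hbU)
      refine ⟨y, Or.inr ?_, hUy⟩
      apply lim_core (V : Filter (ℝ × ℝ)) (fun z => z) hRV htop y
      show Filter.map ee (V : Filter (ℝ × ℝ)) ≤ 𝓝 y
      rw [hmap']
      exact hUy
  · obtain ⟨y, hy, hUy⟩ := isCompact_iff_ultrafilter_le_nhds.1 core_compact U (by simpa using h)
    exact ⟨y, Or.inr hy, hUy⟩

end Pool.Bing
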