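import Pool.Agent.Helper257.Bing.Defs
import Pool.Agent.Helper257.Bing.P_ee_facts
import Pool.Agent.Helper257.Bing.P_lim_core

set_option autoImplicit false
open Set Filter Topology

namespace Pool.Bing


variable {K : Type*} [TopologicalSpace K]


/-! TARGET: prove this theorem (add helper lemmas before it if you like; keep the statement) -/


/-- `ee` is a homeomorphism of the region onto its image. -/
theorem ee_inducing : IsEmbedding (fun z : ↥Reg => ee (z : ℝ × ℝ)) := by
  obtain ⟨hcont, hinj, hcore, -⟩ := ee_facts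
  have hc : Continuous (fun z : ↥Reg => ee (z : ℝ × ℝ)) := continuousOn_iff_continuous_restrict.1 hcont
  have hi : Function.Injective (fun z : ↥Reg => ee (z : ℝ × ℝ)) := by
    intro a b hab
    exact Subtype.ext (hinj a.2 b.2 hab)
  refine ⟨isInducing_iff_nhds.2 fun z0 => le_antisymm ?_ ?_, hi⟩
  · exact map_le_iff_le_comap.1 hc.continuousAt
  · rw [le_iff_ultrafilter]
    intro U hU
    have hU' : Tendsto (fun z : ↥Reg => ee (z : ℝ × ℝ)) U (𝓝 (ee (z0 : ℝ × ℝ))) :=
      map_le_iff_le_comap.2 hU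
    by_cases hM : ∃ M : ℝ, ∀ᶠ z : ↥Reg in (U : Filter ↥Reg), (z : ℝ × ℝ).1 ≤ M
    · obtain ⟨M, hM⟩ := hM
      have hcomp : IsCompact {z : ↥Reg | (z : ℝ × ℝ).1 ≤ M} := by
        rw [Subtype.isCompact_iff]
        have : (Subtype.val '' {z : ↥Reg | (z : ℝ × ℝ).1 ≤ M}) = Icc (-3) M ×ˢ Icc (-3) 3 := by
          ext ⟨x, y⟩
          simp only [mem_image, mem_setOf_eq, Subtype.exists, exists_and_left, exists_prop,
            mem_prod, mem_Icc, Reg, abs_le]
          constructor
          · rintro ⟨a, h1, ⟨h2, h3⟩, rfl⟩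
            exact ⟨⟨h2, h1⟩, h3⟩
          · rintro ⟨⟨h2, h1⟩, h3⟩
            exact ⟨(x, y), h1, ⟨h2, h3⟩, rfl⟩
        rw [this]
        exact isCompact_Icc.prod isCompact_Icc
      obtain ⟨z1, -, hz1⟩ := isCompact_iff_ultrafilter_le_nhds.1 hcomp U (le_principal_iff.2 hM)
      have h1 : Tendsto (fun z : ↥Reg => ee (z : ℝ × ℝ)) U (𝓝 (ee (z1 : ℝ × ℝ))) :=
        (hc.tendsto z1).mono_left hz1
      have h2 : z0 = z1 := hi (tendsto_nhds_unique hU' h1)
      rw [h2]; exact hz1
    · exfalso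
      push Not at hM
      have hT : Tendsto (fun z : ↥Reg => (z : ℝ × ℝ).1) (U : Filter ↥Reg) atTop := by
        rw [tendsto_atTop]
        intro M
        have h := hM M
        exact h.mono fun z hz => hz.le
      exact hcore z0 z0.2 (lim_core (U : Filter ↥Reg) (fun z : ↥Reg => (z : ℝ × ℝ))
        (Eventually.of_forall fun z => z.2) hT _ hU')

end Pool.Bing
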