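import Pool.Agent.Helper257.Bing.Defs

set_option autoImplicit false
open Set Filter Topology

namespace Pool.Bing


variable {K : Type*} [TopologicalSpace K]

/-! TARGET: prove this theorem (add helper lemmas before it if you like; keep the statement) -/


theorem j11667_W_zero : W 0 = 1 := by
  simp [W]

theorem j11667_W_add (t : ℝ) : W (t + 1) = W t := by
  unfold W
  have : 2 * Real.pi * (t + 1) = 2 * Real.pi * t + 2 * Real.pi := by ring
  rw [this, Real.cos_add_two_pi]

theorem j11667_W_neg (n : ℕ) : W (-(n : ℝ)) = 1 := by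
  unfold W
  have : 2 * Real.pi * -(n : ℝ) = -((n : ℝ) * (2 * Real.pi)) := by ring
  rw [this, Real.cos_neg, Real.cos_nat_mul_two_pi]
  norm_num

theorem j11667_Hn_zero (n : ℕ) : Hn n 0 = 1 := by
  unfold Hn
  rw [zero_div, max_eq_left (Real.exp_pos _).le, Real.log_exp]
  exact j11667_W_neg n

theorem j11667_exp_max (x y : ℝ) : Real.exp (max x y) = max (Real.exp x) (Real.exp y) :=
  Real.exp_monotone.map_max

theorem j11667_exp_min (x y : ℝ) : Real.exp (min x y) = min (Real.exp x) (Real.exp y) :=
  Real.exp_monotone.map_min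

theorem j11667_Hn (n : ℕ) {a L : ℝ} (h0 : 0 < a) (h1 : a < 1) (hL : a = Real.exp L * (1 - a)) :
    Hn n a = W (max (-(n : ℝ)) (min L 0)) := by
  unfold Hn
  have h2 : 0 < 1 - a := by linarith
  have key : a / max a (1 - a) = Real.exp (min L 0) := by
    rw [j11667_exp_min, Real.exp_zero]
    rcases le_total a (1 - a) with h | h
    · rw [max_eq_right h]
      have h3 : Real.exp L ≤ 1 := by
        by_contra hlt
        have hlt := not_le.1 hlt
        nlinarith
      rw [min_eq_left h3, div_eq_iff h2.ne']
      exact hL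
    · rw [max_eq_left h, div_self h0.ne']
      have h3 : 1 ≤ Real.exp L := by
        by_contra hlt
        have hlt := not_le.1 hlt
        nlinarith
      rw [min_eq_right h3]
  rw [key, ← j11667_exp_max, Real.log_exp]

/-- The height changes under the shift by a continuous function of the angle. -/
theorem eta_shift : ∀ u, 0 ≤ u → eta (Ush u) = eta u + del u := by
  intro u hu
  obtain ⟨n, hn⟩ : ∃ n : ℕ, ⌊u⌋₊ = n := ⟨_, rfl⟩
  have hnz : ⌊u⌋ = (n : ℤ) := by
    rw [← hn]; exact (Int.natCast_floor_eq_floor hu).symm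
  obtain ⟨a, ha⟩ : ∃ a : ℝ, Int.fract u = a := ⟨_, rfl⟩
  have hau : u - n = a := by
    rw [← ha]
    unfold Int.fract
    rw [hnz]; push_cast; rfl
  have ha0 : 0 ≤ a := by rw [← ha]; exact Int.fract_nonneg u
  have ha1 : a < 1 := by rw [← ha]; exact Int.fract_lt_one u
  have h1a : 0 < 1 - a := by linarith
  have hden : 0 < a + Real.exp 1 * (1 - a) := by positivity
  have hA : Asec 1 a = a / (a + Real.exp 1 * (1 - a)) := by
    unfold Asec; rw [Nat.cast_one]
  have hA0 : 0 ≤ Asec 1 a := by rw [hA]; positivity
  have hA1 : Asec 1 a < 1 := by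
    rw [hA, div_lt_one hden]
    have : 0 < Real.exp 1 * (1 - a) := by positivity
    linarith
  have hU : Ush u = ((n + 1 : ℕ) : ℝ) + Asec 1 a := by
    unfold Ush
    rw [hnz, ha]; push_cast; ring
  have hfl : ⌊Ush u⌋₊ = n + 1 := by
    rw [hU, Nat.floor_eq_iff (by positivity)]
    constructor
    · linarith
    · linarith
  have e1 : eta (Ush u) = Hn (n + 1) (Asec 1 a) := by
    unfold eta
    rw [hfl]
    congr 1
    rw [hU]; ring
  have e2 : eta u = Hn n a := by
    unfold eta
    rw [hn, hau]
  have e3 : del u = W (Real.log (max 1 (a / max (1 - a) (a / Real.exp 1)))) - 1 := by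
    unfold del
    rw [ha]
  rw [e1, e2, e3]
  rcases ha0.eq_or_lt with h | h
  · rw [← h]
    have : Asec 1 0 = 0 := by unfold Asec; rw [zero_div]
    rw [this, j11667_Hn_zero, j11667_Hn_zero, zero_div, max_eq_left zero_le_one,
      Real.log_one, j11667_W_zero]
    norm_num
  · set L : ℝ := Real.log (a / (1 - a)) with hLdef
    have hexp : Real.exp L = a / (1 - a) := Real.exp_log (by positivity)
    have hL : a = Real.exp L * (1 - a) := by
      rw [hexp, div_mul_cancel₀ _ h1a.ne']
    have hA0' : 0 < Asec 1 a := by rw [hA]; positivity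
    have hL' : Asec 1 a = Real.exp (L - 1) * (1 - Asec 1 a) := by
      rw [Real.exp_sub, hexp, hA]
      have he : Real.exp 1 ≠ 0 := (Real.exp_pos 1).ne'
      field_simp
      ring
    rw [j11667_Hn (n + 1) hA0' hA1 hL', j11667_Hn n h ha1 hL]
    have key : a / max (1 - a) (a / Real.exp 1) = Real.exp (min L 1) := by
      rw [j11667_exp_min, hexp]
      rcases le_total (a / (1 - a)) (Real.exp 1) with h2 | h2
      · rw [min_eq_left h2]
        have h3 : a / Real.exp 1 ≤ 1 - a := by
          rw [div_le_iff₀ (Real.exp_pos 1)]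
          rw [div_le_iff₀ h1a] at h2
          linarith
        rw [max_eq_left h3]
      · rw [min_eq_right h2]
        have h3 : 1 - a ≤ a / Real.exp 1 := by
          rw [le_div_iff₀ (Real.exp_pos 1)]
          rw [le_div_iff₀ h1a] at h2
          linarith
        rw [max_eq_right h3]
        field_simp
    rw [key]
    have key2 : max 1 (Real.exp (min L 1)) = Real.exp (max 0 (min L 1)) := by
      rw [j11667_exp_max, Real.exp_zero]
    rw [key2, Real.log_exp]
    have key3 : W (max (-((n + 1 : ℕ) : ℝ)) (min (L - 1) 0)) = W (max (-(n : ℝ)) (min L 1)) := by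
      rw [← j11667_W_add]
      congr 1
      rw [← max_add_add_right, ← min_add_add_right]
      congr 1
      · push_cast; ring
      · congr 1 <;> ring
    rw [key3]
    have hn0 : (0 : ℝ) ≤ n := Nat.cast_nonneg n
    rcases le_total L 0 with h2 | h2
    · rw [min_eq_left (h2.trans zero_le_one), min_eq_left h2, max_eq_left h2, j11667_W_zero]
      ring
    · have h3 : 0 ≤ min L 1 := le_min h2 zero_le_one
      rw [min_eq_right h2, max_eq_right (by linarith : -(n : ℝ) ≤ 0), j11667_W_zero,
        max_eq_right h3, max_eq_right (by linarith : -(n : ℝ) ≤ min L 1)]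
      ring

end Pool.Bing
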