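import Pool.Agent.Helper257.Bing.Defs
import Pool.Agent.Helper257.Bing.P_w_facts
import Pool.Agent.Helper257.Bing.P_core_compact
import Pool.Agent.Helper257.Bing.P_ee_facts
import Pool.Agent.Helper257.Bing.P_curve_cluster
import Pool.Agent.Helper257.Bing.P_pp_facts
import Pool.Agent.Helper257.Bing.P_rr_facts
import Pool.Agent.Helper257.Bing.P_q_facts

set_option autoImplicit false
open Set Filter Topology

namespace Pool.Bing


variable {K : Type*} [TopologicalSpace K]


/-! TARGET: prove this theorem (add helper lemmas before it if you like; keep the statement) -/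


theorem fc_clus (c : ℝ → ℝ × ℝ) (hc : Continuous c) (hR : ∀ s, c s ∈ Reg)
    (ht : Tendsto (fun s => (c s).1) atTop atTop) (A : Set (ℝ × ℝ)) (hA : rng c ⊆ A) :
    Core ⊆ closure (ee '' A) := by
  intro z hz
  have h1 : MapClusterPt z atTop (fun s => ee (c s)) := (curve_cluster c hc hR ht z).2 hz
  rw [mem_closure_iff_clusterPt]
  refine ClusterPt.mono h1 ?_
  rw [le_principal_iff]
  have h2 : ∀ᶠ s : ℝ in atTop, ee (c s) ∈ ee '' A := by
    filter_upwards [eventually_ge_atTop (0 : ℝ)] with s hs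
    exact ⟨c s, hA ⟨s, hs, rfl⟩, rfl⟩
  exact h2

theorem fc_core_ne : Core.Nonempty := ⟨w 0 0, Or.inl ⟨0, self_mem_Ici, rfl⟩⟩

theorem fc_rng {c : ℝ → ℝ × ℝ} (hc : Continuous c) : IsConnected (rng c) :=
  isConnected_Ici.image c hc.continuousOn

/-- The continuum `K` is connected. -/
theorem final_conn : IsConnected (ee '' NN ∪ Core) := by
  obtain ⟨hee, -, -, -⟩ := ee_facts
  obtain ⟨hp1, -, hp3, -, hp5, -⟩ := pp_facts
  obtain ⟨hr1, -, hr3, -, hr5, -⟩ := rr_facts
  obtain ⟨hqr, hql, -, -, hqr3, hql3, -, -, hqr0, hql0, -, -⟩ := q_facts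
  have hsub : ∀ c : ℝ → ℝ × ℝ, (∀ s, c s ∈ Reg) → rng c ⊆ Reg := by
    rintro c hc _ ⟨s, -, rfl⟩
    exact hc s
  have hA1 : IsConnected (ee '' rng pp) := (fc_rng hp1).image _ (hee.mono (hsub pp hp3))
  have h1 : IsConnected (ee '' rng pp ∪ Core) := by
    refine hA1.subset_closure subset_union_left (union_subset subset_closure ?_)
    exact fc_clus pp hp1 hp3 hp5 _ subset_rfl
  have hB : IsConnected (rng rr ∪ rng ql ∪ rng qr) := by
    refine IsConnected.union ?_ (IsConnected.union ?_ (fc_rng hr1) (fc_rng hql)) (fc_rng hqr)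
    · exact ⟨rr 0, Or.inl ⟨0, self_mem_Ici, rfl⟩, ⟨0, self_mem_Ici, hqr0⟩⟩
    · exact ⟨rr 0, ⟨0, self_mem_Ici, rfl⟩, ⟨0, self_mem_Ici, hql0⟩⟩
  have hA2 : IsConnected (ee '' (rng rr ∪ rng ql ∪ rng qr)) := by
    refine hB.image _ (hee.mono ?_)
    exact union_subset (union_subset (hsub rr hr3) (hsub ql hql3)) (hsub qr hqr3)
  have h2 : IsConnected (ee '' (rng rr ∪ rng ql ∪ rng qr) ∪ Core) := by
    refine hA2.subset_closure subset_union_left (union_subset subset_closure ?_)
    exact fc_clus rr hr1 hr3 hr5 _ (subset_union_left.trans subset_union_left)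
  have h3 : ee '' NN ∪ Core =
      (ee '' rng pp ∪ Core) ∪ (ee '' (rng rr ∪ rng ql ∪ rng qr) ∪ Core) := by
    unfold NN
    rw [image_union]
    ext z
    simp only [mem_union]
    tauto
  rw [h3]
  refine IsConnected.union ?_ h1 h2
  obtain ⟨z, hz⟩ := fc_core_ne
  exact ⟨z, Or.inr hz, Or.inr hz⟩

end Pool.Bing
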