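import Pool.Agent.Helper257.Bing.Defs

set_option autoImplicit false
open Set Filter Topology

namespace Pool.Bing


variable {K : Type*} [TopologicalSpace K]

/-! TARGET: prove this theorem (add helper lemmas before it if you like; keep the statement) -/


theorem om_int (n : ℤ) : om n = 0 := by
  unfold om
  have : (2 * Real.pi * (n : ℝ)) = (n : ℝ) * (2 * Real.pi) := by ring
  rw [this, Real.cos_int_mul_two_pi]
  norm_num

theorem om_half (n : ℤ) : om ((n : ℝ) + 1 / 2) = 1 := by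
  unfold om
  have : (2 * Real.pi * ((n : ℝ) + 1 / 2)) = (n : ℝ) * (2 * Real.pi) + Real.pi := by ring
  rw [this, Real.cos_int_mul_two_pi_add_pi]
  norm_num

theorem om_nonneg (s : ℝ) : 0 ≤ om s := by
  unfold om
  have := Real.cos_le_one (2 * Real.pi * s)
  linarith

theorem om_le_one (s : ℝ) : om s ≤ 1 := by
  unfold om
  have := Real.neg_one_le_cos (2 * Real.pi * s)
  linarith

theorem om_mono (n : ℤ) (a b : ℝ) (ha : (n : ℝ) ≤ a) (hab : a ≤ b) (hb : b ≤ (n : ℝ) + 1 / 2) :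
    om a ≤ om b := by
  unfold om
  have e : ∀ s : ℝ, Real.cos (2 * Real.pi * s) = Real.cos (2 * Real.pi * (s - n)) := by
    intro s
    have : 2 * Real.pi * (s - n) = 2 * Real.pi * s - (n : ℝ) * (2 * Real.pi) := by ring
    rw [this, Real.cos_sub_int_mul_two_pi]
  rw [e a, e b]
  have hp := Real.pi_pos
  have h1 : Real.cos (2 * Real.pi * (b - n)) ≤ Real.cos (2 * Real.pi * (a - n)) := by
    apply Real.cos_le_cos_of_nonneg_of_le_pi
    · apply mul_nonneg (by positivity) (by linarith)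
    · nlinarith
    · apply mul_le_mul_of_nonneg_left (by linarith) (by positivity)
  linarith

theorem ivt_aux (φ : ℝ → ℝ) (hφ : Continuous φ) (a b y : ℝ) (hab : a ≤ b) (h1 : φ a ≤ y)
    (h2 : y ≤ φ b) : ∃ s, a ≤ s ∧ s ≤ b ∧ φ s = y := by
  obtain ⟨s, hs, e⟩ := intermediate_value_Icc hab hφ.continuousOn ⟨h1, h2⟩
  exact ⟨s, hs.1, hs.2, e⟩

/-- The two zigzags are incomparable. -/
theorem no_shift (m1 m2 c : ℝ) (h : (m1 = 7 ∧ m2 = 15) ∨ (m1 = 15 ∧ m2 = 7)) (φ : ℝ → ℝ)
    (hφ : Continuous φ) (ht : Tendsto φ atTop atTop) (N : ℝ)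
    (hN : ∀ s, N ≤ s → |φ s + m2 * om (φ s) - (s + m1 * om s) - c| ≤ 3) : False := by
  rcases h with ⟨rfl, rfl⟩ | ⟨rfl, rfl⟩
  · obtain ⟨n, hn⟩ := exists_int_gt (φ N)
    obtain ⟨t, ht1, ht2⟩ := (((tendsto_atTop.1 ht) ((n : ℝ) + 1)).and (eventually_ge_atTop N)).exists
    obtain ⟨s2, a2, b2, e2⟩ := ivt_aux φ hφ N t ((n : ℝ) + 1) ht2 (by linarith) ht1
    obtain ⟨s1, a1, b1, e1⟩ := ivt_aux φ hφ N s2 ((n : ℝ) + 1 / 2) a2 (by linarith)
      (by rw [e2]; linarith)
    have k1 := hN s1 a1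
    have k2 := hN s2 a2
    have o1 : om (φ s1) = 1 := by rw [e1]; exact om_half n
    have o2 : om (φ s2) = 0 := by
      rw [e2]
      have := om_int (n + 1)
      push_cast at this
      exact this
    rw [o1, e1] at k1
    rw [o2, e2] at k2
    have k1' := (abs_le.1 k1).2
    have k2' := (abs_le.1 k2).1
    have := om_le_one s1
    have := om_nonneg s2
    linarith
  · obtain ⟨n, hn⟩ := exists_int_gt N
    have k0 := hN n hn.le
    have k1 := hN ((n : ℝ) + 1 / 2) (by linarith)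
    rw [om_int] at k0
    rw [om_half] at k1
    have k0' := abs_le.1 k0
    have k1' := abs_le.1 k1
    have p1 := om_le_one (φ ((n : ℝ) + 1 / 2))
    have p0 := om_nonneg (φ n)
    have hx : φ n + 5 / 2 ≤ φ ((n : ℝ) + 1 / 2) := by
      linarith [k0'.1, k0'.2, k1'.1, k1'.2]
    have c1 := Int.le_ceil (φ n)
    have c2 := Int.ceil_lt_add_one (φ n)
    obtain ⟨s2, a2, b2, e2⟩ := ivt_aux φ hφ n ((n : ℝ) + 1 / 2) ((⌈φ n⌉ : ℝ) + 1) (by linarith)
      (by linarith) (by linarith)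
    obtain ⟨s1, a1, b1, e1⟩ := ivt_aux φ hφ n s2 ((⌈φ n⌉ : ℝ) + 1 / 2) a2 (by linarith)
      (by rw [e2]; linarith)
    have q1 := hN s1 (by linarith)
    have q2 := hN s2 (by linarith)
    have o1 : om (φ s1) = 1 := by rw [e1]; exact om_half _
    have o2 : om (φ s2) = 0 := by
      rw [e2]
      have := om_int (⌈φ n⌉ + 1)
      push_cast at this
      exact this
    rw [o1, e1] at q1
    rw [o2, e2] at q2
    have q1' := (abs_le.1 q1).2
    have q2' := (abs_le.1 q2).1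
    have := om_mono n s1 s2 a1 b1 b2
    linarith

end Pool.Bing
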