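import Pool.Agent.Helper257.Bing.Defs

set_option autoImplicit false
open Set Filter Topology

namespace Pool.Bing


variable {K : Type*} [TopologicalSpace K]

/-! TARGET: prove this theorem (add helper lemmas before it if you like; keep the statement) -/


/-- A tail of a ray together with its cluster set is closed. -/
theorem ray_closed [T2Space K] [CompactSpace K] {j : ℝ → K} {L : Set K} (hj : IsRay j L) {N : ℝ}
    (hN : 0 ≤ N) : IsClosed (j '' Ici N ∪ L) := by
  have hL : IsClosed L := by
    have e : L = {z | ClusterPt z (Filter.map j Filter.atTop)} := by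
      ext z
      exact (hj.clus z).symm
    rw [e]
    exact isClosed_setOf_clusterPt
  have key : closure (j '' Ici N) ⊆ j '' Ici N ∪ L := by
    intro z hz
    by_cases hzA : z ∈ j '' Ici N
    · exact Or.inl hzA
    right
    rw [← hj.clus z, mapClusterPt_iff_frequently]
    intro U hU
    rw [Filter.frequently_atTop]
    intro M
    have hsplit : j '' Ici N ⊆ j '' Icc N (max M N) ∪ j '' Ici (max M N) := by
      rintro _ ⟨s, hs, rfl⟩
      rcases le_total s (max M N) with h | h
      · exact Or.inl ⟨s, ⟨hs, h⟩, rfl⟩
      · exact Or.inr ⟨s, h, rfl⟩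
    have h1 := closure_mono hsplit hz
    rw [closure_union] at h1
    have hc : IsClosed (j '' Icc N (max M N)) :=
      (isCompact_Icc.image hj.cont).isClosed
    rw [hc.closure_eq] at h1
    rcases h1 with h1 | h1
    · exact absurd (by
        obtain ⟨s, hs, e⟩ := h1
        exact ⟨s, hs.1, e⟩) hzA
    · obtain ⟨y, hyU, s, hs, rfl⟩ := mem_closure_iff_nhds.1 h1 U hU
      exact ⟨s, le_trans (le_max_left _ _) hs, hyU⟩
  refine isClosed_of_closure_subset ?_
  rw [closure_union, hL.closure_eq]
  exact union_subset key subset_union_right

end Pool.Bing
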