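import Pool.Agent.Helper257.Bing.Defs

set_option autoImplicit false
open Set Filter Topology

namespace Pool.Bing


variable {K : Type*} [TopologicalSpace K]

/-! TARGET: prove this theorem (add helper lemmas before it if you like; keep the statement) -/


/-- Lifting maps into a ray to the parameter. -/
theorem ray_lift [T2Space K] {j : ℝ → K} {L : Set K} (hj : IsRay j L) {X : Type*}
    [TopologicalSpace X] (γ : X → K) (hγ : Continuous γ) (hr : ∀ x, γ x ∈ rng j) :
    ∃ g : X → ℝ, Continuous g ∧ (∀ x, 0 ≤ g x) ∧ ∀ x, j (g x) = γ x := by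
  unfold rng at hr
  choose g hg0 hg using hr
  have hg0' : ∀ x, 0 ≤ g x := fun x => hg0 x
  refine ⟨g, ?_, hg0', hg⟩
  rw [continuous_iff_ultrafilter]
  intro x0 U hU
  have hγU : Tendsto γ U (𝓝 (γ x0)) := (hγ.tendsto x0).mono_left hU
  have hjg : (fun x => j (g x)) = γ := funext hg
  by_cases hb : ∃ M, ∀ᶠ x in (U : Filter X), g x ≤ M
  · obtain ⟨M, hM⟩ := hb
    have hm : ∀ᶠ x in (U : Filter X), g x ∈ Icc 0 M := hM.mono fun x hx => ⟨hg0' x, hx⟩
    obtain ⟨t, ht, htU⟩ := (isCompact_Icc (a := (0:ℝ)) (b := M)).ultrafilter_le_nhds' (U.map g) hm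
    have h1 : Tendsto g U (𝓝 t) := htU
    have h2 : Tendsto (fun x => j (g x)) U (𝓝 (j t)) := (hj.cont.tendsto t).comp h1
    rw [hjg] at h2
    have h3 : j t = γ x0 := tendsto_nhds_unique h2 hγU
    have h4 : t = g x0 := hj.inj ht.1 (hg0' x0) (h3.trans (hg x0).symm)
    rw [← h4]
    exact h1
  · exfalso
    push Not at hb
    have h1 : Tendsto g U atTop := by
      rw [tendsto_atTop]
      intro b
      exact (hb b).mono fun x hx => hx.le
    have h2 : MapClusterPt (γ x0) atTop j := by
      refine MapClusterPt.of_comp h1 ?_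
      apply Tendsto.mapClusterPt
      have : j ∘ g = γ := hjg
      rw [this]
      exact hγU
    have h3 := (hj.clus _).1 h2
    rw [← hg x0] at h3
    exact hj.disj (g x0) (hg0' x0) h3

end Pool.Bing
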