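import Pool.Agent.Helper257.Bing.Defs
import Pool.Agent.Helper257.Bing.P_ray_lift

set_option autoImplicit false
open Set Filter Topology

namespace Pool.Bing


variable {K : Type*} [TopologicalSpace K]


/-! TARGET: prove this theorem (add helper lemmas before it if you like; keep the statement) -/


theorem j11085_side [T2Space K] {j : ℝ → K} {L : Set K} (hj : IsRay j L) {N : ℝ}
    (hN : 0 ≤ N) (γ : ℝ → K) (hγ : Continuous γ) (Z : Set K) (hZ : IsClosed Z)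
    (hZc : ∀ t, γ t ∈ Z ↔ γ t ∉ j '' Ioi N) (t1 t : ℝ) (h1t : t1 < t)
    (h1 : γ t1 ∈ j '' Ioi N) (hno : ∀ x ∈ Icc t1 t, γ x ∉ j '' Icc 0 N) (ht : γ t ∉ rng j) :
    False := by
  have hjc : ∀ M : ℝ, IsClosed (j '' Icc 0 M) := fun M =>
    (isCompact_Icc.image hj.cont).isClosed
  have hsub : j '' Ioi N ⊆ rng j := image_mono (fun x hx => hN.trans (le_of_lt hx))
  -- the first exit
  have hCcomp : IsCompact (Icc t1 t ∩ γ ⁻¹' Z) :=
    isCompact_Icc.inter_right (hZ.preimage hγ)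
  have hCne : (Icc t1 t ∩ γ ⁻¹' Z).Nonempty :=
    ⟨t, ⟨h1t.le, le_rfl⟩, (hZc t).2 (fun h => ht (hsub h))⟩
  obtain ⟨τ, hτ⟩ := hCcomp.exists_isLeast hCne
  have hτZ : γ τ ∉ j '' Ioi N := (hZc τ).1 hτ.1.2
  have hτ1 : t1 < τ := by
    rcases hτ.1.1.1.eq_or_lt with h | h
    · exact absurd (h ▸ h1) hτZ
    · exact h
  have hτr : γ τ ∉ rng j := by
    rintro ⟨s, hs, hs2⟩
    rcases le_or_gt s N with h | h
    · exact hno τ hτ.1.1 ⟨s, ⟨hs, h⟩, hs2⟩
    · exact hτZ ⟨s, h, hs2⟩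
  have hin : ∀ x, t1 ≤ x → x < τ → γ x ∈ j '' Ioi N := by
    intro x hx1 hx2
    by_contra hcon
    have : x ∈ Icc t1 t ∩ γ ⁻¹' Z := ⟨⟨hx1, hx2.le.trans hτ.1.1.2⟩, (hZc x).2 hcon⟩
    exact absurd (hτ.2 this) (not_le.2 hx2)
  -- two points of L
  obtain ⟨z, hzL, hzne⟩ : ∃ z ∈ L, z ≠ γ τ := by
    obtain ⟨a, ha, b, hb, hab⟩ := hj.nontriv
    by_cases h : a = γ τ
    · exact ⟨b, hb, fun h' => hab (h.trans h'.symm)⟩
    · exact ⟨a, ha, h⟩
  obtain ⟨V, V', hV, hV', hzV, hτV', hdisj⟩ := t2_separation hzne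
  have hev : ∀ᶠ x in 𝓝 τ, γ x ∈ V' := hγ.continuousAt.eventually (hV'.mem_nhds hτV')
  obtain ⟨δ, hδ, hδV⟩ := Metric.eventually_nhds_iff.1 hev
  set x0 := max t1 (τ - δ / 2) with hx0
  have hx01 : t1 ≤ x0 := le_max_left _ _
  have hx0τ : x0 < τ := max_lt hτ1 (by linarith)
  have hx0δ : τ - δ / 2 ≤ x0 := le_max_right _ _
  have hVin : ∀ x, x0 ≤ x → x < τ → γ x ∈ V' := by
    intro x hx1 hx2
    apply hδV
    rw [Real.dist_eq, abs_lt]
    constructor <;> linarith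
  haveI : PreconnectedSpace (Ico x0 τ) := Subtype.preconnectedSpace isPreconnected_Ico
  obtain ⟨g, hgc, hg0, hgj⟩ := ray_lift hj (fun x : Ico x0 τ => γ x)
    (hγ.comp continuous_subtype_val)
    (fun x => hsub (hin x (hx01.trans x.2.1) x.2.2))
  set s0 := g ⟨x0, le_rfl, hx0τ⟩ with hs0
  have hfreq := (hj.clus z).2 hzL
  have hfreq2 : ∃ᶠ s in atTop, j s ∈ V := mapClusterPt_iff_frequently.1 hfreq V (hV.mem_nhds hzV)
  obtain ⟨s, hs, hsV⟩ := (frequently_atTop.1 hfreq2) s0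
  -- g takes a value larger than s
  have hopen : ∀ᶠ x in 𝓝 τ, γ x ∉ j '' Icc 0 s :=
    (hγ.continuousAt (x := τ)).preimage_mem_nhds ((hjc s).isOpen_compl.mem_nhds
      (fun h => hτr (image_mono (fun x hx => hx.1) h)))
  obtain ⟨η, hη, hηs⟩ := Metric.eventually_nhds_iff.1 hopen
  set x1 := max x0 (τ - η / 2) with hx1
  have hx1a : x0 ≤ x1 := le_max_left _ _
  have hx1b : x1 < τ := max_lt hx0τ (by linarith)
  have hx1c : τ - η / 2 ≤ x1 := le_max_right _ _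
  have hgx1 : s ≤ g ⟨x1, hx1a, hx1b⟩ := by
    by_contra hcon
    push Not at hcon
    have h2 : γ x1 ∉ j '' Icc 0 s := by
      apply hηs
      rw [Real.dist_eq, abs_lt]
      constructor <;> linarith
    exact h2 ⟨g ⟨x1, hx1a, hx1b⟩, ⟨hg0 _, hcon.le⟩, hgj ⟨x1, hx1a, hx1b⟩⟩
  obtain ⟨x, hx⟩ := mem_range_of_exists_le_of_exists_ge hgc ⟨_, hs⟩ ⟨_, hgx1⟩
  have h3 : j s = γ x := by rw [← hx]; exact hgj x
  have h4 : γ x ∈ V' := hVin x x.2.1 x.2.2
  exact Set.disjoint_left.1 hdisj hsV (h3 ▸ h4)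

/-- If the tail `j '' Ioi N` is relatively open in the image of the path `γ`, then the preimage of
the whole ray is closed. -/
theorem ray_preimage_closed [T2Space K] {j : ℝ → K} {L : Set K} (hj : IsRay j L) {N : ℝ}
    (hN : 0 ≤ N) (γ : ℝ → K) (hγ : Continuous γ) (Z : Set K) (hZ : IsClosed Z)
    (hZc : ∀ t, γ t ∈ Z ↔ γ t ∉ j '' Ioi N) : IsClosed (γ ⁻¹' rng j) := by
  apply isClosed_of_closure_subset
  intro t ht
  by_contra hcon
  have hcon' : γ t ∉ rng j := hcon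
  have hclosed : IsClosed (j '' Icc 0 N) := (isCompact_Icc.image hj.cont).isClosed
  have hopen : ∀ᶠ x in 𝓝 t, γ x ∉ j '' Icc 0 N :=
    (hγ.continuousAt (x := t)).preimage_mem_nhds (hclosed.isOpen_compl.mem_nhds
      (fun h => hcon' (image_mono (fun x hx => hx.1) h)))
  obtain ⟨ε, hε, hεs⟩ := Metric.eventually_nhds_iff.1 hopen
  obtain ⟨t1, ht1A, ht1⟩ := Metric.mem_closure_iff.1 ht ε hε
  have ht1A' : γ t1 ∈ rng j := ht1A
  have ht1N : γ t1 ∈ j '' Ioi N := by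
    obtain ⟨s, hs, hs2⟩ := ht1A'
    rcases le_or_gt s N with h | h
    · have := hεs (y := t1) (by rw [dist_comm]; exact ht1)
      exact absurd ⟨s, ⟨hs, h⟩, hs2⟩ this
    · exact ⟨s, h, hs2⟩
  rw [Real.dist_eq, abs_lt] at ht1
  rcases lt_trichotomy t1 t with h | h | h
  · refine j11085_side hj hN γ hγ Z hZ hZc t1 t h ht1N ?_ hcon'
    intro x hx
    apply hεs
    rw [Real.dist_eq, abs_lt]
    constructor <;> linarith [hx.1, hx.2]
  · rw [h] at ht1A'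
    exact hcon' ht1A'
  · refine j11085_side hj hN (fun x => γ (-x)) (hγ.comp continuous_neg) Z hZ
      (fun x => hZc (-x)) (-t1) (-t) (by linarith) ?_ ?_ ?_
    · simpa using ht1N
    · intro x hx
      apply hεs
      rw [Real.dist_eq, abs_lt]
      constructor <;> linarith [hx.1, hx.2]
    · simpa using hcon'

end Pool.Bing
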