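import Pool.Agent.Helper257.Bing.Defs
import Pool.Agent.Helper257.Bing.P_ray_closed
import Pool.Agent.Helper257.Bing.P_ray_preimage_closed

set_option autoImplicit false
open Set Filter Topology

namespace Pool.Bing


variable {K : Type*} [TopologicalSpace K]


/-! TARGET: prove this theorem (add helper lemmas before it if you like; keep the statement) -/


theorem pieces_two (A B : Set ℝ) (hA : IsClosed A) (hB : IsClosed B)
    (hcov : ∀ t, t ∈ A ∨ t ∈ B) (hdisj : ∀ t, t ∈ A → t ∈ B → False) :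
    (∀ t, t ∈ A) ∨ (∀ t, t ∈ B) := by
  have hAB : Aᶜ = B := by
    ext t
    constructor
    · intro ht
      exact (hcov t).resolve_left ht
    · intro ht ht'
      exact hdisj t ht' ht
  have hop : IsOpen A := by
    rw [← isClosed_compl_iff, hAB]; exact hB
  have hcl : IsClopen A := ⟨hA, hop⟩
  rcases isClopen_iff.1 hcl with h | h
  · right
    intro t
    rw [← hAB, h]
    simp
  · left
    intro t
    rw [h]
    trivial

/-- A path lies in one of the four path components. -/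
theorem pieces [T2Space K] [CompactSpace K] {w0 w1 p r q1 q2 : ℝ → K}
    (h : Config w0 w1 p r q1 q2) (γ : ℝ → K) (hγ : Continuous γ) :
    (∀ t, γ t ∈ rng w0) ∨ (∀ t, γ t ∈ rng w1) ∨ (∀ t, γ t ∈ rng p) ∨
      (∀ t, γ t ∈ rng r ∪ rng q1 ∪ rng q2) := by
  have cW0 : IsClosed (w0 '' Ici 0 ∪ w1 '' Icc 0 1) := ray_closed h.hw0 le_rfl
  have cW1 : IsClosed (w1 '' Ici 0 ∪ w0 '' Icc 0 1) := ray_closed h.hw1 le_rfl
  have cP : IsClosed (p '' Ici 0 ∪ (rng w0 ∪ rng w1)) := ray_closed h.hp le_rfl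
  have cR : IsClosed (r '' Ici 0 ∪ (rng w0 ∪ rng w1)) := ray_closed h.hr le_rfl
  have cQ1 : IsClosed (q1 '' Ici 0 ∪ p '' Icc 2 3) := ray_closed h.hq1 le_rfl
  have cQ2 : IsClosed (q2 '' Ici 0 ∪ p '' Icc 0 1) := ray_closed h.hq2 le_rfl
  have cC : IsClosed (rng w0 ∪ rng w1) := by
    have : rng w0 ∪ rng w1 = (w0 '' Ici 0 ∪ w1 '' Icc 0 1) ∪ (w1 '' Ici 0 ∪ w0 '' Icc 0 1) := by
      ext z
      constructor
      · rintro (hz | hz)
        · exact Or.inl (Or.inl hz)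
        · exact Or.inr (Or.inl hz)
      · rintro ((hz | ⟨s, hs, rfl⟩) | (hz | ⟨s, hs, rfl⟩))
        · exact Or.inl hz
        · exact Or.inr ⟨s, hs.1, rfl⟩
        · exact Or.inr hz
        · exact Or.inl ⟨s, hs.1, rfl⟩
    rw [this]; exact cW0.union cW1
  have subp1 : ∀ z, z ∈ p '' Icc 2 3 → z ∈ rng p := by
    rintro z ⟨s, hs, rfl⟩
    exact ⟨s, le_trans (by norm_num) hs.1, rfl⟩
  have subp2 : ∀ z, z ∈ p '' Icc 0 1 → z ∈ rng p := by
    rintro z ⟨s, hs, rfl⟩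
    exact ⟨s, hs.1, rfl⟩
  -- preimage of the range of p
  have pP : IsClosed (γ ⁻¹' rng p) := by
    refine ray_preimage_closed h.hp (N := 3) (by norm_num) γ hγ
      (p '' Icc 0 3 ∪ (r '' Ici 0 ∪ (rng w0 ∪ rng w1)) ∪ (q1 '' Ici 0 ∪ p '' Icc 2 3) ∪
        (q2 '' Ici 0 ∪ p '' Icc 0 1))
      ((((isCompact_Icc.image h.hp.cont).isClosed.union cR).union cQ1).union cQ2) ?_
    intro t
    constructor
    · rintro hz ⟨s, hs, hst⟩
      have hs0 : (0 : ℝ) ≤ s := le_trans (by norm_num) (le_of_lt (show (3 : ℝ) < s from hs))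
      have hs3 : (3 : ℝ) < s := hs
      have inj : ∀ u, u ∈ Icc (0 : ℝ) 3 → p u = p s → False := by
        intro u hu hus
        have := h.hp.inj (show u ∈ Ici (0 : ℝ) from hu.1) (show s ∈ Ici (0 : ℝ) from hs0) hus
        rw [this] at hu
        linarith [hu.2]
      rw [← hst] at hz
      rcases hz with ((⟨u, hu, hus⟩ | ⟨u, hu, hus⟩ | hz) | ⟨u, hu, hus⟩ | ⟨u, hu, hus⟩) |
        ⟨u, hu, hus⟩ | ⟨u, hu, hus⟩
      · exact inj u hu hus
      · exact h.drp u s hu hs0 hus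
      · exact h.hp.disj s hs0 hz
      · exact h.dq1p u s hu hs0 hus
      · exact inj u ⟨le_trans (by norm_num) hu.1, hu.2⟩ hus
      · exact h.dq2p u s hu hs0 hus
      · exact inj u ⟨hu.1, le_trans hu.2 (by norm_num)⟩ hus
    · intro hz
      rcases h.cover (γ t) with hc | hc | ⟨s, hs, hst⟩ | hc | hc | hc
      · exact Or.inl (Or.inl (Or.inr (Or.inr (Or.inl hc))))
      · exact Or.inl (Or.inl (Or.inr (Or.inr (Or.inr hc))))
      · rcases le_or_gt s 3 with h3 | h3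
        · exact Or.inl (Or.inl (Or.inl ⟨s, ⟨hs, h3⟩, hst⟩))
        · exact absurd ⟨s, h3, hst⟩ hz
      · exact Or.inl (Or.inl (Or.inr (Or.inl hc)))
      · exact Or.inl (Or.inr (Or.inl hc))
      · exact Or.inr (Or.inl hc)
  have pR : IsClosed (γ ⁻¹' rng r) := by
    refine ray_preimage_closed h.hr (N := 0) le_rfl γ hγ
      ((q1 '' Ici 0 ∪ p '' Icc 2 3) ∪ (q2 '' Ici 0 ∪ p '' Icc 0 1) ∪
        (p '' Ici 0 ∪ (rng w0 ∪ rng w1)) ∪ {r 0})
      (((cQ1.union cQ2).union cP).union isClosed_singleton) ?_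
    intro t
    constructor
    · rintro hz ⟨s, hs, hst⟩
      have hs1 : (0 : ℝ) < s := hs
      have hs0 : (0 : ℝ) ≤ s := hs1.le
      rw [← hst] at hz
      rcases hz with (((⟨u, hu, hus⟩ | hz) | ⟨u, hu, hus⟩ | hz) | (⟨u, hu, hus⟩ | hz)) | hz
      · exact hs1.ne' (h.drq1 s u hs0 hu hus.symm).1
      · obtain ⟨u, hu, hus⟩ := subp1 _ hz
        exact h.drp s u hs0 hu hus.symm
      · exact hs1.ne' (h.drq2 s u hs0 hu hus.symm).1
      · obtain ⟨u, hu, hus⟩ := subp2 _ hz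
        exact h.drp s u hs0 hu hus.symm
      · exact h.drp s u hs0 hu hus.symm
      · exact h.hr.disj s hs0 hz
      · exact hs1.ne' (h.hr.inj (show s ∈ Ici (0 : ℝ) from hs0) (Set.mem_Ici.2 (le_refl (0 : ℝ))) hz)
    · intro hz
      rcases h.cover (γ t) with hc | hc | hc | ⟨s, hs, hst⟩ | hc | hc
      · exact Or.inl (Or.inr (Or.inr (Or.inl hc)))
      · exact Or.inl (Or.inr (Or.inr (Or.inr hc)))
      · exact Or.inl (Or.inr (Or.inl hc))
      · rcases (show (0 : ℝ) ≤ s from hs).eq_or_lt with h3 | h3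
        · subst h3
          exact Or.inr hst.symm
        · exact absurd ⟨s, h3, hst⟩ hz
      · exact Or.inl (Or.inl (Or.inl (Or.inl hc)))
      · exact Or.inl (Or.inl (Or.inr (Or.inl hc)))
  have pQ1 : IsClosed (γ ⁻¹' rng q1) := by
    refine ray_preimage_closed h.hq1 (N := 0) le_rfl γ hγ
      ((r '' Ici 0 ∪ (rng w0 ∪ rng w1)) ∪ (q2 '' Ici 0 ∪ p '' Icc 0 1) ∪
        (p '' Ici 0 ∪ (rng w0 ∪ rng w1)) ∪ {q1 0})
      (((cR.union cQ2).union cP).union isClosed_singleton) ?_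
    intro t
    constructor
    · rintro hz ⟨s, hs, hst⟩
      have hs1 : (0 : ℝ) < s := hs
      have hs0 : (0 : ℝ) ≤ s := hs1.le
      rw [← hst] at hz
      rcases hz with (((⟨u, hu, hus⟩ | hz) | ⟨u, hu, hus⟩ | hz) | (⟨u, hu, hus⟩ | hz)) | hz
      · exact hs1.ne' (h.drq1 u s hu hs0 hus).2
      · exact h.dq1w s hs0 hz
      · exact hs1.ne' (h.dq12 s u hs0 hu hus.symm).1
      · obtain ⟨u, hu, hus⟩ := subp2 _ hz
        exact h.dq1p s u hs0 hu hus.symm
      · exact h.dq1p s u hs0 hu hus.symm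
      · exact h.dq1w s hs0 hz
      · exact hs1.ne' (h.hq1.inj (show s ∈ Ici (0 : ℝ) from hs0) (Set.mem_Ici.2 (le_refl (0 : ℝ))) hz)
    · intro hz
      rcases h.cover (γ t) with hc | hc | hc | hc | ⟨s, hs, hst⟩ | hc
      · exact Or.inl (Or.inr (Or.inr (Or.inl hc)))
      · exact Or.inl (Or.inr (Or.inr (Or.inr hc)))
      · exact Or.inl (Or.inr (Or.inl hc))
      · exact Or.inl (Or.inl (Or.inl (Or.inl hc)))
      · rcases (show (0 : ℝ) ≤ s from hs).eq_or_lt with h3 | h3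
        · subst h3
          exact Or.inr hst.symm
        · exact absurd ⟨s, h3, hst⟩ hz
      · exact Or.inl (Or.inl (Or.inr (Or.inl hc)))
  have pQ2 : IsClosed (γ ⁻¹' rng q2) := by
    refine ray_preimage_closed h.hq2 (N := 0) le_rfl γ hγ
      ((r '' Ici 0 ∪ (rng w0 ∪ rng w1)) ∪ (q1 '' Ici 0 ∪ p '' Icc 2 3) ∪
        (p '' Ici 0 ∪ (rng w0 ∪ rng w1)) ∪ {q2 0})
      (((cR.union cQ1).union cP).union isClosed_singleton) ?_
    intro t
    constructor
    · rintro hz ⟨s, hs, hst⟩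
      have hs1 : (0 : ℝ) < s := hs
      have hs0 : (0 : ℝ) ≤ s := hs1.le
      rw [← hst] at hz
      rcases hz with (((⟨u, hu, hus⟩ | hz) | ⟨u, hu, hus⟩ | hz) | (⟨u, hu, hus⟩ | hz)) | hz
      · exact hs1.ne' (h.drq2 u s hu hs0 hus).2
      · exact h.dq2w s hs0 hz
      · exact hs1.ne' (h.dq12 u s hu hs0 hus).2
      · obtain ⟨u, hu, hus⟩ := subp1 _ hz
        exact h.dq2p s u hs0 hu hus.symm
      · exact h.dq2p s u hs0 hu hus.symm
      · exact h.dq2w s hs0 hz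
      · exact hs1.ne' (h.hq2.inj (show s ∈ Ici (0 : ℝ) from hs0) (Set.mem_Ici.2 (le_refl (0 : ℝ))) hz)
    · intro hz
      rcases h.cover (γ t) with hc | hc | hc | hc | hc | ⟨s, hs, hst⟩
      · exact Or.inl (Or.inr (Or.inr (Or.inl hc)))
      · exact Or.inl (Or.inr (Or.inr (Or.inr hc)))
      · exact Or.inl (Or.inr (Or.inl hc))
      · exact Or.inl (Or.inl (Or.inl (Or.inl hc)))
      · exact Or.inl (Or.inl (Or.inr (Or.inl hc)))
      · rcases (show (0 : ℝ) ≤ s from hs).eq_or_lt with h3 | h3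
        · subst h3
          exact Or.inr hst.symm
        · exact absurd ⟨s, h3, hst⟩ hz
  have pG : IsClosed (γ ⁻¹' (rng r ∪ rng q1 ∪ rng q2)) := by
    rw [Set.preimage_union, Set.preimage_union]
    exact (pR.union pQ1).union pQ2
  have pC : IsClosed (γ ⁻¹' (rng w0 ∪ rng w1)) := cC.preimage hγ
  rcases pieces_two (γ ⁻¹' rng p) (γ ⁻¹' (rng r ∪ rng q1 ∪ rng q2) ∪ γ ⁻¹' (rng w0 ∪ rng w1)) pP
    (pG.union pC) (by
      intro t
      rcases h.cover (γ t) with hc | hc | hc | hc | hc | hc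
      · exact Or.inr (Or.inr (Or.inl hc))
      · exact Or.inr (Or.inr (Or.inr hc))
      · exact Or.inl hc
      · exact Or.inr (Or.inl (Or.inl (Or.inl hc)))
      · exact Or.inr (Or.inl (Or.inl (Or.inr hc)))
      · exact Or.inr (Or.inl (Or.inr hc))) (by
      rintro t ⟨s, hs, hst⟩ ht
      rcases ht with (((⟨u, hu, hus⟩ | ⟨u, hu, hus⟩) | ⟨u, hu, hus⟩) | hz)
      · exact h.drp u s hu hs (hus.trans hst.symm)
      · exact h.dq1p u s hu hs (hus.trans hst.symm)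
      · exact h.dq2p u s hu hs (hus.trans hst.symm)
      · have hz' : p s ∈ rng w0 ∪ rng w1 := by rw [hst]; exact hz
        exact h.hp.disj s hs hz') with hA | hA
  · exact Or.inr (Or.inr (Or.inl hA))
  rcases pieces_two (γ ⁻¹' (rng r ∪ rng q1 ∪ rng q2)) (γ ⁻¹' (rng w0 ∪ rng w1)) pG pC hA (by
      intro t ht hz
      have hz1 : γ t ∈ rng w0 ∪ rng w1 := hz
      rcases ht with ((⟨u, hu, hus⟩ | ⟨u, hu, hus⟩) | ⟨u, hu, hus⟩)
      · rw [← hus] at hz1; exact h.hr.disj u hu hz1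
      · rw [← hus] at hz1; exact h.dq1w u hu hz1
      · rw [← hus] at hz1; exact h.dq2w u hu hz1) with hB | hB
  · exact Or.inr (Or.inr (Or.inr hB))
  have p0 : IsClosed (γ ⁻¹' rng w0) := by
    refine ray_preimage_closed h.hw0 (N := 1) zero_le_one γ hγ (w1 '' Ici 0 ∪ w0 '' Icc 0 1) cW1 ?_
    intro t
    constructor
    · rintro hz ⟨s, hs, hst⟩
      have hs1 : (1 : ℝ) < s := hs
      have hs0 : (0 : ℝ) ≤ s := by linarith
      rw [← hst] at hz
      rcases hz with ⟨u, hu, hus⟩ | ⟨u, hu, hus⟩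
      · exact h.d01 s u hs0 hu hus.symm
      · have := h.hw0.inj (show u ∈ Ici (0 : ℝ) from hu.1) (show s ∈ Ici (0 : ℝ) from hs0) hus
        rw [this] at hu
        linarith [hu.2]
    · intro hz
      rcases hB t with ⟨s, hs, hst⟩ | hc
      · rcases le_or_gt s 1 with h3 | h3
        · exact Or.inr ⟨s, ⟨hs, h3⟩, hst⟩
        · exact absurd ⟨s, h3, hst⟩ hz
      · exact Or.inl hc
  have p1 : IsClosed (γ ⁻¹' rng w1) := by
    refine ray_preimage_closed h.hw1 (N := 1) zero_le_one γ hγ (w0 '' Ici 0 ∪ w1 '' Icc 0 1) cW0 ?_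
    intro t
    constructor
    · rintro hz ⟨s, hs, hst⟩
      have hs1 : (1 : ℝ) < s := hs
      have hs0 : (0 : ℝ) ≤ s := by linarith
      rw [← hst] at hz
      rcases hz with ⟨u, hu, hus⟩ | ⟨u, hu, hus⟩
      · exact h.d01 u s hu hs0 hus
      · have := h.hw1.inj (show u ∈ Ici (0 : ℝ) from hu.1) (show s ∈ Ici (0 : ℝ) from hs0) hus
        rw [this] at hu
        linarith [hu.2]
    · intro hz
      rcases hB t with hc | ⟨s, hs, hst⟩
      · exact Or.inl hc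
      · rcases le_or_gt s 1 with h3 | h3
        · exact Or.inr ⟨s, ⟨hs, h3⟩, hst⟩
        · exact absurd ⟨s, h3, hst⟩ hz
  rcases pieces_two (γ ⁻¹' rng w0) (γ ⁻¹' rng w1) p0 p1 (fun t => hB t) (by
      rintro t ⟨s, hs, hst⟩ ⟨u, hu, hut⟩
      exact h.d01 s u hs hu (hst.trans hut.symm)) with hC | hC
  · exact Or.inl hC
  · exact Or.inr (Or.inl hC)

end Pool.Bing
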