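import Pool.Agent.Helper257.Bing.Defs
import Pool.Agent.Helper257.Bing.P_ray_lift

set_option autoImplicit false
open Set Filter Topology

namespace Pool.Bing


variable {K : Type*} [TopologicalSpace K]


/-! TARGET: prove this theorem (add helper lemmas before it if you like; keep the statement) -/


/-- A self-map of a ray either has a fixed point or pushes to the end. -/
theorem ray_map [T2Space K] [CompactSpace K] {j : ℝ → K} {L : Set K} (hj : IsRay j L)
    (f : C(K, K)) (hf : ∀ s, 0 ≤ s → f (j s) ∈ rng j) :
    (∃ x, f x = x) ∨ ((∀ s, 0 ≤ s → ∃ t, s < t ∧ f (j s) = j t) ∧ ∀ z ∈ L, f z ∈ L) := by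
  have hγ : Continuous (fun s : ℝ => f (j (max s 0))) :=
    f.continuous.comp (hj.cont.comp (continuous_id.max continuous_const))
  obtain ⟨g, hg, hg0, hgj⟩ := ray_lift hj (fun s : ℝ => f (j (max s 0))) hγ
    (fun s => hf _ (le_max_right _ _))
  have hgj' : ∀ s, 0 ≤ s → j (g s) = f (j s) := by
    intro s hs
    have := hgj s
    simpa [max_eq_left hs] using this
  by_cases hfix : ∃ s, 0 ≤ s ∧ g s = s
  · left
    obtain ⟨s, hs, hgs⟩ := hfix
    refine ⟨j s, ?_⟩
    rw [← hgj' s hs, hgs]
  · right
    push Not at hfix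
    have hpos : 0 < g 0 := lt_of_le_of_ne (hg0 0) (Ne.symm (hfix 0 le_rfl))
    have hgt : ∀ s, 0 ≤ s → s < g s := by
      intro s hs
      by_contra hcon
      have hle : g s ≤ s := not_lt.mp hcon
      have hcont : ContinuousOn (fun x => g x - x) (Set.Icc 0 s) :=
        (hg.sub continuous_id).continuousOn
      have := intermediate_value_Icc' hs hcont
      have h0 : (0 : ℝ) ∈ Set.Icc (g s - s) (g 0 - 0) := by
        constructor
        · linarith
        · linarith
      obtain ⟨x, hx, hx0⟩ := this h0
      exact hfix x hx.1 (by simpa [sub_eq_zero] using hx0)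
    refine ⟨fun s hs => ⟨g s, hgt s hs, (hgj' s hs).symm⟩, ?_⟩
    intro z hz
    have hz1 : MapClusterPt z atTop j := (hj.clus z).2 hz
    have hz2 : MapClusterPt (f z) atTop (f ∘ j) := hz1.continuousAt_comp f.continuous.continuousAt
    have hev : (f ∘ j) =ᶠ[atTop] (j ∘ g) := by
      filter_upwards [eventually_ge_atTop (0 : ℝ)] with s hs
      simp [hgj' s hs]
    have hgtop : Tendsto g atTop atTop := by
      refine tendsto_atTop_mono' atTop ?_ tendsto_id
      filter_upwards [eventually_ge_atTop (0 : ℝ)] with s hs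
      exact (hgt s hs).le
    have hz3 : MapClusterPt (f z) atTop (j ∘ g) := by
      unfold MapClusterPt at hz2 ⊢
      rwa [Filter.map_congr hev] at hz2
    have hz4 : MapClusterPt (f z) atTop j := MapClusterPt.of_comp hgtop hz3
    exact (hj.clus _).1 hz4

end Pool.Bing
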