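import Pool.Agent.Helper257.Bing.Defs

set_option autoImplicit false
open Set Filter Topology

namespace Pool.Bing


variable {K : Type*} [TopologicalSpace K]

/-! TARGET: prove this theorem (add helper lemmas before it if you like; keep the statement) -/


/-- A lifted path without cluster points in the ray goes to the end. -/
theorem ray_tendsto {j : ℝ → K} (hj : Continuous j) (g : ℝ → ℝ) (hg0 : ∀ x, 0 ≤ g x)
    (h : ∀ z ∈ rng j, ¬ MapClusterPt z atTop (fun t => j (g t))) : Tendsto g atTop atTop := by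
  by_contra hcon
  rw [tendsto_atTop] at hcon
  push Not at hcon
  obtain ⟨M, hM⟩ := hcon
  have hfr : ∃ᶠ t in atTop, j (g t) ∈ j '' Set.Icc 0 M := by
    have h1 : ∃ᶠ t in atTop, ¬ M ≤ g t := by
      simpa [Filter.Frequently] using hM
    refine h1.mono fun t ht => ?_
    exact ⟨g t, ⟨hg0 t, (not_le.1 ht).le⟩, rfl⟩
  obtain ⟨z, ⟨s, hs, rfl⟩, hz⟩ := (isCompact_Icc.image hj).exists_mapClusterPt_of_frequently hfr
  exact h (j s) ⟨s, hs.1, rfl⟩ hz

end Pool.Bing
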