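import Pool.Agent.Helper257.Bing.Defs
import Pool.Agent.Helper257.Bing.P_ray_lift
import Pool.Agent.Helper257.Bing.P_ray_closed
import Pool.Agent.Helper257.Bing.P_ray_tendsto

set_option autoImplicit false
open Set Filter Topology

namespace Pool.Bing


variable {K : Type*} [TopologicalSpace K]


/-! TARGET: prove this theorem (add helper lemmas before it if you like; keep the statement) -/


theorem tripod_end_fin [T2Space K] {j : ℝ → K} {L : Set K} (hj : IsRay j L) (γ γ' : ℝ → K)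
    (hγ' : Continuous γ') (N : ℝ) (hN : ∀ t, N ≤ t → γ' t = γ t) (hr : ∀ t, γ' t ∈ rng j)
    (hc : ∀ z ∈ rng j, ¬ MapClusterPt z atTop γ) :
    ∃ φ : ℝ → ℝ, Continuous φ ∧ Tendsto φ atTop atTop ∧ (∀ t, 0 ≤ φ t) ∧
      (∀ t, N ≤ t → γ t = j (φ t)) := by
  obtain ⟨g, hg, hg0, hgj⟩ := ray_lift hj γ' hγ' hr
  refine ⟨g, hg, ray_tendsto hj.cont g hg0 ?_, hg0, fun t ht => by rw [hgj, hN t ht]⟩
  intro z hz hcl
  apply hc z hz
  have e : (fun t => j (g t)) =ᶠ[atTop] γ := by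
    filter_upwards [eventually_ge_atTop N] with t ht
    rw [hgj, hN t ht]
  unfold MapClusterPt at hcl ⊢
  rwa [Filter.map_congr e] at hcl

/-- three pairwise disjoint closed sets covering the line: one of them is everything -/
theorem tripod_end_three {A B C : Set ℝ} (hA : IsClosed A) (hB : IsClosed B) (hC : IsClosed C)
    (hcov : ∀ t, t ∈ A ∨ t ∈ B ∨ t ∈ C) (hAB : ∀ t, t ∈ A → t ∈ B → False)
    (hAC : ∀ t, t ∈ A → t ∈ C → False) (hBC : ∀ t, t ∈ B → t ∈ C → False) :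
    (∀ t, t ∈ A) ∨ (∀ t, t ∈ B) ∨ (∀ t, t ∈ C) := by
  have huniv : IsPreconnected (univ : Set ℝ) := isPreconnected_univ
  have h1 := isPreconnected_iff_subset_of_disjoint_closed.1 huniv
  rcases h1 A (B ∪ C) hA (hB.union hC) (fun t _ => hcov t) (by
    ext t
    simp only [univ_inter, mem_inter_iff, mem_union, mem_empty_iff_false, iff_false]
    rintro ⟨h2, h3 | h3⟩
    · exact hAB t h2 h3
    · exact hAC t h2 h3) with h2 | h2
  · exact Or.inl fun t => h2 (mem_univ t)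
  · rcases h1 B C hB hC h2 (by
      ext t
      simp only [univ_inter, mem_inter_iff, mem_empty_iff_false, iff_false]
      rintro ⟨h3, h4⟩
      exact hBC t h3 h4) with h3 | h3
    · exact Or.inr (Or.inl fun t => h3 (mem_univ t))
    · exact Or.inr (Or.inr fun t => h3 (mem_univ t))

/-- A path in the tripod without cluster points in the tripod goes to one of the ends. -/
theorem tripod_end [T2Space K] [CompactSpace K] {w0 w1 p r q1 q2 : ℝ → K}
    (h : Config w0 w1 p r q1 q2) (γ : ℝ → K) (hγ : Continuous γ)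
    (hr : ∀ t, γ t ∈ rng r ∪ rng q1 ∪ rng q2)
    (hc : ∀ z ∈ rng r ∪ rng q1 ∪ rng q2, ¬ MapClusterPt z atTop γ) :
    ∃ N : ℝ, ∃ φ : ℝ → ℝ, Continuous φ ∧ Tendsto φ atTop atTop ∧ (∀ t, 0 ≤ φ t) ∧
      ((∀ t, N ≤ t → γ t = r (φ t)) ∨ (∀ t, N ≤ t → γ t = q1 (φ t)) ∨
        (∀ t, N ≤ t → γ t = q2 (φ t))) := by
  have hr0 : (r 0) ∈ rng r := ⟨0, mem_Ici.2 le_rfl, rfl⟩
  have hc0 := hc (r 0) (Or.inl (Or.inl hr0))
  rw [mapClusterPt_iff_frequently] at hc0
  push Not at hc0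
  obtain ⟨s, hs, hev⟩ := hc0
  obtain ⟨N, hN⟩ := (eventually_atTop.1 hev)
  have hne : ∀ t, N ≤ t → γ t ≠ r 0 := by
    intro t ht he
    apply hN t ht
    rw [he]
    exact mem_of_mem_nhds hs
  obtain ⟨γ', hγ'⟩ : ∃ γ' : ℝ → K, γ' = fun t => γ (max t N) := ⟨_, rfl⟩
  have hγ'c : Continuous γ' := by
    rw [hγ']
    exact hγ.comp (continuous_id.max continuous_const)
  have hγ'N : ∀ t, N ≤ t → γ' t = γ t := by
    intro t ht
    rw [hγ']
    show γ (max t N) = γ t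
    rw [max_eq_left ht]
  have hγ'0 : ∀ t, γ' t ≠ r 0 := by
    intro t
    rw [hγ']
    exact hne _ (le_max_right _ _)
  have hγ'T : ∀ t, γ' t ∈ rng r ∪ rng q1 ∪ rng q2 := by
    intro t
    rw [hγ']
    exact hr _
  -- the cluster sets are disjoint from the tripod
  have d0 : ∀ t, γ' t ∉ rng w0 ∪ rng w1 := by
    intro t
    rcases hγ'T t with (⟨s, hs, e⟩ | ⟨s, hs, e⟩) | ⟨s, hs, e⟩
    · rw [← e]; exact h.hr.disj s hs
    · rw [← e]; exact h.dq1w s hs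
    · rw [← e]; exact h.dq2w s hs
  have d1 : ∀ t u, 0 ≤ u → γ' t ≠ p u := by
    intro t u hu
    rcases hγ'T t with (⟨s, hs, e⟩ | ⟨s, hs, e⟩) | ⟨s, hs, e⟩
    · rw [← e]; exact h.drp s u hs hu
    · rw [← e]; exact h.dq1p s u hs hu
    · rw [← e]; exact h.dq2p s u hs hu
  have c0 := ray_closed h.hr (N := 0) le_rfl
  have c1 := ray_closed h.hq1 (N := 0) le_rfl
  have c2 := ray_closed h.hq2 (N := 0) le_rfl
  have i0 : ∀ t, γ' t ∈ r '' Ici 0 ∪ (rng w0 ∪ rng w1) → γ' t ∈ rng r := by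
    intro t ht
    rcases ht with ht | ht
    · exact ht
    · exact absurd ht (d0 t)
  have i1 : ∀ t, γ' t ∈ q1 '' Ici 0 ∪ (p '' Icc 2 3) → γ' t ∈ rng q1 := by
    intro t ht
    rcases ht with ht | ⟨u, hu, e⟩
    · exact ht
    · exact absurd e.symm (d1 t u (le_trans (by norm_num) hu.1))
  have i2 : ∀ t, γ' t ∈ q2 '' Ici 0 ∪ (p '' Icc 0 1) → γ' t ∈ rng q2 := by
    intro t ht
    rcases ht with ht | ⟨u, hu, e⟩
    · exact ht
    · exact absurd e.symm (d1 t u hu.1)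
  have x01 : ∀ t, γ' t ∈ rng r → γ' t ∈ rng q1 → False := by
    rintro t ⟨s, hs, e⟩ ⟨u, hu, e'⟩
    have := h.drq1 s u hs hu (e.trans e'.symm)
    rw [this.1] at e
    exact hγ'0 t e.symm
  have x02 : ∀ t, γ' t ∈ rng r → γ' t ∈ rng q2 → False := by
    rintro t ⟨s, hs, e⟩ ⟨u, hu, e'⟩
    have := h.drq2 s u hs hu (e.trans e'.symm)
    rw [this.1] at e
    exact hγ'0 t e.symm
  have x12 : ∀ t, γ' t ∈ rng q1 → γ' t ∈ rng q2 → False := by
    rintro t ⟨s, hs, e⟩ ⟨u, hu, e'⟩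
    have := h.dq12 s u hs hu (e.trans e'.symm)
    rw [this.1, h.c1] at e
    exact hγ'0 t e.symm
  rcases tripod_end_three (c0.preimage hγ'c) (c1.preimage hγ'c) (c2.preimage hγ'c) (fun t => by
      rcases hγ'T t with (ht | ht) | ht
      · exact Or.inl (Or.inl ht)
      · exact Or.inr (Or.inl (Or.inl ht))
      · exact Or.inr (Or.inr (Or.inl ht)))
      (fun t ht ht' => x01 t (i0 t ht) (i1 t ht')) (fun t ht ht' => x02 t (i0 t ht) (i2 t ht'))
      (fun t ht ht' => x12 t (i1 t ht) (i2 t ht')) with H | H | H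
  · obtain ⟨φ, h1, h2, h3, h4⟩ := tripod_end_fin h.hr γ γ' hγ'c N hγ'N (fun t => i0 t (H t))
      (fun z hz => hc z (Or.inl (Or.inl hz)))
    exact ⟨N, φ, h1, h2, h3, Or.inl h4⟩
  · obtain ⟨φ, h1, h2, h3, h4⟩ := tripod_end_fin h.hq1 γ γ' hγ'c N hγ'N (fun t => i1 t (H t))
      (fun z hz => hc z (Or.inl (Or.inr hz)))
    exact ⟨N, φ, h1, h2, h3, Or.inr (Or.inl h4)⟩
  · obtain ⟨φ, h1, h2, h3, h4⟩ := tripod_end_fin h.hq2 γ γ' hγ'c N hγ'N (fun t => i2 t (H t))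
      (fun z hz => hc z (Or.inr hz))
    exact ⟨N, φ, h1, h2, h3, Or.inr (Or.inr h4)⟩

end Pool.Bing
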