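import Pool.Agent.Helper257.Bing.Defs
import Pool.Agent.Helper257.Bing.P_ray_lift

set_option autoImplicit false
open Set Filter Topology

namespace Pool.Bing


variable {K : Type*} [TopologicalSpace K]


/-! TARGET: prove this theorem (add helper lemmas before it if you like; keep the statement) -/



/-- The tail of a ray together with its cluster set is closed. -/
theorem tail_closed_aux [T2Space K] {j : ℝ → K} {L : Set K} (hj : IsRay j L) (a : ℝ) :
    IsClosed (j '' Ici a ∪ L) := by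
  have key : ∀ z ∈ closure (j '' Ici a), z ∈ j '' Ici a ∪ L := by
    intro z hz
    by_cases hall : ∀ b : ℝ, z ∈ closure (j '' Ici b)
    · right
      rw [← hj.clus]
      rw [MapClusterPt, clusterPt_iff_forall_mem_closure]
      intro s hs
      rw [Filter.mem_map, Filter.mem_atTop_sets] at hs
      obtain ⟨b, hb⟩ := hs
      refine closure_mono ?_ (hall b)
      rintro _ ⟨t, ht, rfl⟩
      exact hb t ht
    · push Not at hall
      obtain ⟨b, hb⟩ := hall
      left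
      have hsub : j '' Ici a ⊆ j '' Icc a b ∪ j '' Ici b := by
        rintro _ ⟨t, ht, rfl⟩
        rcases le_total t b with h | h
        · exact Or.inl ⟨t, ⟨ht, h⟩, rfl⟩
        · exact Or.inr ⟨t, h, rfl⟩
      have hz2 : z ∈ closure (j '' Icc a b ∪ j '' Ici b) := closure_mono hsub hz
      rw [closure_union] at hz2
      rcases hz2 with h | h
      · have hc : IsClosed (j '' Icc a b) := (isCompact_Icc.image hj.cont).isClosed
        rw [hc.closure_eq] at h
        obtain ⟨t, ht, rfl⟩ := h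
        exact ⟨t, ht.1, rfl⟩
      · exact absurd h hb
  have hL : IsClosed L := by
    have : L = {z | ClusterPt z (Filter.map j Filter.atTop)} := by
      ext z
      exact (hj.clus z).symm
    rw [this]
    exact isClosed_setOfPred_clusterPt
  apply isClosed_of_closure_subset
  rw [closure_union, hL.closure_eq]
  rintro z (hz | hz)
  · exact key z hz
  · exact Or.inr hz

/-- A leg of a tripod towards which the centre is pushed. -/
theorem leg_push_aux [T2Space K] {l : ℝ → K} {L M T : Set K} (hl : IsRay l L) (hM : IsClosed M)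
    (f : C(K, K)) (hT : ∀ z ∈ T, f z ∈ T) (hlT : ∀ s, 0 ≤ s → l s ∈ T)
    (hcov : ∀ z ∈ T, z ∈ rng l ∨ z ∈ M) (hLT : ∀ z ∈ T, z ∉ L)
    (hMl : ∀ s, 0 < s → l s ∉ M) (hfix : ∀ x, f x ≠ x) (h0 : ∃ t, 0 < t ∧ f (l 0) = l t) :
    ∀ z ∈ L, f z ∈ L := by
  have hcont : Continuous fun s => f (l s) := f.continuous.comp hl.cont
  -- the first closed set
  have hC1 : IsClosed {s : ℝ | 0 ≤ s ∧ f (l s) ∈ l '' Ici s} := by
    apply isClosed_of_closure_subset
    intro s0 hs0
    have hs0' : 0 ≤ s0 := by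
      have : s0 ∈ closure (Ici (0:ℝ)) := closure_mono (fun s hs => hs.1) hs0
      rwa [isClosed_Ici.closure_eq] at this
    refine ⟨hs0', ?_⟩
    rcases hs0'.eq_or_lt with h | hpos
    · obtain ⟨t, ht, ht2⟩ := h0
      subst h
      exact ⟨t, ht.le, ht2.symm⟩
    have key : ∀ a, 0 ≤ a → a < s0 → f (l s0) ∈ l '' Ici a := by
      intro a ha has
      have hfr : ∃ᶠ x in 𝓝 s0, x ∈ {s : ℝ | 0 ≤ s ∧ f (l s) ∈ l '' Ici s} :=
        mem_closure_iff_frequently.1 hs0
      have hev : ∀ᶠ x in 𝓝 s0, a < x := lt_mem_nhds has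
      have hfr2 : ∃ᶠ x in 𝓝 s0, f (l x) ∈ l '' Ici a := by
        refine (hfr.and_eventually hev).mono ?_
        rintro x ⟨⟨_, t, ht, hxt⟩, hax⟩
        exact ⟨t, le_trans hax.le ht, hxt⟩
      have hmem : f (l s0) ∈ closure (l '' Ici a) :=
        mem_closure_of_frequently_of_tendsto hfr2 (hcont.tendsto s0)
      have h2 : f (l s0) ∈ l '' Ici a ∪ L := by
        have := closure_mono (subset_union_left (s := l '' Ici a) (t := L)) hmem
        rwa [(tail_closed_aux hl a).closure_eq] at this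
      rcases h2 with h | h
      · exact h
      · exact absurd h (hLT _ (hT _ (hlT _ hs0')))
    obtain ⟨t, ht, hft⟩ := key 0 le_rfl hpos
    refine ⟨t, ?_, hft⟩
    rw [mem_Ici]
    by_contra hlt
    push Not at hlt
    have ht0 : (0:ℝ) ≤ t := ht
    obtain ⟨t', ht', hft'⟩ := key ((t + s0) / 2) (by linarith) (by linarith)
    have ht'0 : (t + s0) / 2 ≤ t' := ht'
    have : t = t' := hl.inj ht (by show (0:ℝ) ≤ t'; linarith) (hft.trans hft'.symm)
    linarith
  have hC2 : IsClosed ({s : ℝ | 0 ≤ s ∧ f (l s) ∈ M} ∪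
      {s : ℝ | ∃ t, 0 ≤ t ∧ t ≤ s ∧ f (l s) = l t}) := by
    apply IsClosed.union
    · exact isClosed_Ici.inter (hM.preimage hcont)
    · apply isClosed_of_closure_subset
      intro s0 hs0
      rw [mem_closure_iff_seq_limit] at hs0
      obtain ⟨x, hx, hxs⟩ := hs0
      choose t ht0 htx hft using hx
      obtain ⟨B, hB⟩ := hxs.bddAbove_range
      have hB' : ∀ n, x n ≤ B := fun n => hB ⟨n, rfl⟩
      obtain ⟨t', _, φ, hφ, hφt⟩ := (isCompact_Icc (a := (0:ℝ)) (b := B)).tendsto_subseq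
        (fun n => (⟨ht0 n, (htx n).trans (hB' n)⟩ : t n ∈ Icc 0 B))
      have hxφ : Tendsto (fun n => x (φ n)) atTop (𝓝 s0) := hxs.comp hφ.tendsto_atTop
      have hφt' : Tendsto (fun n => t (φ n)) atTop (𝓝 t') := hφt
      refine ⟨t', ge_of_tendsto' hφt' (fun n => ht0 _), le_of_tendsto_of_tendsto' hφt' hxφ
        (fun n => htx _), ?_⟩
      have e1 : Tendsto (fun n => f (l (x (φ n)))) atTop (𝓝 (f (l s0))) :=
        (hcont.tendsto s0).comp hxφ
      have e2 : Tendsto (fun n => l (t (φ n))) atTop (𝓝 (l t')) :=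
        (hl.cont.tendsto t').comp hφt'
      have e3 : (fun n => f (l (x (φ n)))) = fun n => l (t (φ n)) := by
        funext n; exact hft _
      rw [e3] at e1
      exact tendsto_nhds_unique e1 e2
  have hall : ∀ s : ℝ, 0 ≤ s → ∃ t, s < t ∧ f (l s) = l t := by
    have hcovs : Ici (0:ℝ) ⊆ {s : ℝ | 0 ≤ s ∧ f (l s) ∈ l '' Ici s} ∪
        ({s : ℝ | 0 ≤ s ∧ f (l s) ∈ M} ∪ {s : ℝ | ∃ t, 0 ≤ t ∧ t ≤ s ∧ f (l s) = l t}) := by
      intro s hs
      rcases hcov _ (hT _ (hlT s hs)) with ⟨t, ht, hft⟩ | h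
      · rcases le_total s t with h | h
        · exact Or.inl ⟨hs, t, h, hft⟩
        · exact Or.inr (Or.inr ⟨t, ht, h, hft.symm⟩)
      · exact Or.inr (Or.inl ⟨hs, h⟩)
    have hconn : IsPreconnected (Ici (0:ℝ)) := isPreconnected_Ici
    rw [isPreconnected_closed_iff] at hconn
    have hne1 : (Ici (0:ℝ) ∩ {s : ℝ | 0 ≤ s ∧ f (l s) ∈ l '' Ici s}).Nonempty := by
      obtain ⟨t, ht, hft⟩ := h0
      exact ⟨0, self_mem_Ici, le_rfl, t, ht.le, hft.symm⟩
    have hempty : ¬ (Ici (0:ℝ) ∩ ({s : ℝ | 0 ≤ s ∧ f (l s) ∈ M} ∪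
        {s : ℝ | ∃ t, 0 ≤ t ∧ t ≤ s ∧ f (l s) = l t})).Nonempty := by
      intro hne2
      obtain ⟨s, hs, ⟨_, t, ht, hft⟩, h2⟩ := hconn _ _ hC1 hC2 hcovs hne1 hne2
      have hs' : (0:ℝ) ≤ s := hs
      have ht' : s ≤ t := ht
      rcases h2 with ⟨_, hMs⟩ | ⟨t2, ht20, ht2s, hft2⟩
      · rw [← hft] at hMs
        have htle : ¬ 0 < t := fun hp => hMl t hp hMs
        have e : t = s := by linarith
        rw [e] at hft
        exact hfix _ hft.symm
      · have e : t = t2 := hl.inj (by show (0:ℝ) ≤ t; linarith) ht20 (hft.trans hft2)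
        have e2 : t = s := by linarith
        rw [e2] at hft
        exact hfix _ hft.symm
    intro s hs
    rcases hcovs hs with ⟨_, t, ht, hft⟩ | h
    · have ht' : s ≤ t := ht
      rcases ht'.eq_or_lt with e | h
      · subst e; exact absurd hft.symm (hfix _)
      · exact ⟨t, h, hft.symm⟩
    · exact absurd ⟨s, hs, h⟩ hempty
  have hall' : ∀ s : ℝ, ∃ t, 0 ≤ s → s < t ∧ f (l s) = l t := by
    intro s
    by_cases hs : 0 ≤ s
    · obtain ⟨t, ht⟩ := hall s hs
      exact ⟨t, fun _ => ht⟩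
    · exact ⟨0, fun h => absurd h hs⟩
  choose φ hφ using hall'
  intro z hz
  rw [← hl.clus] at hz ⊢
  have h1 : MapClusterPt (f z) atTop (f ∘ l) := hz.continuousAt_comp f.continuous.continuousAt
  have hev : (f ∘ l) =ᶠ[atTop] (l ∘ φ) := by
    filter_upwards [eventually_ge_atTop (0:ℝ)] with s hs
    exact (hφ s hs).2
  have hφt : Tendsto φ atTop atTop := by
    apply tendsto_atTop_mono' atTop _ tendsto_id
    filter_upwards [eventually_ge_atTop (0:ℝ)] with s hs
    exact (hφ s hs).1.le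
  have h2 : MapClusterPt (f z) atTop (l ∘ φ) := by
    rw [MapClusterPt] at h1 ⊢
    rwa [Filter.map_congr hev] at h1
  exact h2.of_comp hφt

/-- A self-map of the tripod either has a fixed point or pushes to one of the ends. -/
theorem tripod_map [T2Space K] [CompactSpace K] {w0 w1 p r q1 q2 : ℝ → K}
    (h : Config w0 w1 p r q1 q2) (f : C(K, K))
    (hf : ∀ z ∈ rng r ∪ rng q1 ∪ rng q2, f z ∈ rng r ∪ rng q1 ∪ rng q2) :
    (∃ x, f x = x) ∨ (∀ z ∈ rng w0 ∪ rng w1, f z ∈ rng w0 ∪ rng w1) ∨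
      (∀ z ∈ p '' Icc 2 3, f z ∈ p '' Icc 2 3) ∨ (∀ z ∈ p '' Icc 0 1, f z ∈ p '' Icc 0 1) := by
  by_cases hfix : ∃ x, f x = x
  · exact Or.inl hfix
  right
  push Not at hfix
  have closed_rng : ∀ {j : ℝ → K} {L : Set K}, IsRay j L → IsClosed (rng j ∪ L) := by
    intro j L hj
    exact tail_closed_aux hj 0
  -- the cluster sets miss the tripod
  have hT : ∀ z ∈ rng r ∪ rng q1 ∪ rng q2, z ∉ rng w0 ∪ rng w1 := by
    rintro z ((⟨s, hs, rfl⟩ | ⟨s, hs, rfl⟩) | ⟨s, hs, rfl⟩)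
    · exact h.hr.disj s hs
    · exact h.dq1w s hs
    · exact h.dq2w s hs
  have hTp : ∀ z ∈ rng r ∪ rng q1 ∪ rng q2, ∀ t, 0 ≤ t → z ≠ p t := by
    rintro z ((⟨s, hs, rfl⟩ | ⟨s, hs, rfl⟩) | ⟨s, hs, rfl⟩) t ht
    · exact h.drp s t hs ht
    · exact h.dq1p s t hs ht
    · exact h.dq2p s t hs ht
  have hT1 : ∀ z ∈ rng r ∪ rng q1 ∪ rng q2, z ∉ p '' Icc 2 3 := by
    rintro z hz ⟨t, ht, hpt⟩
    exact hTp z hz t (by linarith [ht.1]) hpt.symm
  have hT2 : ∀ z ∈ rng r ∪ rng q1 ∪ rng q2, z ∉ p '' Icc 0 1 := by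
    rintro z hz ⟨t, ht, hpt⟩
    exact hTp z hz t ht.1 hpt.symm
  have hrT : ∀ s, 0 ≤ s → r s ∈ rng r ∪ rng q1 ∪ rng q2 := fun s hs => Or.inl (Or.inl ⟨s, hs, rfl⟩)
  have hq1T : ∀ s, 0 ≤ s → q1 s ∈ rng r ∪ rng q1 ∪ rng q2 :=
    fun s hs => Or.inl (Or.inr ⟨s, hs, rfl⟩)
  have hq2T : ∀ s, 0 ≤ s → q2 s ∈ rng r ∪ rng q1 ∪ rng q2 := fun s hs => Or.inr ⟨s, hs, rfl⟩
  have hc := hf (r 0) (hrT 0 le_rfl)
  rcases hc with (⟨t, ht, hft⟩ | ⟨t, ht, hft⟩) | ⟨t, ht, hft⟩
  · left
    have ht0 : (0:ℝ) ≤ t := ht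
    have htp : 0 < t := by
      rcases ht0.eq_or_lt with e | h'
      · subst e; exact absurd hft.symm (hfix _)
      · exact h'
    refine leg_push_aux (T := rng r ∪ rng q1 ∪ rng q2) h.hr
      ((closed_rng h.hq1).union (closed_rng h.hq2)) f hf hrT ?_ hT ?_ hfix ⟨t, htp, hft.symm⟩
    · rintro z ((hz | hz) | hz)
      · exact Or.inl hz
      · exact Or.inr (Or.inl (Or.inl hz))
      · exact Or.inr (Or.inr (Or.inl hz))
    · rintro s hs ((⟨u, hu, hu2⟩ | hz) | (⟨u, hu, hu2⟩ | hz))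
      · exact hs.ne' (h.drq1 s u hs.le hu hu2.symm).1
      · exact hT1 _ (hrT s hs.le) hz
      · exact hs.ne' (h.drq2 s u hs.le hu hu2.symm).1
      · exact hT2 _ (hrT s hs.le) hz
  · right; left
    have ht0 : (0:ℝ) ≤ t := ht
    have htp : 0 < t := by
      rcases ht0.eq_or_lt with e | h'
      · subst e
        rw [h.c1] at hft
        exact absurd hft.symm (hfix _)
      · exact h'
    refine leg_push_aux (T := rng r ∪ rng q1 ∪ rng q2) h.hq1
      ((closed_rng h.hr).union (closed_rng h.hq2)) f hf hq1T ?_ hT1 ?_ hfix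
      ⟨t, htp, by rw [h.c1]; exact hft.symm⟩
    · rintro z ((hz | hz) | hz)
      · exact Or.inr (Or.inl (Or.inl hz))
      · exact Or.inl hz
      · exact Or.inr (Or.inr (Or.inl hz))
    · rintro s hs ((⟨u, hu, hu2⟩ | hz) | (⟨u, hu, hu2⟩ | hz))
      · exact hs.ne' (h.drq1 u s hu hs.le hu2).2
      · exact hT _ (hq1T s hs.le) hz
      · exact hs.ne' (h.dq12 s u hs.le hu hu2.symm).1
      · exact hT2 _ (hq1T s hs.le) hz
  · right; right
    have ht0 : (0:ℝ) ≤ t := ht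
    have htp : 0 < t := by
      rcases ht0.eq_or_lt with e | h'
      · subst e
        rw [h.c2] at hft
        exact absurd hft.symm (hfix _)
      · exact h'
    refine leg_push_aux (T := rng r ∪ rng q1 ∪ rng q2) h.hq2
      ((closed_rng h.hr).union (closed_rng h.hq1)) f hf hq2T ?_ hT2 ?_ hfix
      ⟨t, htp, by rw [h.c2]; exact hft.symm⟩
    · rintro z ((hz | hz) | hz)
      · exact Or.inr (Or.inl (Or.inl hz))
      · exact Or.inr (Or.inr (Or.inl hz))
      · exact Or.inl hz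
    · rintro s hs ((⟨u, hu, hu2⟩ | hz) | (⟨u, hu, hu2⟩ | hz))
      · exact hs.ne' (h.drq2 u s hu hs.le hu2).2
      · exact hT _ (hq2T s hs.le) hz
      · exact hs.ne' (h.dq12 u s hu hs.le hu2).2
      · exact hT1 _ (hq2T s hs.le) hz

end Pool.Bing
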