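import Pool.Agent.Helper257.Bing.Defs
import Pool.Agent.Helper257.Bing.P_ray_lift
import Pool.Agent.Helper257.Bing.P_ray_closed
import Pool.Agent.Helper257.Bing.P_ray_tendsto
import Pool.Agent.Helper257.Bing.P_pieces
import Pool.Agent.Helper257.Bing.P_ray_map
import Pool.Agent.Helper257.Bing.P_tripod_map
import Pool.Agent.Helper257.Bing.P_arc_map
import Pool.Agent.Helper257.Bing.P_tripod_end
import Pool.Agent.Helper257.Bing.P_no_shift
import Pool.Agent.Helper257.Bing.P_angle_shift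

set_option autoImplicit false
open Set Filter Topology

namespace Pool.Bing


variable {K : Type*} [TopologicalSpace K]


/-! TARGET: prove this theorem (add helper lemmas before it if you like; keep the statement) -/

theorem fpp_clus_map {j : ℝ → K} {L : Set K} (hj : IsRay j L) (f : C(K, K)) {A : Set K}
    (hA : IsClosed A) (h : ∀ s, 0 ≤ s → f (j s) ∈ A) : ∀ z ∈ L, f z ∈ A := by
  intro z hz
  by_contra hcon
  have h1 : MapClusterPt z atTop j := (hj.clus z).mpr hz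
  have h2 : (f ⁻¹' A)ᶜ ∈ 𝓝 z := ((hA.preimage f.continuous).isOpen_compl).mem_nhds hcon
  have h3 : ∃ᶠ s in atTop, j s ∈ (f ⁻¹' A)ᶜ := mapClusterPt_iff_frequently.mp h1 _ h2
  obtain ⟨s, hs1, hs2⟩ := (h3.and_eventually (eventually_ge_atTop 0)).exists
  exact hs1 (h s hs2)

theorem fpp_cl_img [T2Space K] [CompactSpace K] {j : ℝ → K} {L : Set K} (hj : IsRay j L)
    (f : C(K, K)) {z : K}
    (hz : MapClusterPt z atTop (fun s => f (j (max s 0)))) : ∃ x ∈ L, f x = z := by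
  rw [mapClusterPt_iff_ultrafilter] at hz
  obtain ⟨U, hU, hlim⟩ := hz
  have hlim' : Tendsto (fun s => f (j s)) U (𝓝 z) := by
    refine hlim.congr' ?_
    filter_upwards [(eventually_ge_atTop (0 : ℝ)).filter_mono hU] with s hs
    rw [max_eq_left hs]
  obtain ⟨x, -, hx⟩ := isCompact_univ.ultrafilter_le_nhds (U.map j) (by simp)
  have hx' : Tendsto j U (𝓝 x) := hx
  refine ⟨x, (hj.clus x).mp ?_, ?_⟩
  · rw [mapClusterPt_iff_ultrafilter]
    exact ⟨U, hU, hx'⟩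
  · exact tendsto_nhds_unique ((f.continuous.tendsto x).comp hx') hlim'

theorem fpp_img_cl {j : ℝ → K} {L : Set K} (hj : IsRay j L) (f : C(K, K)) {z : K} (hz : z ∈ L) :
    MapClusterPt (f z) atTop (fun s => f (j (max s 0))) := by
  have h1 : MapClusterPt z atTop j := (hj.clus z).mpr hz
  rw [mapClusterPt_iff_ultrafilter] at h1 ⊢
  obtain ⟨U, hU, hlim⟩ := h1
  refine ⟨U, hU, ?_⟩
  have h2 : Tendsto (fun s => f (j s)) U (𝓝 (f z)) := (f.continuous.tendsto z).comp hlim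
  refine h2.congr' ?_
  filter_upwards [(eventually_ge_atTop (0 : ℝ)).filter_mono hU] with s hs
  rw [max_eq_left hs]

theorem fpp_of_leg {γ j : ℝ → K} {φ : ℝ → ℝ} (hφ : Tendsto φ atTop atTop) {N : ℝ}
    (h : ∀ t, N ≤ t → γ t = j (φ t)) {z : K} (hz : MapClusterPt z atTop γ) :
    MapClusterPt z atTop j := by
  rw [mapClusterPt_iff_ultrafilter] at hz ⊢
  obtain ⟨U, hU, hlim⟩ := hz
  refine ⟨U.map φ, hφ.mono_left hU, ?_⟩
  have : Tendsto (j ∘ φ) U (𝓝 z) := by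
    refine hlim.congr' ?_
    filter_upwards [(eventually_ge_atTop N).filter_mono hU] with s hs
    exact h s hs
  exact this

theorem fpp_exists_cl [CompactSpace K] (γ : ℝ → K) : ∃ z, MapClusterPt z atTop γ := by
  obtain ⟨z, hz⟩ := exists_clusterPt_of_compactSpace (map γ atTop)
  exact ⟨z, hz⟩

theorem fpp_rng {j : ℝ → K} {f : C(K, K)} {A : Set K} (h : ∀ t, f (j (max t 0)) ∈ A) :
    MapsTo f (rng j) A := by
  rintro _ ⟨s, hs, rfl⟩
  have := h s
  rwa [max_eq_left (show (0 : ℝ) ≤ s from hs)] at this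

theorem fpp_path_cont {j : ℝ → K} (hj : Continuous j) (f : C(K, K)) :
    Continuous (fun s => f (j (max s 0))) :=
  f.continuous.comp (hj.comp (continuous_id.max continuous_const))

theorem fpp_mem {j : ℝ → K} {s : ℝ} (hs : 0 ≤ s) : j s ∈ rng j := ⟨s, hs, rfl⟩

theorem fpp_arc_sub {j : ℝ → K} {a b : ℝ} (ha : 0 ≤ a) : j '' Icc a b ⊆ rng j :=
  image_mono fun _ hx => ha.trans hx.1

theorem fpp_same {α β : Type*} {g : α → β} {R : Set α} {A1 A2 A3 A4 A : Set β}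
    (pc : MapsTo g R A1 ∨ MapsTo g R A2 ∨ MapsTo g R A3 ∨ MapsTo g R A4) {z : α} (hz : z ∈ R)
    (d : (g z ∈ A1 → g z ∈ A2 → False) ∧ (g z ∈ A1 → g z ∈ A3 → False) ∧
      (g z ∈ A1 → g z ∈ A4 → False) ∧ (g z ∈ A2 → g z ∈ A3 → False) ∧
      (g z ∈ A2 → g z ∈ A4 → False) ∧ (g z ∈ A3 → g z ∈ A4 → False))
    (hA : A = A1 ∨ A = A2 ∨ A = A3 ∨ A = A4) (hzA : g z ∈ A) : MapsTo g R A := by
  obtain ⟨x1, x2, x3, x4, x5, x6⟩ := d
  rcases pc with h1 | h1 | h1 | h1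
  · have h2 := h1 hz
    rcases hA with rfl | rfl | rfl | rfl
    · exact h1
    · exact (x1 h2 hzA).elim
    · exact (x2 h2 hzA).elim
    · exact (x3 h2 hzA).elim
  · have h2 := h1 hz
    rcases hA with rfl | rfl | rfl | rfl
    · exact (x1 hzA h2).elim
    · exact h1
    · exact (x4 h2 hzA).elim
    · exact (x5 h2 hzA).elim
  · have h2 := h1 hz
    rcases hA with rfl | rfl | rfl | rfl
    · exact (x2 hzA h2).elim
    · exact (x4 hzA h2).elim
    · exact h1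
    · exact (x6 h2 hzA).elim
  · have h2 := h1 hz
    rcases hA with rfl | rfl | rfl | rfl
    · exact (x3 hzA h2).elim
    · exact (x5 hzA h2).elim
    · exact (x6 hzA h2).elim
    · exact h1

/-- the angle part -/
theorem fpp_angle [T2Space K] [CompactSpace K] {j1 j2 : ℝ → K} {L : Set K} (h1 : IsRay j1 L)
    (hj2 : Continuous j2) (Θ : K → ℂ) (hΘ : Continuous Θ) (l1 l2 : ℝ → ℝ) (hl1 : Continuous l1)
    (hl2 : Continuous l2)
    (e1 : ∀ s, 0 ≤ s → Θ (j1 s) = Complex.exp ((Real.pi * l1 s : ℝ) * Complex.I))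
    (e2 : ∀ s, 0 ≤ s → Θ (j2 s) = Complex.exp ((Real.pi * l2 s : ℝ) * Complex.I))
    (f : C(K, K)) (hfL : ∀ z ∈ L, Θ (f z) ≠ Θ z) (N : ℝ) (φ : ℝ → ℝ) (hφ : Continuous φ)
    (ht : Tendsto φ atTop atTop)
    (hφ0 : ∀ t, 0 ≤ φ t) (hf : ∀ t, N ≤ t → f (j1 (max t 0)) = j2 (φ t)) (m1 m2 : ℝ)
    (hm : (m1 = 7 ∧ m2 = 15) ∨ (m1 = 15 ∧ m2 = 7))
    (a1 : ∃ c : ℝ, ∀ s, 5 ≤ s → |l1 s - (s + m1 * om s) - c| ≤ 1)
    (a2 : ∃ c : ℝ, ∀ s, 5 ≤ s → |l2 s - (s + m2 * om s) - c| ≤ 1) : False := by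
  obtain ⟨c, M, hM⟩ := angle_shift h1 hj2 Θ hΘ l1 l2 hl1 hl2 e1 e2 f hfL (max N 0) φ hφ hφ0
    (fun t ht' => by
      have h1 := hf t ((le_max_left _ _).trans ht')
      rwa [max_eq_left ((le_max_right _ _).trans ht')] at h1)
  obtain ⟨c1, hc1⟩ := a1
  obtain ⟨c2, hc2⟩ := a2
  obtain ⟨M2, hM2⟩ := eventually_atTop.mp (ht.eventually_ge_atTop 5)
  refine no_shift m1 m2 (c + c1 - c2) hm φ hφ ht (max (max M 5) M2) fun s hs => ?_
  have b1 := abs_le.mp (hM s (((le_max_left _ _).trans (le_max_left _ _)).trans hs))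
  have b2 := abs_le.mp (hc1 s (((le_max_right _ _).trans (le_max_left _ _)).trans hs))
  have b3 := abs_le.mp (hc2 (φ s) (hM2 s ((le_max_right _ _).trans hs)))
  rw [abs_le]
  constructor <;> linarith [b1.1, b1.2, b2.1, b2.2, b3.1, b3.2]

/-- The abstract fixed point theorem. -/
theorem fpp [T2Space K] [CompactSpace K] {w0 w1 p r q1 q2 : ℝ → K}
    (h : Config w0 w1 p r q1 q2) (Θ : K → ℂ) (lp lr : ℝ → ℝ) (ha : Angles w0 w1 p r Θ lp lr)
    (f : C(K, K)) : ∃ x, f x = x := by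
  by_contra hnf
  set C : Set K := rng w0 ∪ rng w1 with hC
  set P : Set K := rng p with hP
  set T : Set K := rng r ∪ rng q1 ∪ rng q2 with hT
  -- disjointness
  have dCP : ∀ z, z ∈ C → z ∈ P → False := by
    rintro _ hz ⟨s, hs, rfl⟩
    exact h.hp.disj s hs hz
  have dCT : ∀ z, z ∈ C → z ∈ T → False := by
    rintro z hz ((⟨s, hs, rfl⟩ | ⟨s, hs, rfl⟩) | ⟨s, hs, rfl⟩)
    · exact h.hr.disj s hs hz
    · exact h.dq1w s hs hz
    · exact h.dq2w s hs hz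
  have dPT : ∀ z, z ∈ P → z ∈ T → False := by
    rintro _ ⟨t, ht, rfl⟩ ((⟨s, hs, e⟩ | ⟨s, hs, e⟩) | ⟨s, hs, e⟩)
    · exact h.drp s t hs ht e
    · exact h.dq1p s t hs ht e
    · exact h.dq2p s t hs ht e
  have d01 : ∀ z, z ∈ rng w0 → z ∈ rng w1 → False := by
    rintro _ ⟨s, hs, rfl⟩ ⟨t, ht, e⟩
    exact h.d01 s t hs ht e.symm
  have m0C : ∀ z, z ∈ rng w0 → z ∈ C := fun z hz => Or.inl hz
  have m1C : ∀ z, z ∈ rng w1 → z ∈ C := fun z hz => Or.inr hz
  -- closed sets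
  have clP : IsClosed (P ∪ C) := ray_closed h.hp le_rfl
  have cl0 : IsClosed (rng w0 ∪ w1 '' Icc 0 1) := ray_closed h.hw0 le_rfl
  have cl1 : IsClosed (rng w1 ∪ w0 '' Icc 0 1) := ray_closed h.hw1 le_rfl
  have arc0 : IsClosed (w0 '' Icc (0 : ℝ) 1) := (isCompact_Icc.image h.hw0.cont).isClosed
  have arc1 : IsClosed (w1 '' Icc (0 : ℝ) 1) := (isCompact_Icc.image h.hw1.cont).isClosed
  have sub0 : w0 '' Icc (0 : ℝ) 1 ⊆ rng w0 := fpp_arc_sub le_rfl
  have sub1 : w1 '' Icc (0 : ℝ) 1 ⊆ rng w1 := fpp_arc_sub le_rfl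
  have subp2 : p '' Icc (2 : ℝ) 3 ⊆ P := fpp_arc_sub (by norm_num)
  have subp0 : p '' Icc (0 : ℝ) 1 ⊆ P := fpp_arc_sub le_rfl
  have inj0 : InjOn w0 (Icc 0 1) := h.hw0.inj.mono fun x hx => hx.1
  have inj1 : InjOn w1 (Icc 0 1) := h.hw1.inj.mono fun x hx => hx.1
  have injp : InjOn p (Icc 2 3) := h.hp.inj.mono fun x hx => le_trans (by norm_num) hx.1
  have noarc0 : ¬ ∀ z ∈ w0 '' Icc (0 : ℝ) 1, f z ∈ w0 '' Icc (0 : ℝ) 1 := fun hh =>
    hnf (arc_map h.hw0.cont zero_le_one inj0 f hh)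
  have noarc1 : ¬ ∀ z ∈ w1 '' Icc (0 : ℝ) 1, f z ∈ w1 '' Icc (0 : ℝ) 1 := fun hh =>
    hnf (arc_map h.hw1.cont zero_le_one inj1 f hh)
  have noarcp : ¬ ∀ z ∈ p '' Icc (2 : ℝ) 3, f z ∈ p '' Icc (2 : ℝ) 3 := fun hh =>
    hnf (arc_map h.hp.cont (by norm_num) injp f hh)
  -- pieces
  have pc : ∀ j : ℝ → K, Continuous j → MapsTo f (rng j) (rng w0) ∨ MapsTo f (rng j) (rng w1) ∨
      MapsTo f (rng j) P ∨ MapsTo f (rng j) T := by
    intro j hj
    rcases pieces h _ (fpp_path_cont hj f) with h1 | h1 | h1 | h1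
    · exact Or.inl (fpp_rng h1)
    · exact Or.inr (Or.inl (fpp_rng h1))
    · exact Or.inr (Or.inr (Or.inl (fpp_rng h1)))
    · exact Or.inr (Or.inr (Or.inr (fpp_rng h1)))
  have e1 : q1 0 = r 0 := h.c1
  have e2 : q2 0 = r 0 := h.c2
  have r0r : r 0 ∈ rng r := fpp_mem le_rfl
  have r0q1 : r 0 ∈ rng q1 := by rw [← e1]; exact fpp_mem le_rfl
  have r0q2 : r 0 ∈ rng q2 := by rw [← e2]; exact fpp_mem le_rfl
  have dall : ∀ z : K, (z ∈ rng w0 → z ∈ rng w1 → False) ∧ (z ∈ rng w0 → z ∈ P → False) ∧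
      (z ∈ rng w0 → z ∈ T → False) ∧ (z ∈ rng w1 → z ∈ P → False) ∧
      (z ∈ rng w1 → z ∈ T → False) ∧ (z ∈ P → z ∈ T → False) := fun z =>
    ⟨d01 z, fun a b => dCP z (m0C z a) b, fun a b => dCT z (m0C z a) b,
      fun a b => dCP z (m1C z a) b, fun a b => dCT z (m1C z a) b, dPT z⟩
  have same : ∀ (j : ℝ → K), Continuous j → r 0 ∈ rng j → ∀ A : Set K,
      (A = rng w0 ∨ A = rng w1 ∨ A = P ∨ A = T) → f (r 0) ∈ A → MapsTo f (rng j) A := by
    intro j hj hr0 A hA hfr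
    exact fpp_same (pc j hj) hr0 (dall (f (r 0))) hA hfr
  have pcT : MapsTo f T (rng w0) ∨ MapsTo f T (rng w1) ∨ MapsTo f T P ∨ MapsTo f T T := by
    have key : ∀ A : Set K, (A = rng w0 ∨ A = rng w1 ∨ A = P ∨ A = T) → MapsTo f (rng r) A →
        MapsTo f T A := by
      intro A hA h1
      have h2 := h1 r0r
      have h3 := same q1 h.hq1.cont r0q1 A hA h2
      have h4 := same q2 h.hq2.cont r0q2 A hA h2
      exact (h1.union h3).union h4
    rcases pc r h.hr.cont with h1 | h1 | h1 | h1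
    · exact Or.inl (key _ (Or.inl rfl) h1)
    · exact Or.inr (Or.inl (key _ (Or.inr (Or.inl rfl)) h1))
    · exact Or.inr (Or.inr (Or.inl (key _ (Or.inr (Or.inr (Or.inl rfl))) h1)))
    · exact Or.inr (Or.inr (Or.inr (key _ (Or.inr (Or.inr (Or.inr rfl))) h1)))
  have pcP := pc p h.hp.cont
  have pc0 := pc w0 h.hw0.cont
  have pc1 := pc w1 h.hw1.cont
  have rT : rng r ⊆ T := fun z hz => Or.inl (Or.inl hz)
  have q1T : rng q1 ⊆ T := fun z hz => Or.inl (Or.inr hz)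
  have q2T : rng q2 ⊆ T := fun z hz => Or.inr hz
  have p2P : p 2 ∈ P := fpp_mem (by norm_num)
  have w00 : w0 0 ∈ rng w0 := fpp_mem le_rfl
  have w10 : w1 0 ∈ rng w1 := fpp_mem le_rfl
  -- (a)
  have a0 : ¬ MapsTo f (rng w0) (rng w0) := by
    intro hm
    rcases ray_map h.hw0 f (fun s hs => hm (fpp_mem hs)) with h1 | ⟨-, h1⟩
    · exact hnf h1
    · exact noarc1 h1
  have a1 : ¬ MapsTo f (rng w1) (rng w1) := by
    intro hm
    rcases ray_map h.hw1 f (fun s hs => hm (fpp_mem hs)) with h1 | ⟨-, h1⟩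
    · exact hnf h1
    · exact noarc0 h1
  -- (b)
  have b0 : ¬ ∀ z ∈ C, f z ∈ rng w0 ∪ w1 '' Icc (0 : ℝ) 1 := by
    intro hh
    have h0 : MapsTo f (rng w0) (rng w1) := by
      have h2 := hh _ (m0C _ w00)
      have h3 : f (w0 0) ∈ C := h2.elim (m0C _) (fun x => m1C _ (sub1 x))
      rcases pc0 with h1 | h1 | h1 | h1
      · exact absurd h1 a0
      · exact h1
      · exact (dCP _ h3 (h1 w00)).elim
      · exact (dCT _ h3 (h1 w00)).elim
    apply noarc1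
    refine fpp_clus_map h.hw0 f arc1 fun s hs => ?_
    rcases hh _ (m0C _ (fpp_mem hs)) with h2 | h2
    · exact (d01 _ h2 (h0 (fpp_mem hs))).elim
    · exact h2
  have b1 : ¬ ∀ z ∈ C, f z ∈ rng w1 ∪ w0 '' Icc (0 : ℝ) 1 := by
    intro hh
    have h0 : MapsTo f (rng w1) (rng w0) := by
      have h2 := hh _ (m1C _ w10)
      have h3 : f (w1 0) ∈ C := h2.elim (m1C _) (fun x => m0C _ (sub0 x))
      rcases pc1 with h1 | h1 | h1 | h1
      · exact h1
      · exact absurd h1 a1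
      · exact (dCP _ h3 (h1 w10)).elim
      · exact (dCT _ h3 (h1 w10)).elim
    apply noarc0
    refine fpp_clus_map h.hw1 f arc0 fun s hs => ?_
    rcases hh _ (m1C _ (fpp_mem hs)) with h2 | h2
    · exact (d01 _ (h0 (fpp_mem hs)) h2).elim
    · exact h2
  have bP : MapsTo f P P ∨ MapsTo f P T := by
    rcases pcP with h1 | h1 | h1 | h1
    · exact absurd (fpp_clus_map h.hp f cl0 fun s hs => Or.inl (h1 (fpp_mem hs))) b0
    · exact absurd (fpp_clus_map h.hp f cl1 fun s hs => Or.inl (h1 (fpp_mem hs))) b1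
    · exact Or.inl h1
    · exact Or.inr h1
  have bT : MapsTo f T P ∨ MapsTo f T T := by
    rcases pcT with h1 | h1 | h1 | h1
    · exact absurd (fpp_clus_map h.hr f cl0 fun s hs => Or.inl (h1 (rT (fpp_mem hs)))) b0
    · exact absurd (fpp_clus_map h.hr f cl1 fun s hs => Or.inl (h1 (rT (fpp_mem hs)))) b1
    · exact Or.inl h1
    · exact Or.inr h1
  -- (c)
  have cP : ¬ MapsTo f C P := by
    intro hm
    rcases bP with h1 | h1
    · rcases ray_map h.hp f (fun s hs => h1 (fpp_mem hs)) with h2 | ⟨-, h2⟩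
      · exact hnf h2
      · exact dCP _ (h2 _ (m0C _ w00)) (hm (m0C _ w00))
    · rcases bT with h2 | h2
      · have h3 := fpp_clus_map h.hq1 f clP (fun s hs => Or.inl (h2 (q1T (fpp_mem hs)))) (p 2)
          ⟨2, ⟨le_rfl, by norm_num⟩, rfl⟩
        rcases h3 with h3 | h3
        · exact dPT _ h3 (h1 p2P)
        · exact dCT _ h3 (h1 p2P)
      · rcases tripod_map h f h2 with h3 | h3 | h3 | h3
        · exact hnf h3
        · exact dCP _ (h3 _ (m0C _ w00)) (hm (m0C _ w00))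
        · exact dPT _ (subp2 (h3 (p 2) ⟨2, ⟨le_rfl, by norm_num⟩, rfl⟩)) (h1 p2P)
        · exact dPT _ (subp0 (h3 (p 0) ⟨0, ⟨le_rfl, by norm_num⟩, rfl⟩)) (h1 (fpp_mem le_rfl))
  have cT : ¬ MapsTo f C T := by
    intro hm
    rcases bP with h1 | h1
    · rcases fpp_clus_map h.hp f clP (fun s hs => Or.inl (h1 (fpp_mem hs))) _ (m0C _ w00)
        with h3 | h3
      · exact dPT _ h3 (hm (m0C _ w00))
      · exact dCT _ h3 (hm (m0C _ w00))
    · rcases bT with h2 | h2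
      · rcases fpp_clus_map h.hr f clP (fun s hs => Or.inl (h2 (rT (fpp_mem hs)))) _ (m0C _ w00)
          with h3 | h3
        · exact dPT _ h3 (hm (m0C _ w00))
        · exact dCT _ h3 (hm (m0C _ w00))
      · rcases tripod_map h f h2 with h3 | h3 | h3 | h3
        · exact hnf h3
        · exact dCT _ (h3 _ (m0C _ w00)) (hm (m0C _ w00))
        · exact dPT _ (subp2 (h3 (p 2) ⟨2, ⟨le_rfl, by norm_num⟩, rfl⟩)) (h1 p2P)
        · exact dPT _ (subp0 (h3 (p 0) ⟨0, ⟨le_rfl, by norm_num⟩, rfl⟩)) (h1 (fpp_mem le_rfl))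
  have w00a : w0 0 ∈ w0 '' Icc (0 : ℝ) 1 := ⟨0, ⟨le_rfl, zero_le_one⟩, rfl⟩
  have w10a : w1 0 ∈ w1 '' Icc (0 : ℝ) 1 := ⟨0, ⟨le_rfl, zero_le_one⟩, rfl⟩
  -- if w1 is mapped to w0 then w0 0 is mapped to C, etc
  have c10 : MapsTo f (rng w1) (rng w0) → f (w0 0) ∈ C := by
    intro h1
    rcases fpp_clus_map h.hw1 f cl0 (fun s hs => Or.inl (h1 (fpp_mem hs))) _ w00a with h2 | h2
    · exact m0C _ h2
    · exact m1C _ (sub1 h2)
  have c01 : MapsTo f (rng w0) (rng w1) → f (w1 0) ∈ C := by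
    intro h1
    rcases fpp_clus_map h.hw0 f cl1 (fun s hs => Or.inl (h1 (fpp_mem hs))) _ w10a with h2 | h2
    · exact m1C _ h2
    · exact m0C _ (sub0 h2)
  have c0P : MapsTo f (rng w0) P → f (w1 0) ∈ P ∪ C := fun h1 =>
    fpp_clus_map h.hw0 f clP (fun s hs => Or.inl (h1 (fpp_mem hs))) _ w10a
  have c1P : MapsTo f (rng w1) P → f (w0 0) ∈ P ∪ C := fun h1 =>
    fpp_clus_map h.hw1 f clP (fun s hs => Or.inl (h1 (fpp_mem hs))) _ w00a
  have d0 : MapsTo f (rng w0) (rng w1) ∧ MapsTo f (rng w1) (rng w0) := by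
    rcases pc0 with h0 | h0 | h0 | h0
    · exact absurd h0 a0
    · rcases pc1 with h1 | h1 | h1 | h1
      · exact ⟨h0, h1⟩
      · exact absurd h1 a1
      · exact (dCP _ (c01 h0) (h1 w10)).elim
      · exact (dCT _ (c01 h0) (h1 w10)).elim
    · rcases pc1 with h1 | h1 | h1 | h1
      · exact (dCP _ (c10 h1) (h0 w00)).elim
      · exact absurd h1 a1
      · exact absurd (h0.union h1) cP
      · rcases c0P h0 with h2 | h2
        · exact (dPT _ h2 (h1 w10)).elim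
        · exact (dCT _ h2 (h1 w10)).elim
    · rcases pc1 with h1 | h1 | h1 | h1
      · exact (dCT _ (c10 h1) (h0 w00)).elim
      · exact absurd h1 a1
      · rcases c1P h1 with h2 | h2
        · exact (dPT _ h2 (h0 w00)).elim
        · exact (dCT _ h2 (h0 w00)).elim
      · exact absurd (h0.union h1) cT
  -- (d)
  have hCC : ∀ z ∈ C, f z ∈ C := by
    rintro z (hz | hz)
    · exact m1C _ (d0.1 hz)
    · exact m0C _ (d0.2 hz)
  have hΘ : ∀ z ∈ C, Θ (f z) ≠ Θ z := by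
    rintro z (⟨s, hs, rfl⟩ | ⟨s, hs, rfl⟩)
    · obtain ⟨t, ht, e⟩ := d0.1 (fpp_mem (j := w0) hs)
      rw [← e]
      exact (ha.ew s t hs ht).symm
    · obtain ⟨t, ht, e⟩ := d0.2 (fpp_mem (j := w1) hs)
      rw [← e]
      exact ha.ew t s ht hs
  -- (e)
  have hPP : MapsTo f P P := by
    refine bP.resolve_right fun hm => ?_
    have hclus : ∀ z, MapClusterPt z atTop (fun s => f (p (max s 0))) → z ∈ C := by
      intro z hz
      obtain ⟨x, hx, rfl⟩ := fpp_cl_img h.hp f hz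
      exact hCC x hx
    obtain ⟨N, φ, hφ, hφt, hφ0, hleg⟩ := tripod_end h _ (fpp_path_cont h.hp.cont f)
      (fun t => hm (fpp_mem (le_max_right _ _)))
      (fun z hz hz' => dCT z (hclus z hz') hz)
    obtain ⟨z, hz⟩ := fpp_exists_cl (fun s => f (p (max s 0)))
    have hzC := hclus z hz
    rcases hleg with hl | hl | hl
    · exact fpp_angle h.hp h.hr.cont Θ ha.hΘ lp lr ha.hlp ha.hlr ha.ep ha.er f hΘ N φ hφ hφt hφ0
        hl 7 15 (Or.inl ⟨rfl, rfl⟩) ha.ap ha.ar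
    · exact dCP z hzC (subp2 ((h.hq1.clus z).mp (fpp_of_leg hφt hl hz)))
    · exact dCP z hzC (subp0 ((h.hq2.clus z).mp (fpp_of_leg hφt hl hz)))
  have hTT : MapsTo f T T := by
    refine bT.resolve_left fun hm => ?_
    have hclus : ∀ z, MapClusterPt z atTop (fun s => f (r (max s 0))) → z ∈ C := by
      intro z hz
      obtain ⟨x, hx, rfl⟩ := fpp_cl_img h.hr f hz
      exact hCC x hx
    obtain ⟨g, hg, hg0, hgp⟩ := ray_lift h.hp _ (fpp_path_cont h.hr.cont f)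
      (fun t => hm (rT (fpp_mem (le_max_right _ _))))
    have hgt := ray_tendsto h.hp.cont g hg0 (fun z hz hz' => by
      have : (fun t => p (g t)) = fun s => f (r (max s 0)) := funext hgp
      rw [this] at hz'
      exact dCP z (hclus z hz') hz)
    exact fpp_angle h.hr h.hp.cont Θ ha.hΘ lr lp ha.hlr ha.hlp ha.er ha.ep f hΘ 0 g hg hgt hg0
      (fun t _ => (hgp t).symm) 15 7 (Or.inr ⟨rfl, rfl⟩) ha.ar ha.ap
  -- (f)
  rcases ray_map h.hp f (fun s hs => hPP (fpp_mem hs)) with h1 | ⟨h1, -⟩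
  · exact hnf h1
  obtain ⟨t, ht, hft⟩ := h1 2 (by norm_num)
  have hclus : ∀ z, MapClusterPt z atTop (fun s => f (q1 (max s 0))) → z ∈ P := by
    intro z hz
    obtain ⟨x, hx, rfl⟩ := fpp_cl_img h.hq1 f hz
    exact hPP (subp2 hx)
  obtain ⟨N, φ, hφ, hφt, hφ0, hleg⟩ := tripod_end h _ (fpp_path_cont h.hq1.cont f)
    (fun t => hTT (q1T (fpp_mem (le_max_right _ _))))
    (fun z hz hz' => dPT z (hclus z hz') hz)
  rcases hleg with hl | hl | hl
  · obtain ⟨z, hz⟩ := fpp_exists_cl (fun s => f (q1 (max s 0)))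
    exact dCP z ((h.hr.clus z).mp (fpp_of_leg hφt hl hz)) (hclus z hz)
  · exact noarcp fun z hz =>
      (h.hq1.clus (f z)).mp (fpp_of_leg hφt hl (fpp_img_cl h.hq1 f hz))
  · have h2 := (h.hq2.clus (f (p 2))).mp (fpp_of_leg hφt hl
      (fpp_img_cl h.hq1 f ⟨2, ⟨le_rfl, by norm_num⟩, rfl⟩))
    obtain ⟨t', ⟨ht0, ht1⟩, e⟩ := h2
    have h3 : t' = t := h.hp.inj (show (0 : ℝ) ≤ t' from ht0)
      (show (0 : ℝ) ≤ t by linarith) (e.trans hft)
    linarith

end Pool.Bing
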