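import Pool.Agent.Helper257.Bing.Defs
import Pool.Agent.Helper257.Bing.P_fpp
import Pool.Agent.Helper257.Bing.P_kap_facts
import Pool.Agent.Helper257.Bing.P_w_facts
import Pool.Agent.Helper257.Bing.P_w_cluster
import Pool.Agent.Helper257.Bing.P_core_compact
import Pool.Agent.Helper257.Bing.P_E_core
import Pool.Agent.Helper257.Bing.P_ee_facts
import Pool.Agent.Helper257.Bing.P_curve_cluster
import Pool.Agent.Helper257.Bing.P_ee_inducing
import Pool.Agent.Helper257.Bing.P_ee_compact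
import Pool.Agent.Helper257.Bing.P_pp_facts
import Pool.Agent.Helper257.Bing.P_rr_facts
import Pool.Agent.Helper257.Bing.P_q_facts
import Pool.Agent.Helper257.Bing.P_disj_facts
import Pool.Agent.Helper257.Bing.P_dd_facts

set_option autoImplicit false
open Set Filter Topology

namespace Pool.Bing


variable {K : Type*} [TopologicalSpace K]


/-! TARGET: prove this theorem (add helper lemmas before it if you like; keep the statement) -/

/-- Cluster points of a composition with a map continuous on a compact set. -/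
theorem ffx_cluster_comp {X Y : Type*} [TopologicalSpace X] [TopologicalSpace Y] [T2Space X] [T2Space Y]
    {C : Set X} (hC : IsCompact C) {c : ℝ → X} (hc : ∀ s, c s ∈ C) {e : X → Y}
    (he : ContinuousOn e C) (y : Y) :
    MapClusterPt y atTop (fun s => e (c s)) ↔ ∃ x, MapClusterPt x atTop c ∧ e x = y := by
  constructor
  · intro h
    rw [mapClusterPt_iff_ultrafilter] at h
    obtain ⟨U, hU, hUy⟩ := h
    have h1 : ((U.map c : Ultrafilter X) : Filter X) ≤ 𝓟 C := by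
      rw [le_principal_iff, Ultrafilter.coe_map, Filter.mem_map]
      exact Filter.univ_mem' hc
    obtain ⟨x, hxC, hx⟩ := hC.ultrafilter_le_nhds (U.map c) h1
    refine ⟨x, ?_, ?_⟩
    · rw [mapClusterPt_iff_ultrafilter]
      exact ⟨U, hU, hx⟩
    · have h2 : Tendsto e (𝓝[C] x) (𝓝 (e x)) := he x hxC
      have h3 : Tendsto c U (𝓝[C] x) := by
        rw [nhdsWithin, tendsto_inf]
        refine ⟨hx, ?_⟩
        rw [tendsto_principal]
        exact Eventually.of_forall hc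
      exact tendsto_nhds_unique (h2.comp h3) hUy
  · rintro ⟨x, hx, rfl⟩
    rw [mapClusterPt_iff_ultrafilter] at hx ⊢
    obtain ⟨U, hU, hUx⟩ := hx
    refine ⟨U, hU, ?_⟩
    have hxC : x ∈ C := by
      refine hC.isClosed.mem_of_tendsto hUx (Eventually.of_forall hc)
    have h2 : Tendsto e (𝓝[C] x) (𝓝 (e x)) := he x hxC
    have h3 : Tendsto c U (𝓝[C] x) := by
      rw [nhdsWithin, tendsto_inf]
      refine ⟨hUx, ?_⟩
      rw [tendsto_principal]
      exact Eventually.of_forall hc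
    exact h2.comp h3

theorem ffx_om_nonneg (s : ℝ) : 0 ≤ om s := by
  unfold om; linarith [Real.cos_le_one (2 * Real.pi * s)]

theorem ffx_om_le_one (s : ℝ) : om s ≤ 1 := by
  unfold om; linarith [Real.neg_one_le_cos (2 * Real.pi * s)]

theorem ffx_W_nonneg (s : ℝ) : 0 ≤ W s := by
  unfold W; linarith [Real.neg_one_le_cos (2 * Real.pi * s)]

theorem ffx_eta_nonneg (u : ℝ) : 0 ≤ eta u := by
  unfold eta Hn; exact ffx_W_nonneg _

theorem ffx_cl_nonneg (t : ℝ) : 0 ≤ cl t := le_max_left _ _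

theorem ffx_cl_le_one (t : ℝ) : cl t ≤ 1 := max_le zero_le_one (min_le_right _ _)

/-- The compact box. -/
def ffxBox : Set (ℝ × ℝ) := Icc (-3) 3 ×ˢ Icc (-3) 3

theorem ffxBox_compact : IsCompact ffxBox := isCompact_Icc.prod isCompact_Icc

theorem ffxBox_sub : ffxBox ⊆ Reg := by
  rintro ⟨x, y⟩ ⟨h1, h2⟩
  exact ⟨h1.1, abs_le.2 h2⟩

theorem ffx_qr_box (s : ℝ) : qr s ∈ ffxBox := by
  have h1 := ffx_cl_nonneg s
  have h2 := ffx_cl_le_one s
  have h3 : 0 < 1 / max s 1 := by positivity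
  have h4 : 1 / max s 1 ≤ 1 := by
    rw [div_le_one (by positivity)]; exact le_max_right _ _
  have h5 := Real.cos_le_one (Real.pi * max s 1)
  have h6 := Real.neg_one_le_cos (Real.pi * max s 1)
  refine ⟨⟨?_, ?_⟩, ⟨?_, ?_⟩⟩ <;> simp only [qr] <;> linarith

theorem ffx_ql_box (s : ℝ) : ql s ∈ ffxBox := by
  have h := ffx_qr_box s
  obtain ⟨⟨h1, h2⟩, h3⟩ := h
  exact ⟨⟨by simp only [ql]; linarith, by simp only [ql]; linarith⟩, h3⟩

theorem ffx_ee_polar {z : ℝ × ℝ} (hz : z ∈ Reg) : ∃ r : ℝ, 0 < r ∧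
    ee z = (r : ℂ) * Complex.exp ((Real.pi * kap z.1 : ℝ) * Complex.I) := by
  refine ⟨1 + eta (kap z.1) + 1 / (8 + kap z.1 + z.2 / 4), ?_, rfl⟩
  have h1 := ffx_eta_nonneg (kap z.1)
  have h2 : -3 ≤ kap z.1 := by
    have h3 := kap_facts.2.1.monotone hz.1
    rw [kap_facts.2.2.2.1 (-3) (by norm_num)] at h3
    exact h3
  have h4 : -3 ≤ z.2 := (abs_le.1 hz.2).1
  have h5 : 0 < 8 + kap z.1 + z.2 / 4 := by linarith
  positivity

theorem ffx_div_norm_polar {r : ℝ} (hr : 0 < r) (θ : ℝ) :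
    ((r : ℂ) * Complex.exp ((θ : ℝ) * Complex.I)) / (‖(r : ℂ) * Complex.exp ((θ : ℝ) * Complex.I)‖ : ℂ)
      = Complex.exp ((θ : ℝ) * Complex.I) := by
  have h1 : ‖(r : ℂ) * Complex.exp ((θ : ℝ) * Complex.I)‖ = r := by
    rw [norm_mul, Complex.norm_exp_ofReal_mul_I, mul_one, Complex.norm_real, Real.norm_of_nonneg hr.le]
  rw [h1]
  have h2 : (r : ℂ) ≠ 0 := by exact_mod_cast hr.ne'
  field_simp

theorem ffx_w_polar (i s : ℝ) : ∃ r : ℝ, 0 < r ∧
    w i s = (r : ℂ) * Complex.exp ((Real.pi * (i + 1 / max s 1) : ℝ) * Complex.I) := by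
  refine ⟨1 + cl s * W (Real.log (max (s - 1) 1)), ?_, rfl⟩
  have h1 := ffx_cl_nonneg s
  have h2 := ffx_W_nonneg (Real.log (max (s - 1) 1))
  positivity

/-- The continuum `K` has the fixed point property. -/
theorem final_fpp (f : C(↥(ee '' NN ∪ Core), ↥(ee '' NN ∪ Core))) : ∃ x, f x = x := by
  obtain ⟨hDD, hDN, hNcl, hNR⟩ := dd_facts
  have : CompactSpace ↥(ee '' NN ∪ Core) :=
    isCompact_iff_compactSpace.1 (ee_compact NN hNcl hNR)
  obtain ⟨hwc, hw0i, hw1i, hw01, hwneg, hwn⟩ := w_facts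
  obtain ⟨hpc, hpi, hpR, hpneg, hpt, hpf⟩ := pp_facts
  obtain ⟨hrc, hri, hrR, hrneg, hrt, hrf⟩ := rr_facts
  obtain ⟨hqrc, hqlc, hqri, hqli, hqrR, hqlR, hqrneg, hqlneg, hqr0, hql0, hqrcl, hqlcl⟩ := q_facts
  obtain ⟨drp, dlp, dqp, drl, drq, dlq⟩ := disj_facts
  obtain ⟨hec, hei, heC, hen⟩ := ee_facts
  obtain ⟨hcl0, hcl1⟩ := w_cluster
  have rng_mem : ∀ {A : Type} (j : ℝ → A) (_ : ∀ s, s ≤ 0 → j s = j 0) (s : ℝ), j s ∈ rng j := by
    intro A j hj s
    rcases le_total s 0 with h | h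
    · rw [hj s h]; exact ⟨0, by simp, rfl⟩
    · exact ⟨s, h, rfl⟩
  -- the rays
  have mW0 : ∀ s, w 0 s ∈ ee '' NN ∪ Core := fun s => Or.inr (Or.inl (rng_mem _ (hwneg 0) s))
  have mW1 : ∀ s, w 1 s ∈ ee '' NN ∪ Core := fun s => Or.inr (Or.inr (rng_mem _ (hwneg 1) s))
  have mP : ∀ s, ee (pp s) ∈ ee '' NN ∪ Core :=
    fun s => Or.inl ⟨pp s, Or.inl (rng_mem _ hpneg s), rfl⟩
  have mR : ∀ s, ee (rr s) ∈ ee '' NN ∪ Core :=
    fun s => Or.inl ⟨rr s, Or.inr (Or.inl (Or.inl (rng_mem _ hrneg s))), rfl⟩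
  have mL : ∀ s, ee (ql s) ∈ ee '' NN ∪ Core :=
    fun s => Or.inl ⟨ql s, Or.inr (Or.inl (Or.inr (rng_mem _ hqlneg s))), rfl⟩
  have mQ : ∀ s, ee (qr s) ∈ ee '' NN ∪ Core :=
    fun s => Or.inl ⟨qr s, Or.inr (Or.inr (rng_mem _ hqrneg s)), rfl⟩
  let W0 : ℝ → ↥(ee '' NN ∪ Core) := fun s => ⟨w 0 s, mW0 s⟩
  let W1 : ℝ → ↥(ee '' NN ∪ Core) := fun s => ⟨w 1 s, mW1 s⟩
  let P : ℝ → ↥(ee '' NN ∪ Core) := fun s => ⟨ee (pp s), mP s⟩
  let R : ℝ → ↥(ee '' NN ∪ Core) := fun s => ⟨ee (rr s), mR s⟩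
  let Q1 : ℝ → ↥(ee '' NN ∪ Core) := fun s => ⟨ee (ql s), mL s⟩
  let Q2 : ℝ → ↥(ee '' NN ∪ Core) := fun s => ⟨ee (qr s), mQ s⟩
  have hcomp : ∀ c : ℝ → ℝ × ℝ, Continuous c → (∀ s, c s ∈ Reg) → Continuous (fun s => ee (c s)) := by
    intro c hc hR
    rw [← continuousOn_univ]
    exact hec.comp hc.continuousOn (fun s _ => hR s)
  have hclus : ∀ (j : ℝ → ↥(ee '' NN ∪ Core)) (z : ↥(ee '' NN ∪ Core)),
      MapClusterPt z atTop j ↔ MapClusterPt (z : ℂ) atTop (fun s => (j s : ℂ)) := by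
    intro j z
    exact ((Topology.IsInducing.subtypeVal (t := ee '' NN ∪ Core)).mapClusterPt_iff
      (x := z) (l := Filter.map j atTop)).symm
  have hcore : ∀ z : ↥(ee '' NN ∪ Core), (z : ℂ) ∈ Core ↔ z ∈ rng W0 ∪ rng W1 := by
    intro z
    constructor
    · rintro (⟨s, hs, hz⟩ | ⟨s, hs, hz⟩)
      · exact Or.inl ⟨s, hs, Subtype.ext hz⟩
      · exact Or.inr ⟨s, hs, Subtype.ext hz⟩
    · rintro (⟨s, hs, hz⟩ | ⟨s, hs, hz⟩)
      · exact Or.inl ⟨s, hs, congrArg Subtype.val hz⟩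
      · exact Or.inr ⟨s, hs, congrArg Subtype.val hz⟩
  have hnt : (rng W0 ∪ rng W1).Nontrivial := by
    refine ⟨W0 0, Or.inl ⟨0, by simp, rfl⟩, W1 0, Or.inr ⟨0, by simp, rfl⟩, ?_⟩
    intro h
    exact hw01 0 0 le_rfl le_rfl (congrArg Subtype.val h)
  have hintC : ∀ (c : ℝ → ℝ × ℝ) (s : ℝ) (hm : ee (c s) ∈ ee '' NN ∪ Core), c s ∈ Reg →
      (⟨ee (c s), hm⟩ : ↥(ee '' NN ∪ Core)) ∉ rng W0 ∪ rng W1 := by
    intro c s hm hR h
    exact heC _ hR ((hcore _).2 h)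
  have hwray : ∀ (a b : ℝ → ℂ) (ma : ∀ s, a s ∈ ee '' NN ∪ Core) (mb : ∀ s, b s ∈ ee '' NN ∪ Core),
      Continuous a → InjOn a (Ici 0) → InjOn b (Ici 0) → (∀ s t, 0 ≤ s → 0 ≤ t → a s ≠ b t) →
      (∀ z, MapClusterPt z atTop a ↔ z ∈ b '' Icc 0 1) →
      IsRay (fun s => (⟨a s, ma s⟩ : ↥(ee '' NN ∪ Core)))
        ((fun s => (⟨b s, mb s⟩ : ↥(ee '' NN ∪ Core))) '' Icc 0 1) := by
    intro a b ma mb hac hai hbi hab hcl
    refine ⟨Continuous.subtype_mk hac _, ?_, ?_, ?_, ?_⟩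
    · intro s hs t ht h
      exact hai hs ht (congrArg Subtype.val h)
    · intro z
      rw [hclus]
      rw [hcl]
      constructor
      · rintro ⟨s, hs, hz⟩
        exact ⟨s, hs, Subtype.ext hz⟩
      · rintro ⟨s, hs, hz⟩
        exact ⟨s, hs, congrArg Subtype.val hz⟩
    · rintro s hs ⟨t, ht, h⟩
      exact hab s t hs ht.1 (congrArg Subtype.val h).symm
    · refine ⟨_, ⟨0, by simp, rfl⟩, _, ⟨1, by simp, rfl⟩, ?_⟩
      intro h
      have := hbi (by simp : (0:ℝ) ∈ Ici 0) (by simp : (1:ℝ) ∈ Ici 0) (congrArg Subtype.val h)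
      norm_num at this
  have hcray : ∀ (c : ℝ → ℝ × ℝ) (mc : ∀ s, ee (c s) ∈ ee '' NN ∪ Core), Continuous c →
      InjOn c (Ici 0) → (∀ s, c s ∈ Reg) → Tendsto (fun s => (c s).1) atTop atTop →
      IsRay (fun s => (⟨ee (c s), mc s⟩ : ↥(ee '' NN ∪ Core))) (rng W0 ∪ rng W1) := by
    intro c mc hc hi hR ht
    refine ⟨(hcomp c hc hR).subtype_mk _, ?_, ?_, ?_, hnt⟩
    · intro s hs t ht' h
      exact hi hs ht' (hei (hR s) (hR t) (congrArg Subtype.val h))
    · intro z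
      rw [hclus, ← hcore]
      exact curve_cluster c hc hR ht z
    · intro s hs
      exact hintC c s (mc s) (hR s)
  have hqray : ∀ (c : ℝ → ℝ × ℝ) (mc : ∀ s, ee (c s) ∈ ee '' NN ∪ Core) (a b : ℝ), Continuous c →
      0 ≤ a → a < b →
      InjOn c (Ici 0) → (∀ s, c s ∈ ffxBox) → (∀ s t, 0 ≤ s → 0 ≤ t → c s ≠ pp t) →
      (∀ z, MapClusterPt z atTop c ↔ z ∈ pp '' Icc a b) →
      IsRay (fun s => (⟨ee (c s), mc s⟩ : ↥(ee '' NN ∪ Core))) (P '' Icc a b) := by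
    intro c mc a b hc ha hab hi hB hd hcl
    have hR : ∀ s, c s ∈ Reg := fun s => ffxBox_sub (hB s)
    refine ⟨(hcomp c hc hR).subtype_mk _, ?_, ?_, ?_, ?_⟩
    · intro s hs t ht' h
      exact hi hs ht' (hei (hR s) (hR t) (congrArg Subtype.val h))
    · intro z
      rw [hclus]
      show MapClusterPt (z : ℂ) atTop (fun s => ee (c s)) ↔ _
      rw [ffx_cluster_comp ffxBox_compact hB (hec.mono ffxBox_sub)]
      constructor
      · rintro ⟨x, hx, hz⟩
        obtain ⟨t, ht, rfl⟩ := (hcl x).1 hx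
        exact ⟨t, ht, Subtype.ext hz⟩
      · rintro ⟨t, ht, hz⟩
        exact ⟨pp t, (hcl _).2 ⟨t, ht, rfl⟩, congrArg Subtype.val hz⟩
    · rintro s hs ⟨t, ht, h⟩
      exact hd s t hs (ha.trans ht.1) (hei (hR s) (hpR t) (congrArg Subtype.val h).symm)
    · refine ⟨_, ⟨a, ⟨le_rfl, hab.le⟩, rfl⟩, _, ⟨b, ⟨hab.le, le_rfl⟩, rfl⟩, ?_⟩
      intro h
      have := hpi (mem_Ici.2 ha) (mem_Ici.2 (ha.trans hab.le))
        (hei (hpR a) (hpR b) (congrArg Subtype.val h))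
      exact absurd this hab.ne
  have hne : ∀ (c d : ℝ → ℝ × ℝ) (mc : ∀ s, ee (c s) ∈ ee '' NN ∪ Core)
      (md : ∀ s, ee (d s) ∈ ee '' NN ∪ Core), (∀ s, c s ∈ Reg) → (∀ s, d s ∈ Reg) → ∀ s t,
      (⟨ee (c s), mc s⟩ : ↥(ee '' NN ∪ Core)) = ⟨ee (d t), md t⟩ → c s = d t := by
    intro c d mc md hc hd s t h
    exact hei (hc s) (hd t) (congrArg Subtype.val h)
  have hconf : Config W0 W1 P R Q1 Q2 := by
    refine ⟨?_, ?_, ?_, ?_, ?_, ?_, ?_, ?_, ?_, ?_, ?_, ?_, ?_, ?_, ?_, ?_, ?_, ?_⟩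
    · exact hwray (w 0) (w 1) mW0 mW1 (hwc 0) hw0i hw1i hw01 hcl0
    · exact hwray (w 1) (w 0) mW1 mW0 (hwc 1) hw1i hw0i
        (fun s t hs ht h => hw01 t s ht hs h.symm) hcl1
    · exact hcray pp mP hpc hpi hpR hpt
    · exact hcray rr mR hrc hri hrR hrt
    · exact hqray ql mL 2 3 hqlc (by norm_num) (by norm_num) hqli ffx_ql_box dlp hqlcl
    · exact hqray qr mQ 0 1 hqrc (by norm_num) (by norm_num) hqri ffx_qr_box dqp hqrcl
    · exact Subtype.ext (congrArg ee hql0)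
    · exact Subtype.ext (congrArg ee hqr0)
    · rintro ⟨z, hz⟩
      have hz' := hz
      rcases hz' with ⟨m, hm, rfl⟩ | (⟨s, hs, rfl⟩ | ⟨s, hs, rfl⟩)
      · rcases hm with ⟨s, hs, rfl⟩ | ((⟨s, hs, rfl⟩ | ⟨s, hs, rfl⟩) | ⟨s, hs, rfl⟩)
        · exact Or.inr (Or.inr (Or.inl ⟨s, hs, rfl⟩))
        · exact Or.inr (Or.inr (Or.inr (Or.inl ⟨s, hs, rfl⟩)))
        · exact Or.inr (Or.inr (Or.inr (Or.inr (Or.inl ⟨s, hs, rfl⟩))))
        · exact Or.inr (Or.inr (Or.inr (Or.inr (Or.inr ⟨s, hs, rfl⟩))))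
      · exact Or.inl ⟨s, hs, rfl⟩
      · exact Or.inr (Or.inl ⟨s, hs, rfl⟩)
    · intro s t hs ht h
      exact hw01 s t hs ht (congrArg Subtype.val h)
    · intro s _
      exact hintC ql s (mL s) (hqlR s)
    · intro s _
      exact hintC qr s (mQ s) (hqrR s)
    · intro s t hs ht h
      exact drp s t hs ht (hne rr pp mR mP hrR hpR s t h)
    · intro s t hs ht h
      exact dlp s t hs ht (hne ql pp mL mP hqlR hpR s t h)
    · intro s t hs ht h
      exact dqp s t hs ht (hne qr pp mQ mP hqrR hpR s t h)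
    · intro s t hs ht h
      exact drl s t hs ht (hne rr ql mR mL hrR hqlR s t h)
    · intro s t hs ht h
      exact drq s t hs ht (hne rr qr mR mQ hrR hqrR s t h)
    · intro s t hs ht h
      exact dlq s t hs ht (hne ql qr mL mQ hqlR hqrR s t h)
  have hpos : ∀ z : ↥(ee '' NN ∪ Core), (z : ℂ) ≠ 0 := by
    rintro ⟨z, ⟨m, hm, rfl⟩ | (⟨s, hs, rfl⟩ | ⟨s, hs, rfl⟩)⟩
    · obtain ⟨r, hr, he⟩ := ffx_ee_polar (hNR hm)
      show ee m ≠ 0
      rw [he]
      exact mul_ne_zero (by exact_mod_cast hr.ne') (Complex.exp_ne_zero _)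
    · show w 0 s ≠ 0
      have := (hwn 0 s).1
      intro h
      rw [h, norm_zero] at this
      norm_num at this
    · show w 1 s ≠ 0
      have := (hwn 1 s).1
      intro h
      rw [h, norm_zero] at this
      norm_num at this
  have hang : Angles W0 W1 P R (fun z => (z : ℂ) / (‖(z : ℂ)‖ : ℂ))
      (fun s => kap (pp s).1) (fun s => kap (rr s).1) := by
    refine ⟨?_, ?_, ?_, ?_, ?_, ?_, ?_, ?_⟩
    · refine Continuous.div continuous_subtype_val ?_ ?_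
      · exact Complex.continuous_ofReal.comp (continuous_norm.comp continuous_subtype_val)
      · intro z
        exact_mod_cast (norm_ne_zero_iff.2 (hpos z))
    · exact kap_facts.1.comp (continuous_fst.comp hpc)
    · exact kap_facts.1.comp (continuous_fst.comp hrc)
    · intro s _
      obtain ⟨r, hr, he⟩ := ffx_ee_polar (hpR s)
      show ee (pp s) / (‖ee (pp s)‖ : ℂ) = _
      rw [he]
      exact ffx_div_norm_polar hr _
    · intro s _
      obtain ⟨r, hr, he⟩ := ffx_ee_polar (hrR s)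
      show ee (rr s) / (‖ee (rr s)‖ : ℂ) = _
      rw [he]
      exact ffx_div_norm_polar hr _
    · intro s t hs ht
      obtain ⟨r, hr, he⟩ := ffx_w_polar 0 s
      obtain ⟨r', hr', he'⟩ := ffx_w_polar 1 t
      show w 0 s / (‖w 0 s‖ : ℂ) ≠ w 1 t / (‖w 1 t‖ : ℂ)
      rw [he, he', ffx_div_norm_polar hr, ffx_div_norm_polar hr']
      intro h
      rw [Complex.exp_eq_exp_iff_exists_int] at h
      obtain ⟨n, hn⟩ := h
      have h1 : Real.pi * (0 + 1 / max s 1) = Real.pi * (1 + 1 / max t 1) + n * (2 * Real.pi) := by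
        have h2 := congrArg Complex.im hn
        simpa [Complex.add_im, Complex.mul_im] using h2
      have h3 : (1 / max s 1 : ℝ) = 1 + 1 / max t 1 + 2 * n := by
        have hpi := Real.pi_pos
        have h4 : Real.pi * (1 / max s 1) = Real.pi * (1 + 1 / max t 1 + 2 * n) := by
          linarith
        exact mul_left_cancel₀ hpi.ne' h4
      have a1 : 0 < 1 / max s 1 := by positivity
      have a2 : 1 / max s 1 ≤ 1 := by
        rw [div_le_one (by positivity)]; exact le_max_right _ _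
      have b1 : 0 < 1 / max t 1 := by positivity
      have b2 : 1 / max t 1 ≤ 1 := by
        rw [div_le_one (by positivity)]; exact le_max_right _ _
      have c1 : (-1 : ℝ) < n := by linarith
      have c2 : (n : ℝ) < 0 := by linarith
      have c3 : (-1 : ℤ) < n := by exact_mod_cast c1
      have c4 : n < 0 := by exact_mod_cast c2
      omega
    · refine ⟨-1, fun s hs => ?_⟩
      have h1 := kap_facts.2.2.2.2.1 (pp s).1
      rw [hpf s hs] at h1 ⊢
      simp only at h1 ⊢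
      have h2 : kap (s - 1 + 7 * om s) - (s + 7 * om s) - (-1) =
        kap (s - 1 + 7 * om s) - (s - 1 + 7 * om s) := by ring
      rw [h2]; exact h1
    · refine ⟨3, fun s hs => ?_⟩
      have h1 := kap_facts.2.2.2.2.1 (rr s).1
      rw [hrf s (by linarith)] at h1 ⊢
      simp only at h1 ⊢
      have h2 : kap (s + 3 + 15 * om s) - (s + 15 * om s) - 3 =
        kap (s + 3 + 15 * om s) - (s + 3 + 15 * om s) := by ring
      rw [h2]; exact h1
  exact fpp hconf _ _ _ hang f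

end Pool.Bing
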