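import Pool.Agent.Helper257.Bing.Defs
import Pool.Agent.Helper257.Bing.P_pp_facts
import Pool.Agent.Helper257.Bing.P_rr_facts
import Pool.Agent.Helper257.Bing.P_q_facts

set_option autoImplicit false
open Set Filter Topology

namespace Pool.Bing


variable {K : Type*} [TopologicalSpace K]


/-! TARGET: prove this theorem (add helper lemmas before it if you like; keep the statement) -/


theorem cl_lo781 {t : ℝ} (h : t ≤ 0) : cl t = 0 := by
  unfold cl; rw [min_eq_left (by linarith), max_eq_left h]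

theorem cl_mid781 {t : ℝ} (h : 0 ≤ t) (h' : t ≤ 1) : cl t = t := by
  unfold cl; rw [min_eq_left h', max_eq_right h]

theorem cl_hi781 {t : ℝ} (h : 1 ≤ t) : cl t = 1 := by
  unfold cl; rw [min_eq_right h]; norm_num

theorem om_succ781 (s : ℝ) : om (s + 1) = om s := by
  unfold om
  have : 2 * Real.pi * (s + 1) = 2 * Real.pi * s + 2 * Real.pi := by ring
  rw [this, Real.cos_add_two_pi]

theorem om_neg781 (s : ℝ) : om (-s) = om s := by
  unfold om
  have : 2 * Real.pi * (-s) = -(2 * Real.pi * s) := by ring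
  rw [this, Real.cos_neg]

theorem om_zero781 : om 0 = 0 := by unfold om; simp

theorem om_one781 : om 1 = 0 := by
  have := om_succ781 0
  rw [zero_add, om_zero781] at this
  exact this

theorem om_two781 : om 2 = 0 := by
  have := om_succ781 1
  rw [om_one781] at this
  norm_num at this
  exact this

theorem om_five781 : om 5 = 0 := by
  have h3 := om_succ781 2
  have h4 := om_succ781 3
  have h5 := om_succ781 4
  norm_num at h3 h4 h5
  rw [h5, h4, h3, om_two781]

theorem om_nonneg781 (s : ℝ) : 0 ≤ om s := by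
  unfold om
  have := Real.cos_le_one (2 * Real.pi * s)
  linarith

theorem om_cont781 : Continuous om := by unfold om; fun_prop

theorem om_shift781 (s : ℝ) : om (s + 4) = om s := by
  have h : s + 4 = s + 1 + 1 + 1 + 1 := by ring
  rw [h, om_succ781, om_succ781, om_succ781, om_succ781]

/-- the values of `pp` -/
theorem pp_DD781 (s : ℝ) (h0 : 0 ≤ s) (h4 : s ≤ 4) : pp s ∈ DD := by
  have e5 : om (max s 5) = 0 := by rw [max_eq_right (by linarith), om_five781]
  have e6 : max (s - 5) 0 = 0 := max_eq_right (by linarith)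
  have e7 : cl (s - 4) = 0 := cl_lo781 (by linarith)
  have hval : pp s = (1 - 2 * cl (s - 1) + cl (s - 3), 1 - cl s + cl (s - 2)) := by
    unfold pp
    rw [e5, e6, e7]
    ext <;> simp
  rw [hval]
  rcases le_total s 1 with h | h
  · rw [cl_lo781 (by linarith : s - 1 ≤ 0), cl_lo781 (by linarith : s - 3 ≤ 0), cl_mid781 h0 h, cl_lo781 (by linarith : s - 2 ≤ 0)]
    refine ⟨⟨?_, ?_⟩, ⟨?_, ?_⟩⟩ <;> simp <;> linarith
  rcases le_total s 2 with h' | h'
  · rw [cl_mid781 (by linarith : 0 ≤ s - 1) (by linarith), cl_lo781 (by linarith : s - 3 ≤ 0), cl_hi781 h, cl_lo781 (by linarith : s - 2 ≤ 0)]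
    refine ⟨⟨?_, ?_⟩, ⟨?_, ?_⟩⟩ <;> simp <;> linarith
  rcases le_total s 3 with h'' | h''
  · rw [cl_hi781 (by linarith : 1 ≤ s - 1), cl_lo781 (by linarith : s - 3 ≤ 0), cl_hi781 h, cl_mid781 (by linarith : 0 ≤ s - 2) (by linarith)]
    refine ⟨⟨?_, ?_⟩, ⟨?_, ?_⟩⟩ <;> simp <;> linarith
  · rw [cl_hi781 (by linarith : 1 ≤ s - 1), cl_mid781 (by linarith : 0 ≤ s - 3) (by linarith), cl_hi781 h, cl_hi781 (by linarith : 1 ≤ s - 2)]
    refine ⟨⟨?_, ?_⟩, ⟨?_, ?_⟩⟩ <;> simp <;> linarith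

theorem pp_mid781 (s : ℝ) (h0 : 4 ≤ s) (h5 : s ≤ 5) : pp s = (4 * (s - 4), s - 3) := by
  unfold pp
  rw [max_eq_right h5, om_five781, max_eq_right (by linarith : s - 5 ≤ 0), cl_hi781 (by linarith : 1 ≤ s - 1),
    cl_hi781 (by linarith : 1 ≤ s - 3), cl_mid781 (by linarith : 0 ≤ s - 4) (by linarith), cl_hi781 (by linarith : 1 ≤ s),
    cl_hi781 (by linarith : 1 ≤ s - 2)]
  ext
  · norm_num
  · simp; ring

theorem rr_lo781 (s : ℝ) (h0 : 0 ≤ s) (h1 : s ≤ 1) : rr s = (4 * s, -1 - s) := by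
  unfold rr
  rw [max_eq_right h1, om_one781, max_eq_right (by linarith : s - 1 ≤ 0), cl_mid781 h0 h1]
  ext <;> simp

theorem qr_lo781 (s : ℝ) (h0 : 0 ≤ s) (h1 : s ≤ 1) : qr s = (2 * s, s - 1) := by
  unfold qr
  rw [max_eq_right h1, cl_mid781 h0 h1, mul_one, Real.cos_pi]
  ext
  · simp
  · simp; ring

theorem qr_hi781 (s : ℝ) (h1 : 1 ≤ s) : qr s = (1 + 1 / s, (1 + Real.cos (Real.pi * s)) / 2) := by
  unfold qr
  rw [max_eq_left h1, cl_hi781 h1]
  ext
  · simp; ring
  · simp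

/-- description of the points -/
inductive Pt781 : ℝ × ℝ → Prop
  | D (x y : ℝ) (hx : |x| ≤ 1) (h0 : 0 ≤ y) (h1 : y ≤ 1) : Pt781 (x, y)
  | P2 (s : ℝ) (h0 : 4 ≤ s) (h1 : s ≤ 5) : Pt781 (4 * (s - 4), s - 3)
  | P1 (s : ℝ) (h0 : 5 ≤ s) : Pt781 (s - 1 + 7 * om s, 2 + om s)
  | R6 (s : ℝ) (h0 : 0 ≤ s) (h1 : s ≤ 1) : Pt781 (4 * s, -1 - s)
  | R7 (s : ℝ) (h0 : 1 ≤ s) : Pt781 (s + 3 + 15 * om s, -2 - om s)
  | Q5 (e s : ℝ) (he : e = 1 ∨ e = -1) (h0 : 0 ≤ s) (h1 : s ≤ 1) : Pt781 (e * (2 * s), s - 1)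
  | Q4 (e s : ℝ) (he : e = 1 ∨ e = -1) (h0 : 1 ≤ s) :
      Pt781 (e * (1 + 1 / s), (1 + Real.cos (Real.pi * s)) / 2)

theorem pt_iff781 (z : ℝ × ℝ) : z ∈ DD ∪ NN ↔ Pt781 z := by
  constructor
  · rintro (h | h | (h | h) | h)
    · obtain ⟨⟨h1, h2⟩, h3, h4⟩ := h
      exact Pt781.D z.1 z.2 (abs_le.2 ⟨h1, h2⟩) h3 h4
    · obtain ⟨s, hs, rfl⟩ := h
      have hs : 0 ≤ s := hs
      rcases le_total s 4 with h4 | h4
      · obtain ⟨⟨h1, h2⟩, h3, h4⟩ := pp_DD781 s hs h4
        exact Pt781.D _ _ (abs_le.2 ⟨h1, h2⟩) h3 h4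
      rcases le_total s 5 with h5 | h5
      · rw [pp_mid781 s h4 h5]
        exact Pt781.P2 s h4 h5
      · rw [pp_facts.2.2.2.2.2 s h5]
        exact Pt781.P1 s h5
    · obtain ⟨s, hs, rfl⟩ := h
      have hs : 0 ≤ s := hs
      rcases le_total s 1 with h1 | h1
      · rw [rr_lo781 s hs h1]
        exact Pt781.R6 s hs h1
      · rw [rr_facts.2.2.2.2.2 s h1]
        exact Pt781.R7 s h1
    · obtain ⟨s, hs, rfl⟩ := h
      have hs : 0 ≤ s := hs
      unfold ql
      rcases le_total s 1 with h1 | h1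
      · rw [qr_lo781 s hs h1]
        have := Pt781.Q5 (-1) s (Or.inr rfl) hs h1
        rwa [neg_one_mul] at this
      · rw [qr_hi781 s h1]
        have := Pt781.Q4 (-1) s (Or.inr rfl) h1
        rwa [neg_one_mul] at this
    · obtain ⟨s, hs, rfl⟩ := h
      have hs : 0 ≤ s := hs
      rcases le_total s 1 with h1 | h1
      · rw [qr_lo781 s hs h1]
        have := Pt781.Q5 1 s (Or.inl rfl) hs h1
        rwa [one_mul] at this
      · rw [qr_hi781 s h1]
        have := Pt781.Q4 1 s (Or.inl rfl) h1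
        rwa [one_mul] at this
  · intro h
    cases h with
    | D x y hx h0 h1 => exact Or.inl ⟨abs_le.1 hx, h0, h1⟩
    | P2 s h0 h1 => exact Or.inr (Or.inl ⟨s, by simp; linarith, pp_mid781 s h0 h1⟩)
    | P1 s h0 => exact Or.inr (Or.inl ⟨s, by simp; linarith, pp_facts.2.2.2.2.2 s h0⟩)
    | R6 s h0 h1 => exact Or.inr (Or.inr (Or.inl (Or.inl ⟨s, h0, rr_lo781 s h0 h1⟩)))
    | R7 s h0 => exact Or.inr (Or.inr (Or.inl (Or.inl ⟨s, by simp; linarith, rr_facts.2.2.2.2.2 s h0⟩)))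
    | Q5 e s he h0 h1 =>
      rcases he with rfl | rfl
      · exact Or.inr (Or.inr (Or.inr ⟨s, h0, by rw [qr_lo781 s h0 h1, one_mul]⟩))
      · exact Or.inr (Or.inr (Or.inl (Or.inr ⟨s, h0, by unfold ql; rw [qr_lo781 s h0 h1, neg_one_mul]⟩)))
    | Q4 e s he h0 =>
      rcases he with rfl | rfl
      · exact Or.inr (Or.inr (Or.inr ⟨s, by simp; linarith, by rw [qr_hi781 s h0, one_mul]⟩))
      · exact Or.inr (Or.inr (Or.inl (Or.inr ⟨s, by simp; linarith, by unfold ql; rw [qr_hi781 s h0, neg_one_mul]⟩)))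

noncomputable def cp781 (x : ℝ) : ℝ := max (-1) (min x 1)

noncomputable def ch781 (x : ℝ) : ℝ := (x - cp781 x) + (4 / 3) * (cp781 x - max (-(1 / 4)) (min x (1 / 4)))

noncomputable def f1_781 (z : ℝ × ℝ) : ℝ × ℝ := (z.1 + 1, z.2)
noncomputable def f2_781 (z : ℝ × ℝ) : ℝ × ℝ := (z.2 + 3 + 7 * om z.2, 2 + om z.2)
noncomputable def f3_781 (z : ℝ × ℝ) : ℝ × ℝ :=
  (-ch781 z.1 + max 0 (4 - 16 * |z.1|), min 1 (z.2 + (4 / 3) * max 0 (1 - |z.1|)) + max 0 (1 - 4 * |z.1|))
noncomputable def f5_781 (z : ℝ × ℝ) : ℝ × ℝ :=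
  (-2 * (z.1 - cp781 z.1) + 4 * max 0 (1 - |z.1|), 2 * z.2)
noncomputable def f6_781 (z : ℝ × ℝ) : ℝ × ℝ := (3 - z.2 + 15 * om z.2, -2 - om z.2)

theorem cp_mid781 {x : ℝ} (h : |x| ≤ 1) : cp781 x = x := by
  obtain ⟨h1, h2⟩ := abs_le.1 h
  unfold cp781
  rw [min_eq_left h2, max_eq_right h1]

theorem cp_pos781 {x : ℝ} (h : 1 ≤ x) : cp781 x = 1 := by
  unfold cp781
  rw [min_eq_right h]; norm_num

theorem cp_neg781 {x : ℝ} (h : x ≤ -1) : cp781 x = -1 := by
  unfold cp781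
  rw [min_eq_left (by linarith), max_eq_left h]

theorem ch_small781 {x : ℝ} (h : |x| ≤ 1 / 4) : ch781 x = 0 := by
  obtain ⟨h1, h2⟩ := abs_le.1 h
  unfold ch781
  rw [cp_mid781 (by linarith), min_eq_left h2, max_eq_right h1]
  ring

theorem ch_pos781 {x : ℝ} (h : 1 / 4 ≤ x) (h' : x ≤ 1) : ch781 x = (4 / 3) * (x - 1 / 4) := by
  unfold ch781
  rw [cp_mid781 (abs_le.2 ⟨by linarith, h'⟩), min_eq_right h, max_eq_right (by norm_num)]
  ring

theorem ch_neg781 {x : ℝ} (h : x ≤ -(1 / 4)) (h' : -1 ≤ x) : ch781 x = (4 / 3) * (x + 1 / 4) := by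
  unfold ch781
  rw [cp_mid781 (abs_le.2 ⟨h', by linarith⟩), min_eq_left (by linarith), max_eq_left h]
  ring

theorem ch_big781 {x : ℝ} (h : 1 ≤ |x|) : ch781 x = x := by
  unfold ch781
  rcases le_abs.1 h with h | h
  · rw [cp_pos781 h, min_eq_right (by linarith), max_eq_right (by norm_num)]
    ring
  · rw [cp_neg781 (by linarith), min_eq_left (by linarith), max_eq_left (by linarith)]
    ring

theorem f3_small781 {x y : ℝ} (h : |x| ≤ 1 / 4) (hy : 0 ≤ y) :
    f3_781 (x, y) = (4 - 16 * |x|, 2 - 4 * |x|) := by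
  unfold f3_781
  simp only
  rw [ch_small781 h, max_eq_right (by linarith), max_eq_right (by linarith : (0:ℝ) ≤ 1 - |x|),
    max_eq_right (by linarith), min_eq_left (by linarith)]
  ext
  · simp
  · simp; ring

theorem f3_mid781 {x y : ℝ} (h : 1 / 4 ≤ |x|) (h' : |x| ≤ 1) :
    f3_781 (x, y) = (-ch781 x, min 1 (y + (4 / 3) * (1 - |x|))) := by
  unfold f3_781
  simp only
  rw [max_eq_left (by linarith : 4 - 16 * |x| ≤ 0), max_eq_right (by linarith : (0:ℝ) ≤ 1 - |x|),
    max_eq_left (by linarith : 1 - 4 * |x| ≤ 0), add_zero, add_zero]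

theorem f3_big781 {x y : ℝ} (h : 1 ≤ |x|) (hy : y ≤ 1) : f3_781 (x, y) = (-x, y) := by
  unfold f3_781
  simp only
  rw [max_eq_left (by linarith : 4 - 16 * |x| ≤ 0), max_eq_left (by linarith : 1 - |x| ≤ 0),
    max_eq_left (by linarith : 1 - 4 * |x| ≤ 0), add_zero, add_zero, mul_zero, add_zero, ch_big781 h,
    min_eq_right hy]

theorem f5_small781 {x y : ℝ} (h : |x| ≤ 1) : f5_781 (x, y) = (4 - 4 * |x|, 2 * y) := by
  unfold f5_781
  simp only
  rw [cp_mid781 h, max_eq_right (by linarith : (0:ℝ) ≤ 1 - |x|)]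
  ext
  · simp; ring
  · rfl

theorem f5_big781 {e a y : ℝ} (he : e = 1 ∨ e = -1) (ha : 1 ≤ a) :
    f5_781 (e * a, y) = (-(e * (2 * (a - 1))), 2 * y) := by
  have h1 : |e * a| = a := by
    rcases he with rfl | rfl
    · rw [one_mul, abs_of_pos (by linarith)]
    · rw [neg_one_mul, abs_neg, abs_of_pos (by linarith)]
  unfold f5_781
  simp only
  rw [h1, max_eq_left (by linarith : 1 - a ≤ 0)]
  rcases he with rfl | rfl
  · rw [one_mul, cp_pos781 ha]
    ext
    · simp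
    · rfl
  · rw [neg_one_mul, cp_neg781 (by linarith)]
    ext
    · simp; ring
    · rfl

noncomputable def F781 (z : ℝ × ℝ) : ℝ × ℝ :=
  if 2 ≤ z.2 then f1_781 z else if 1 < z.2 then f2_781 z else if 0 ≤ z.2 then f3_781 z
    else if -1 < z.2 then f5_781 z else if -2 < z.2 then f6_781 z else f1_781 z

theorem F_Q1_781 (x y : ℝ) (h : 2 ≤ y) : F781 (x, y) = (x + 1, y) := by
  unfold F781
  rw [if_pos h]
  rfl

theorem F_Q2_781 (x y : ℝ) (h : 1 ≤ y) (h' : y ≤ 2) (hx : x = 4 * (y - 1)) :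
    F781 (x, y) = f2_781 (x, y) := by
  unfold F781
  rcases h'.eq_or_lt with rfl | h2
  · rw [if_pos (show (2:ℝ) ≤ (x, (2:ℝ)).2 from le_rfl), f1_781, f2_781]
    simp only
    rw [om_two781, hx]
    norm_num
  rw [if_neg (not_le.2 (show (x, y).2 < 2 from h2))]
  rcases h.eq_or_lt with rfl | h1
  · rw [if_neg (lt_irrefl (1:ℝ)), if_pos (show (0:ℝ) ≤ (x, (1:ℝ)).2 from zero_le_one)]
    have : x = 0 := by rw [hx]; ring
    rw [this, f3_small781 (by simp) zero_le_one, f2_781]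
    simp only
    rw [om_one781]
    norm_num
  · rw [if_pos (show 1 < (x, y).2 from h1)]

theorem F_Q3_781 (x y : ℝ) (h : 0 ≤ y) (h' : y ≤ 1) : F781 (x, y) = f3_781 (x, y) := by
  unfold F781
  rw [if_neg (not_le.2 (show (x, y).2 < 2 by simp; linarith)), if_neg (not_lt.2 (show (x, y).2 ≤ 1 from h')),
    if_pos (show 0 ≤ (x, y).2 from h)]

theorem F_Q5_781 (x y : ℝ) (h : -1 ≤ y) (h' : y ≤ 0) (hx : |x| = 2 * (y + 1)) :
    F781 (x, y) = f5_781 (x, y) := by
  rcases h'.eq_or_lt with rfl | h2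
  · rw [F_Q3_781 x 0 le_rfl zero_le_one, f3_big781 (by rw [hx]; norm_num) zero_le_one]
    have h3 : |x| = 2 := by rw [hx]; norm_num
    have h4 : x = 1 * 2 ∨ x = (-1) * 2 := by
      rcases abs_eq (by norm_num : (0:ℝ) ≤ 2) |>.1 h3 with h | h
      · left; rw [h]; norm_num
      · right; rw [h]; norm_num
    rcases h4 with h4 | h4
    · rw [h4, f5_big781 (Or.inl rfl) (by norm_num)]; norm_num
    · rw [h4, f5_big781 (Or.inr rfl) (by norm_num)]; norm_num
  unfold F781
  rw [if_neg (not_le.2 (show (x, y).2 < 2 by simp; linarith)), if_neg (not_lt.2 (show (x, y).2 ≤ 1 by simp; linarith)),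
    if_neg (not_le.2 (show (x, y).2 < 0 from h2))]
  rcases h.eq_or_lt with rfl | h1
  · rw [if_neg (lt_irrefl (-1:ℝ)), if_pos (show (-2:ℝ) < (x, (-1:ℝ)).2 by simp)]
    have h3 : |x| = 0 := by rw [hx]; norm_num
    rw [f5_small781 (by rw [h3]; norm_num), h3, f6_781]
    simp only
    rw [om_neg781, om_one781]
    norm_num
  · rw [if_pos (show -1 < (x, y).2 from h1)]

theorem F_Q7_781 (x y : ℝ) (h : y ≤ -2) : F781 (x, y) = (x + 1, y) := by
  unfold F781
  rw [if_neg (not_le.2 (show (x, y).2 < 2 by simp; linarith)), if_neg (not_lt.2 (show (x, y).2 ≤ 1 by simp; linarith)),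
    if_neg (not_le.2 (show (x, y).2 < 0 by simp; linarith)), if_neg (not_lt.2 (show (x, y).2 ≤ -1 by simp; linarith)),
    if_neg (not_lt.2 (show (x, y).2 ≤ -2 from h))]
  rfl

theorem F_Q6_781 (x y : ℝ) (h : -2 ≤ y) (h' : y ≤ -1) (hx : x = -4 * (y + 1)) :
    F781 (x, y) = f6_781 (x, y) := by
  rcases h.eq_or_lt with rfl | h1
  · rw [F_Q7_781 _ _ le_rfl, f6_781]
    simp only
    rw [om_neg781, om_two781, hx]
    norm_num
  unfold F781
  rw [if_neg (not_le.2 (show (x, y).2 < 2 by simp; linarith)), if_neg (not_lt.2 (show (x, y).2 ≤ 1 by simp; linarith)),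
    if_neg (not_le.2 (show (x, y).2 < 0 by simp; linarith)), if_neg (not_lt.2 (show (x, y).2 ≤ -1 from h')),
    if_pos (show -2 < (x, y).2 from h1)]

theorem cont_cp781 : Continuous cp781 := by unfold cp781; fun_prop
theorem cont_ch781 : Continuous ch781 := by unfold ch781; have := cont_cp781; fun_prop
theorem cont_f1_781 : Continuous f1_781 := by unfold f1_781; fun_prop
theorem cont_f2_781 : Continuous f2_781 := by unfold f2_781; have := om_cont781; fun_prop
theorem cont_f3_781 : Continuous f3_781 := by unfold f3_781; have := cont_ch781; fun_prop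
theorem cont_f5_781 : Continuous f5_781 := by unfold f5_781; have := cont_cp781; fun_prop
theorem cont_f6_781 : Continuous f6_781 := by unfold f6_781; have := om_cont781; fun_prop

theorem cont_F781 : ContinuousOn F781
    ({z : ℝ × ℝ | 2 ≤ z.2} ∪ ({z | 1 ≤ z.2 ∧ z.2 ≤ 2 ∧ z.1 = 4 * (z.2 - 1)} ∪ ({z | 0 ≤ z.2 ∧ z.2 ≤ 1} ∪
      ({z | -1 ≤ z.2 ∧ z.2 ≤ 0 ∧ |z.1| = 2 * (z.2 + 1)} ∪ ({z | -2 ≤ z.2 ∧ z.2 ≤ -1 ∧ z.1 = -4 * (z.2 + 1)} ∪
        {z | z.2 ≤ -2}))))) := by
  have k1 : IsClosed {z : ℝ × ℝ | 2 ≤ z.2} := isClosed_le (by fun_prop) (by fun_prop)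
  have k2 : IsClosed {z : ℝ × ℝ | 1 ≤ z.2 ∧ z.2 ≤ 2 ∧ z.1 = 4 * (z.2 - 1)} := by
    refine IsClosed.and ?_ (IsClosed.and ?_ ?_)
    · exact isClosed_le (by fun_prop) (by fun_prop)
    · exact isClosed_le (by fun_prop) (by fun_prop)
    · exact isClosed_eq (by fun_prop) (by fun_prop)
  have k3 : IsClosed {z : ℝ × ℝ | 0 ≤ z.2 ∧ z.2 ≤ 1} := by
    refine IsClosed.and ?_ ?_
    · exact isClosed_le (by fun_prop) (by fun_prop)
    · exact isClosed_le (by fun_prop) (by fun_prop)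
  have k5 : IsClosed {z : ℝ × ℝ | -1 ≤ z.2 ∧ z.2 ≤ 0 ∧ |z.1| = 2 * (z.2 + 1)} := by
    refine IsClosed.and ?_ (IsClosed.and ?_ ?_)
    · exact isClosed_le (by fun_prop) (by fun_prop)
    · exact isClosed_le (by fun_prop) (by fun_prop)
    · exact isClosed_eq (by fun_prop) (by fun_prop)
  have k6 : IsClosed {z : ℝ × ℝ | -2 ≤ z.2 ∧ z.2 ≤ -1 ∧ z.1 = -4 * (z.2 + 1)} := by
    refine IsClosed.and ?_ (IsClosed.and ?_ ?_)
    · exact isClosed_le (by fun_prop) (by fun_prop)
    · exact isClosed_le (by fun_prop) (by fun_prop)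
    · exact isClosed_eq (by fun_prop) (by fun_prop)
  have k7 : IsClosed {z : ℝ × ℝ | z.2 ≤ -2} := isClosed_le (by fun_prop) (by fun_prop)
  have c1 : ContinuousOn F781 {z : ℝ × ℝ | 2 ≤ z.2} :=
    cont_f1_781.continuousOn.congr fun z hz => F_Q1_781 z.1 z.2 hz
  have c2 : ContinuousOn F781 {z : ℝ × ℝ | 1 ≤ z.2 ∧ z.2 ≤ 2 ∧ z.1 = 4 * (z.2 - 1)} :=
    cont_f2_781.continuousOn.congr fun z hz => F_Q2_781 z.1 z.2 hz.1 hz.2.1 hz.2.2
  have c3 : ContinuousOn F781 {z : ℝ × ℝ | 0 ≤ z.2 ∧ z.2 ≤ 1} :=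
    cont_f3_781.continuousOn.congr fun z hz => F_Q3_781 z.1 z.2 hz.1 hz.2
  have c5 : ContinuousOn F781 {z : ℝ × ℝ | -1 ≤ z.2 ∧ z.2 ≤ 0 ∧ |z.1| = 2 * (z.2 + 1)} :=
    cont_f5_781.continuousOn.congr fun z hz => F_Q5_781 z.1 z.2 hz.1 hz.2.1 hz.2.2
  have c6 : ContinuousOn F781 {z : ℝ × ℝ | -2 ≤ z.2 ∧ z.2 ≤ -1 ∧ z.1 = -4 * (z.2 + 1)} :=
    cont_f6_781.continuousOn.congr fun z hz => F_Q6_781 z.1 z.2 hz.1 hz.2.1 hz.2.2
  have c7 : ContinuousOn F781 {z : ℝ × ℝ | z.2 ≤ -2} :=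
    cont_f1_781.continuousOn.congr fun z hz => F_Q7_781 z.1 z.2 hz
  have u6 := c6.union_of_isClosed c7 k6 k7
  have u5 := c5.union_of_isClosed u6 k5 (k6.union k7)
  have u3 := c3.union_of_isClosed u5 k3 (k5.union (k6.union k7))
  have u2 := c2.union_of_isClosed u3 k2 (k3.union (k5.union (k6.union k7)))
  exact c1.union_of_isClosed u2 k1 (k2.union (k3.union (k5.union (k6.union k7))))

theorem cos_range781 (s : ℝ) : 0 ≤ (1 + Real.cos (Real.pi * s)) / 2 ∧ (1 + Real.cos (Real.pi * s)) / 2 ≤ 1 := by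
  have h1 := Real.cos_le_one (Real.pi * s)
  have h2 := Real.neg_one_le_cos (Real.pi * s)
  constructor <;> linarith

theorem abs_e781 {e a : ℝ} (he : e = 1 ∨ e = -1) (ha : 0 ≤ a) : |e * a| = a := by
  rcases he with rfl | rfl
  · rw [one_mul, abs_of_nonneg ha]
  · rw [neg_one_mul, abs_neg, abs_of_nonneg ha]

theorem cover781 (z : ℝ × ℝ) (hz : Pt781 z) : z ∈
    ({z : ℝ × ℝ | 2 ≤ z.2} ∪ ({z | 1 ≤ z.2 ∧ z.2 ≤ 2 ∧ z.1 = 4 * (z.2 - 1)} ∪ ({z | 0 ≤ z.2 ∧ z.2 ≤ 1} ∪
      ({z | -1 ≤ z.2 ∧ z.2 ≤ 0 ∧ |z.1| = 2 * (z.2 + 1)} ∪ ({z | -2 ≤ z.2 ∧ z.2 ≤ -1 ∧ z.1 = -4 * (z.2 + 1)} ∪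
        {z | z.2 ≤ -2}))))) := by
  cases hz with
  | D x y hx h0 h1 => exact Or.inr (Or.inr (Or.inl ⟨h0, h1⟩))
  | P2 s h0 h1 =>
    refine Or.inr (Or.inl ⟨?_, ?_, ?_⟩)
    · show 1 ≤ s - 3; linarith
    · show s - 3 ≤ 2; linarith
    · show 4 * (s - 4) = 4 * (s - 3 - 1); ring
  | P1 s h0 =>
    refine Or.inl ?_
    show 2 ≤ 2 + om s
    linarith [om_nonneg781 s]
  | R6 s h0 h1 =>
    refine Or.inr (Or.inr (Or.inr (Or.inr (Or.inl ⟨?_, ?_, ?_⟩))))
    · show -2 ≤ -1 - s; linarith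
    · show -1 - s ≤ -1; linarith
    · show 4 * s = -4 * (-1 - s + 1); ring
  | R7 s h0 =>
    refine Or.inr (Or.inr (Or.inr (Or.inr (Or.inr ?_))))
    show -2 - om s ≤ -2
    linarith [om_nonneg781 s]
  | Q5 e s he h0 h1 =>
    refine Or.inr (Or.inr (Or.inr (Or.inl ⟨?_, ?_, ?_⟩)))
    · show -1 ≤ s - 1; linarith
    · show s - 1 ≤ 0; linarith
    · show |e * (2 * s)| = 2 * (s - 1 + 1)
      rw [abs_e781 he (by linarith)]; ring
  | Q4 e s he h0 =>
    exact Or.inr (Or.inr (Or.inl (cos_range781 s)))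

/-- the main case analysis -/
theorem main781 (z : ℝ × ℝ) (hz : Pt781 z) :
    Pt781 (F781 z) ∧ F781 z ≠ z ∧ (5 ≤ z.1 → F781 z = (z.1 + 1, z.2)) := by
  cases hz with
  | D x y hx h0 h1 =>
    have hF := F_Q3_781 x y h0 h1
    rcases le_total |x| (1 / 4) with h | h
    · rw [hF, f3_small781 h h0]
      refine ⟨?_, ?_, ?_⟩
      · have := Pt781.P2 (5 - 4 * |x|) (by linarith) (by linarith [abs_nonneg x])
        convert this using 2 <;> ring
      · intro he
        have e1 := congrArg Prod.fst he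
        have e2 := congrArg Prod.snd he
        simp only at e1 e2
        have h3 : |x| = 1 / 4 := by linarith
        rw [h3] at e1
        have : x = 0 := by linarith
        rw [this, abs_zero] at h3
        norm_num at h3
      · intro h5
        have : x ≤ 1 := (abs_le.1 hx).2
        simp only at h5
        linarith
    · rw [hF, f3_mid781 h hx]
      have hch : (0 < x ∧ ch781 x = (4 / 3) * (x - 1 / 4)) ∨ (x < 0 ∧ ch781 x = (4 / 3) * (x + 1 / 4)) := by
        rcases le_abs.1 h with h' | h'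
        · exact Or.inl ⟨by linarith, ch_pos781 h' (abs_le.1 hx).2⟩
        · exact Or.inr ⟨by linarith, ch_neg781 (by linarith) (abs_le.1 hx).1⟩
      refine ⟨?_, ?_, ?_⟩
      · apply Pt781.D
        · rw [abs_neg]
          obtain ⟨a1, a2⟩ := abs_le.1 hx
          rcases hch with ⟨h3, h4⟩ | ⟨h3, h4⟩
          · rw [abs_of_pos h3] at h
            rw [h4]; apply abs_le.2; constructor <;> linarith
          · rw [abs_of_neg h3] at h
            rw [h4]; apply abs_le.2; constructor <;> linarith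
        · apply le_min zero_le_one
          linarith
        · exact min_le_left _ _
      · intro he
        have e1 := congrArg Prod.fst he
        simp only at e1
        rcases hch with ⟨h3, h4⟩ | ⟨h3, h4⟩
        · rw [abs_of_pos h3] at h
          rw [h4] at e1; linarith
        · rw [abs_of_neg h3] at h
          rw [h4] at e1; linarith
      · intro h5
        have : x ≤ 1 := (abs_le.1 hx).2
        simp only at h5
        linarith
  | P2 s h0 h1 =>
    rw [F_Q2_781 _ _ (by linarith) (by linarith) (by ring), f2_781]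
    simp only
    have e1 : om (s - 3) = om (s + 1) := by
      rw [← om_shift781 (s - 3)]
      congr 1; ring
    rw [e1]
    refine ⟨?_, ?_, ?_⟩
    · have := Pt781.P1 (s + 1) (by linarith)
      convert this using 2; ring
    · intro he
      have e1 := congrArg Prod.fst he
      simp only at e1
      linarith [om_nonneg781 (s + 1)]
    · intro h5; linarith
  | P1 s h0 =>
    rw [F_Q1_781 _ _ (by linarith [om_nonneg781 s])]
    refine ⟨?_, ?_, fun _ => rfl⟩
    · have := Pt781.P1 (s + 1) (by linarith)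
      rw [om_succ781] at this
      convert this using 2; ring
    · intro he
      have e1 := congrArg Prod.fst he
      simp only at e1
      linarith
  | R6 s h0 h1 =>
    rw [F_Q6_781 _ _ (by linarith) (by linarith) (by ring), f6_781]
    simp only
    have e1 : om (-1 - s) = om (s + 1) := by
      rw [← om_neg781 (s + 1)]
      congr 1; ring
    rw [e1]
    refine ⟨?_, ?_, ?_⟩
    · have := Pt781.R7 (s + 1) (by linarith)
      convert this using 2; ring
    · intro he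
      have e1 := congrArg Prod.fst he
      simp only at e1
      linarith [om_nonneg781 (s + 1)]
    · intro h5; linarith
  | R7 s h0 =>
    rw [F_Q7_781 _ _ (by linarith [om_nonneg781 s])]
    refine ⟨?_, ?_, fun _ => rfl⟩
    · have := Pt781.R7 (s + 1) (by linarith)
      rw [om_succ781] at this
      convert this using 2; ring
    · intro he
      have e1 := congrArg Prod.fst he
      simp only at e1
      linarith
  | Q5 e s he h0 h1 =>
    have habs := abs_e781 he (by linarith : 0 ≤ 2 * s)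
    have hF := F_Q5_781 (e * (2 * s)) (s - 1) (by linarith) (by linarith) (by rw [habs]; ring)
    have hx5 : 5 ≤ (e * (2 * s), s - 1).1 → False := by
      intro h5
      have h6 : e * (2 * s) ≤ 2 * s := by
        have := le_abs_self (e * (2 * s))
        rwa [habs] at this
      have h7 : 5 ≤ e * (2 * s) := h5
      linarith
    rcases le_total (2 * s) 1 with h | h
    · rw [hF, f5_small781 (by rw [habs]; exact h), habs]
      refine ⟨?_, ?_, fun h5 => (hx5 h5).elim⟩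
      · have := Pt781.R6 (1 - 2 * s) (by linarith) (by linarith)
        convert this using 2 <;> ring
      · intro he
        have e1 := congrArg Prod.snd he
        simp only at e1
        linarith
    · rw [hF, f5_big781 he h]
      refine ⟨?_, ?_, fun h5 => (hx5 h5).elim⟩
      · have := Pt781.Q5 (-e) (2 * s - 1) (by rcases he with rfl | rfl <;> simp) (by linarith) (by linarith)
        convert this using 2 <;> ring
      · intro hee
        have e2 := congrArg Prod.snd hee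
        simp only at e2
        have hs : s = 1 := by linarith
        have e1 := congrArg Prod.fst hee
        simp only at e1
        rw [hs] at e1
        rcases he with rfl | rfl <;> norm_num at e1
  | Q4 e s he h0 =>
    have hpos : 0 < 1 / s := by positivity
    have hle : 1 / s ≤ 1 := by rw [div_le_one (by linarith)]; exact h0
    have habs := abs_e781 he (by linarith : 0 ≤ 1 + 1 / s)
    have hc := cos_range781 s
    rw [F_Q3_781 _ _ hc.1 hc.2, f3_big781 (by rw [habs]; linarith) hc.2]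
    refine ⟨?_, ?_, ?_⟩
    · have := Pt781.Q4 (-e) s (by rcases he with rfl | rfl <;> simp) h0
      rwa [neg_mul] at this
    · intro hee
      have e1 := congrArg Prod.fst hee
      simp only at e1
      have : e * (1 + 1 / s) = 0 := by linarith
      rw [this, abs_zero] at habs
      linarith
    · intro h5
      have h6 : e * (1 + 1 / s) ≤ 1 + 1 / s := by
        have := le_abs_self (e * (1 + 1 / s))
        rwa [habs] at this
      have h7 : 5 ≤ e * (1 + 1 / s) := h5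
      linarith

/-- The planar part of the fixed point free map. -/
theorem plane_map : ∃ F : ℝ × ℝ → ℝ × ℝ, ContinuousOn F (DD ∪ NN) ∧ MapsTo F (DD ∪ NN) (DD ∪ NN) ∧
    (∀ z ∈ DD ∪ NN, F z ≠ z) ∧ (∀ z ∈ DD ∪ NN, 5 ≤ z.1 → F z = (z.1 + 1, z.2)) := by
  refine ⟨F781, ?_, ?_, ?_, ?_⟩
  · exact cont_F781.mono fun z hz => cover781 z ((pt_iff781 z).1 hz)
  · intro z hz
    exact (pt_iff781 _).2 (main781 z ((pt_iff781 z).1 hz)).1
  · intro z hz
    exact (main781 z ((pt_iff781 z).1 hz)).2.1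
  · intro z hz
    exact (main781 z ((pt_iff781 z).1 hz)).2.2


end Pool.Bing
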