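import Pool.Agent.Helper257.Bing.Defs
import Pool.Agent.Helper257.Bing.P_kap_facts
import Pool.Agent.Helper257.Bing.P_eta_shift

set_option autoImplicit false
open Set Filter Topology

namespace Pool.Bing


variable {K : Type*} [TopologicalSpace K]


/-! TARGET: prove this theorem (add helper lemmas before it if you like; keep the statement) -/


theorem shift_close_W (t : ℝ) : 0 ≤ W t := by
  unfold W
  have := Real.neg_one_le_cos (2 * Real.pi * t)
  linarith

theorem shift_close_eta (u : ℝ) : 0 ≤ eta u := by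
  unfold eta Hn
  exact shift_close_W _

/-- Far out the shift `(x,y) ↦ (x+1,y)` is close to `G`. -/
theorem shift_close (G : ℂ → ℂ) (hG : ∀ R u : ℝ, 0 < R →
      G ((R : ℂ) * Complex.exp ((Real.pi * u : ℝ) * Complex.I)) =
      ((R + del u : ℝ) : ℂ) * Complex.exp ((Real.pi * Ush u : ℝ) * Complex.I)) (ε : ℝ)
    (hε : 0 < ε) : ∃ M : ℝ, ∀ z ∈ Reg, M ≤ z.1 → ‖ee (z.1 + 1, z.2) - G (ee z)‖ < ε := by
  obtain ⟨-, -, -, -, hk1, hk2, -⟩ := kap_facts
  refine ⟨max 1 (2 / ε + 1), ?_⟩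
  rintro ⟨x, v⟩ ⟨-, hv⟩ hM
  simp only at hv hM ⊢
  have hx1 : 1 ≤ x := (le_max_left _ _).trans hM
  have hx2 : 2 / ε + 1 ≤ x := (le_max_right _ _).trans hM
  obtain ⟨hv1, hv2⟩ := abs_le.mp hv
  obtain ⟨a1, a2⟩ := abs_le.mp (hk1 x)
  obtain ⟨b1, b2⟩ := abs_le.mp (hk1 (x + 1))
  have hks := hk2 x (by linarith)
  set u : ℝ := kap x with hu
  have hu0 : 0 ≤ u := by linarith
  have heta := eta_shift u hu0
  have hU : x ≤ Ush u := by rw [← hks]; linarith
  have p1 : x ≤ 8 + u + v / 4 := by linarith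
  have p2 : x ≤ 8 + Ush u + v / 4 := by linarith
  have hx0 : 0 < x := by linarith
  have q1 : 0 < 8 + u + v / 4 := by linarith
  have q2 : 0 < 8 + Ush u + v / 4 := by linarith
  have hR : 0 < 1 + eta u + 1 / (8 + u + v / 4) := by
    have := shift_close_eta u
    positivity
  have e1 : G (ee (x, v)) = ((1 + eta u + 1 / (8 + u + v / 4) + del u : ℝ) : ℂ) *
      Complex.exp ((Real.pi * Ush u : ℝ) * Complex.I) := hG _ u hR
  have e2 : ee (x + 1, v) = ((1 + eta (Ush u) + 1 / (8 + Ush u + v / 4) : ℝ) : ℂ) *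
      Complex.exp ((Real.pi * Ush u : ℝ) * Complex.I) := by
    unfold ee E
    simp only
    rw [hks]
  rw [e1, e2, heta, ← sub_mul, norm_mul, Complex.norm_exp_ofReal_mul_I, mul_one,
    ← Complex.ofReal_sub, Complex.norm_real, Real.norm_eq_abs]
  have e3 : 1 + (eta u + del u) + 1 / (8 + Ush u + v / 4) -
      (1 + eta u + 1 / (8 + u + v / 4) + del u) =
      1 / (8 + Ush u + v / 4) - 1 / (8 + u + v / 4) := by ring
  rw [e3]
  have r1 : 1 / (8 + u + v / 4) ≤ 1 / x := one_div_le_one_div_of_le hx0 p1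
  have r2 : 1 / (8 + Ush u + v / 4) ≤ 1 / x := one_div_le_one_div_of_le hx0 p2
  have r3 : 0 < 1 / (8 + u + v / 4) := by positivity
  have r4 : 0 < 1 / (8 + Ush u + v / 4) := by positivity
  have r5 : 2 * (1 / x) < ε := by
    have : 2 / ε < x := by linarith
    rw [div_lt_iff₀ hε] at this
    rw [mul_one_div, div_lt_iff₀ hx0]
    linarith
  rw [abs_lt]
  constructor <;> linarith

end Pool.Bing
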