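import Pool.Agent.Helper257.Bing.Defs

set_option autoImplicit false
open Set Filter Topology

namespace Pool.Bing


variable {K : Type*} [TopologicalSpace K]

/-! TARGET: prove this theorem (add helper lemmas before it if you like; keep the statement) -/


theorem shift_cont_den {a : ℝ} (h0 : 0 ≤ a) (h1 : a ≤ 1) :
    1 ≤ a + Real.exp (1 : ℕ) * (1 - a) := by
  have h2 : (1 : ℝ) ≤ Real.exp (1 : ℕ) := Real.one_le_exp (by norm_num)
  nlinarith

theorem shift_cont_Asec_nonneg {a : ℝ} (h0 : 0 ≤ a) (h1 : a ≤ 1) : 0 ≤ Asec 1 a := by
  unfold Asec
  have := shift_cont_den h0 h1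
  exact div_nonneg h0 (by linarith)

theorem shift_cont_Asec_le {a : ℝ} (h0 : 0 ≤ a) (h1 : a ≤ 1) : Asec 1 a ≤ a := by
  unfold Asec
  exact div_le_self h0 (shift_cont_den h0 h1)

/-- The angle map and the height correction of the shift are continuous and periodic. -/
theorem shift_cont : Continuous Ush ∧ Continuous del ∧ (∀ u, Ush (u + 1) = Ush u + 1) ∧
    (∀ u, del (u + 1) = del u) ∧ (∀ u, u < Ush u ∧ Ush u ≤ u + 1) := by
  have hU : ∀ u : ℝ, Ush u = u + 1 + (Asec 1 (Int.fract u) - Int.fract u) := by
    intro u
    unfold Ush
    have := Int.floor_add_fract u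
    linarith
  refine ⟨?_, ?_, ?_, ?_, ?_⟩
  · have hg : ContinuousOn (fun a : ℝ => Asec 1 a - a) (Icc 0 1) := by
      unfold Asec
      apply ContinuousOn.sub _ continuousOn_id
      apply ContinuousOn.div continuousOn_id
      · fun_prop
      · intro a ha
        have := shift_cont_den ha.1 ha.2
        positivity
    have hgc : Continuous ((fun a : ℝ => Asec 1 a - a) ∘ Int.fract) := by
      apply hg.comp_fract''
      simp [Asec]
    have : Ush = fun u => u + 1 + ((fun a : ℝ => Asec 1 a - a) ∘ Int.fract) u := by
      ext u; exact hU u
    rw [this]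
    exact (continuous_id.add continuous_const).add hgc
  · have hW : Continuous W := by
      unfold W; fun_prop
    have hg : ContinuousOn (fun a : ℝ => W (Real.log (max 1 (a / max (1 - a) (a / Real.exp 1)))) - 1)
        (Icc 0 1) := by
      apply ContinuousOn.sub _ continuousOn_const
      apply hW.comp_continuousOn
      apply ContinuousOn.log
      · apply ContinuousOn.sup continuousOn_const
        apply ContinuousOn.div continuousOn_id
        · apply ContinuousOn.sup
          · fun_prop
          · fun_prop
        · intro a ha
          have : 0 < max (1 - a) (a / Real.exp 1) := by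
            rcases ha.2.lt_or_eq with h | h
            · exact lt_max_of_lt_left (by linarith)
            · rw [h]
              exact lt_max_of_lt_right (by positivity)
          exact this.ne'
      · intro a _
        have : 0 < max 1 (a / max (1 - a) (a / Real.exp 1)) := lt_max_of_lt_left one_pos
        exact this.ne'
    have hgc : Continuous ((fun a : ℝ =>
        W (Real.log (max 1 (a / max (1 - a) (a / Real.exp 1)))) - 1) ∘ Int.fract) := by
      apply hg.comp_fract''
      have e1 : max (1 - (1 : ℝ)) (1 / Real.exp 1) = 1 / Real.exp 1 := by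
        rw [sub_self]; exact max_eq_right (by positivity)
      have e2 : max (1 : ℝ) (1 / (1 / Real.exp 1)) = Real.exp 1 := by
        rw [one_div_one_div]
        exact max_eq_right (Real.one_le_exp (by norm_num))
      have e3 : max (1 : ℝ) (0 / max (1 - 0) (0 / Real.exp 1)) = 1 := by
        rw [zero_div]; exact max_eq_left zero_le_one
      rw [e1, e2, e3, Real.log_one, Real.log_exp]
      unfold W
      rw [mul_zero, Real.cos_zero, mul_one, Real.cos_two_pi]
    exact hgc
  · intro u
    unfold Ush
    rw [Int.fract_add_one, Int.floor_add_one]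
    push_cast
    ring
  · intro u
    unfold del
    rw [Int.fract_add_one]
  · intro u
    rw [hU]
    have h0 := Int.fract_nonneg u
    have h1 := Int.fract_lt_one u
    have h2 := shift_cont_Asec_nonneg h0 h1.le
    have h3 := shift_cont_Asec_le h0 h1.le
    exact ⟨by linarith, by linarith⟩

end Pool.Bing
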