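import Pool.Agent.Helper257.Bing.Defs

set_option autoImplicit false
open Set Filter Topology

namespace Pool.Bing


variable {K : Type*} [TopologicalSpace K]

/-! TARGET: prove this theorem (add helper lemmas before it if you like; keep the statement) -/


theorem sc_W_zero : W 0 = 1 := by unfold W; simp

theorem sc_W_one : W 1 = 1 := by unfold W; simp

theorem sc_W_neg (t : ℝ) : W (-t) = W t := by
  unfold W
  rw [mul_neg, Real.cos_neg]

theorem sc_W_add (t : ℝ) : W (1 + t) = W t := by
  unfold W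
  have h : 2 * Real.pi * (1 + t) = 2 * Real.pi * t + 2 * Real.pi := by ring
  rw [h, Real.cos_add_two_pi]

/-- the height identity -/
theorem sc_height (x : ℝ) (hx : 0 < x) :
    W (Real.log (max x 1)) + W (Real.log (max 1 (min (1 / x) (Real.exp 1)))) =
      1 + W (Real.log (max (Real.exp 1 * x) 1)) := by
  have he : 1 < Real.exp 1 := Real.one_lt_exp_iff.mpr one_pos
  have he0 : 0 < Real.exp 1 := Real.exp_pos 1
  have hlog : ∀ y : ℝ, 0 < y → Real.log (Real.exp 1 * y) = 1 + Real.log y := fun y hy => by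
    rw [Real.log_mul he0.ne' hy.ne', Real.log_exp]
  rcases le_total 1 x with h1 | h1
  · have e1 : 1 / x ≤ 1 := by rw [div_le_one hx]; exact h1
    have e2 : max 1 (min (1 / x) (Real.exp 1)) = 1 := max_eq_left ((min_le_left _ _).trans e1)
    have e3 : 1 ≤ Real.exp 1 * x := by nlinarith
    rw [max_eq_left h1, e2, max_eq_left e3, hlog x hx, sc_W_add, Real.log_one, sc_W_zero, add_comm]
  · rw [max_eq_right h1, Real.log_one, sc_W_zero]
    rcases le_total 1 (Real.exp 1 * x) with h2 | h2
    · have e1 : 1 / x ≤ Real.exp 1 := by rw [div_le_iff₀ hx]; exact h2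
      have e2 : 1 ≤ 1 / x := by rw [le_div_iff₀ hx]; linarith
      rw [min_eq_left e1, max_eq_right e2, max_eq_left h2, hlog x hx, sc_W_add, one_div,
        Real.log_inv, sc_W_neg]
    · have e1 : Real.exp 1 ≤ 1 / x := by rw [le_div_iff₀ hx]; exact h2
      rw [min_eq_right e1, max_eq_right he.le, max_eq_right h2, Real.log_one, Real.log_exp,
        sc_W_one, sc_W_zero]

theorem sc_main (G : ℂ → ℂ) (hG : ∀ R u : ℝ, 0 < R →
      G ((R : ℂ) * Complex.exp ((Real.pi * u : ℝ) * Complex.I)) =
      ((R + del u : ℝ) : ℂ) * Complex.exp ((Real.pi * Ush u : ℝ) * Complex.I))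
    (i : ℤ) (s : ℝ) (hs : 0 ≤ s) : ∃ t : ℝ, 0 ≤ t ∧ G (w i s) = w (i + 1) t := by
  have hW0 : ∀ t, 0 ≤ W t := by
    intro t
    unfold W
    have := Real.neg_one_le_cos (2 * Real.pi * t)
    linarith
  have hcl0 : ∀ t, 0 ≤ cl t := fun t => le_max_left _ _
  have hR : 0 < 1 + cl s * W (Real.log (max (s - 1) 1)) := by
    have := mul_nonneg (hcl0 s) (hW0 (Real.log (max (s - 1) 1)))
    linarith
  rcases le_or_gt s 1 with h1 | h1
  · refine ⟨s, hs, ?_⟩
    unfold w
    rw [hG _ _ hR, max_eq_right h1]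
    have hu : (i : ℝ) + 1 / 1 = ((i + 1 : ℤ) : ℝ) := by push_cast; ring
    have hdel : del ((i : ℝ) + 1 / 1) = 0 := by
      rw [hu]
      unfold del
      rw [Int.fract_intCast]
      simp [sc_W_zero]
    have hU : Ush ((i : ℝ) + 1 / 1) = (i : ℝ) + 1 + 1 / 1 := by
      rw [hu]
      unfold Ush
      rw [Int.fract_intCast, Int.floor_intCast]
      unfold Asec
      push_cast
      simp
    rw [hdel, hU, add_zero]
  · have hx : 0 < s - 1 := by linarith
    have hs0 : 0 < s := by linarith
    have he0 : 0 < Real.exp 1 := Real.exp_pos 1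
    obtain ⟨t, ht⟩ : ∃ t, t = 1 + Real.exp 1 * (s - 1) := ⟨_, rfl⟩
    have ht1 : 1 < t := by
      rw [ht]
      have := mul_pos he0 hx
      linarith
    refine ⟨t, by linarith, ?_⟩
    unfold w
    rw [hG _ _ hR, max_eq_left h1.le, max_eq_left ht1.le]
    have hfl : ⌊(i : ℝ) + 1 / s⌋ = i := by
      rw [Int.floor_eq_iff]
      have e1 : 0 < 1 / s := by positivity
      have e2 : 1 / s < 1 := by rw [div_lt_one hs0]; exact h1
      constructor <;> linarith
    have hfr : Int.fract ((i : ℝ) + 1 / s) = 1 / s := by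
      unfold Int.fract
      rw [hfl]
      ring
    have hU : Ush ((i : ℝ) + 1 / s) = (i : ℝ) + 1 + 1 / t := by
      unfold Ush
      rw [hfr, hfl]
      unfold Asec
      have e3 : 1 / s / (1 / s + Real.exp ((1 : ℕ) : ℝ) * (1 - 1 / s)) = 1 / t := by
        rw [ht, Nat.cast_one]
        have e4 : 1 / s + Real.exp 1 * (1 - 1 / s) = (1 + Real.exp 1 * (s - 1)) / s := by
          field_simp
        rw [e4, div_div_div_cancel_right₀ hs0.ne']
      rw [e3]
    have hmax : 1 / s / max (1 - 1 / s) (1 / s / Real.exp 1) =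
        min (1 / (s - 1)) (Real.exp 1) := by
      have e1 : 1 - 1 / s = (s - 1) / s := by field_simp
      rw [e1]
      rcases le_total ((s - 1) / s) (1 / s / Real.exp 1) with h2 | h2
      · rw [max_eq_right h2]
        have e5 : Real.exp 1 ≤ 1 / (s - 1) := by
          rw [div_div, div_le_div_iff₀ hs0 (by positivity)] at h2
          rw [le_div_iff₀ hx]
          have h3 : s * ((s - 1) * Real.exp 1) ≤ s * 1 := by linarith
          have h4 := le_of_mul_le_mul_left h3 hs0
          linarith
        rw [min_eq_right e5]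
        field_simp
      · rw [max_eq_left h2]
        have e5 : 1 / (s - 1) ≤ Real.exp 1 := by
          rw [div_div, div_le_div_iff₀ (by positivity) hs0] at h2
          rw [div_le_iff₀ hx]
          have h3 : s * 1 ≤ s * ((s - 1) * Real.exp 1) := by linarith
          have h4 := le_of_mul_le_mul_left h3 hs0
          linarith
        rw [min_eq_left e5, div_div_div_cancel_right₀ hs0.ne']
    have hcls : cl s = 1 := by
      unfold cl
      rw [min_eq_right h1.le, max_eq_right zero_le_one]
    have hclt : cl t = 1 := by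
      unfold cl
      rw [min_eq_right ht1.le, max_eq_right zero_le_one]
    have hH : 1 + cl s * W (Real.log (max (s - 1) 1)) + del ((i : ℝ) + 1 / s) =
        1 + cl t * W (Real.log (max (t - 1) 1)) := by
      unfold del
      rw [hfr, hmax, hcls, hclt, one_mul, one_mul]
      have e6 : t - 1 = Real.exp 1 * (s - 1) := by rw [ht]; ring
      rw [e6]
      have := sc_height (s - 1) hx
      linarith
    rw [hH, hU]

theorem sc_per (i t : ℝ) : w (i + 2) t = w i t := by
  unfold w
  congr 1
  have h : ((Real.pi * (i + 2 + 1 / max t 1) : ℝ) : ℂ) * Complex.I =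
      ((Real.pi * (i + 1 / max t 1) : ℝ) : ℂ) * Complex.I + 2 * Real.pi * Complex.I := by
    push_cast
    ring
  rw [h, Complex.exp_periodic]

/-- The shift maps the core to itself, swapping the two rays. -/
theorem shift_core (G : ℂ → ℂ) (hG : ∀ R u : ℝ, 0 < R →
      G ((R : ℂ) * Complex.exp ((Real.pi * u : ℝ) * Complex.I)) =
      ((R + del u : ℝ) : ℂ) * Complex.exp ((Real.pi * Ush u : ℝ) * Complex.I)) :
    (∀ s, 0 ≤ s → G (w 0 s) ∈ rng (w 1)) ∧ (∀ s, 0 ≤ s → G (w 1 s) ∈ rng (w 0)) := by
  constructor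
  · intro s hs
    obtain ⟨t, ht, h⟩ := sc_main G hG 0 s hs
    rw [Int.cast_zero, zero_add] at h
    rw [h]
    exact ⟨t, ht, rfl⟩
  · intro s hs
    obtain ⟨t, ht, h⟩ := sc_main G hG 1 s hs
    have h2 : ((1 : ℤ) : ℝ) + 1 = 0 + 2 := by norm_num
    rw [h2, sc_per, Int.cast_one] at h
    rw [h]
    exact ⟨t, ht, rfl⟩

end Pool.Bing
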