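import Pool.Agent.Helper257.Bing.Defs
import Pool.Agent.Helper257.Bing.P_shift_cont

set_option autoImplicit false
open Set Filter Topology

namespace Pool.Bing


variable {K : Type*} [TopologicalSpace K]


/-! TARGET: prove this theorem (add helper lemmas before it if you like; keep the statement) -/


/-- The shift on the core. -/
theorem shift_map : ∃ G : ℂ → ℂ, ContinuousOn G {z | z ≠ 0} ∧
    (∀ R u : ℝ, 0 < R → G ((R : ℂ) * Complex.exp ((Real.pi * u : ℝ) * Complex.I)) =
      ((R + del u : ℝ) : ℂ) * Complex.exp ((Real.pi * Ush u : ℝ) * Complex.I)) := by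
  obtain ⟨hUc, hdc, hU1, hd1, _⟩ := shift_cont
  have hpi : (Real.pi : ℝ) ≠ 0 := Real.pi_ne_zero
  let g1 : ℝ → ℝ := fun θ => del (θ / Real.pi)
  let g2 : ℝ → ℂ := fun θ => Complex.exp ((Real.pi * Ush (θ / Real.pi) : ℝ) * Complex.I)
  have e0 : ∀ θ : ℝ, (θ + 2 * Real.pi) / Real.pi = θ / Real.pi + 1 + 1 := by
    intro θ; field_simp; ring
  have p1 : Function.Periodic g1 (2 * Real.pi) := by
    intro θ
    change del ((θ + 2 * Real.pi) / Real.pi) = del (θ / Real.pi)
    rw [e0, hd1, hd1]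
  have p2 : Function.Periodic g2 (2 * Real.pi) := by
    intro θ
    change Complex.exp ((Real.pi * Ush ((θ + 2 * Real.pi) / Real.pi) : ℝ) * Complex.I) =
      Complex.exp ((Real.pi * Ush (θ / Real.pi) : ℝ) * Complex.I)
    rw [e0, hU1, hU1]
    have : (((Real.pi * (Ush (θ / Real.pi) + 1 + 1) : ℝ)) : ℂ) * Complex.I =
      ((Real.pi * Ush (θ / Real.pi) : ℝ) : ℂ) * Complex.I + 2 * Real.pi * Complex.I := by
      push_cast; ring
    rw [this]
    exact Complex.exp_periodic _
  have c1 : Continuous g1 := hdc.comp (continuous_id.div_const _)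
  have c2 : Continuous g2 := by
    apply Complex.continuous_exp.comp
    apply Continuous.mul _ continuous_const
    apply Complex.continuous_ofReal.comp
    exact continuous_const.mul (hUc.comp (continuous_id.div_const _))
  let L1 : Real.Angle → ℝ := fun θ => p1.lift θ
  let L2 : Real.Angle → ℂ := fun θ => p2.lift θ
  have hL1 : Continuous L1 := c1.quotient_liftOn' _
  have hL2 : Continuous L2 := c2.quotient_liftOn' _
  have e1 : ∀ θ : ℝ, L1 (θ : Real.Angle) = g1 θ := fun θ => rfl
  have e2 : ∀ θ : ℝ, L2 (θ : Real.Angle) = g2 θ := fun θ => rfl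
  refine ⟨fun z => ((‖z‖ + L1 ((Complex.arg z : ℝ) : Real.Angle) : ℝ) : ℂ) *
    L2 ((Complex.arg z : ℝ) : Real.Angle), ?_, ?_⟩
  · intro z hz
    have ha : ContinuousAt (fun z : ℂ => ((Complex.arg z : ℝ) : Real.Angle)) z :=
      Complex.continuousAt_arg_coe_angle hz
    have h1 : ContinuousAt (fun z : ℂ => L1 ((Complex.arg z : ℝ) : Real.Angle)) z :=
      ContinuousAt.comp (f := fun z : ℂ => ((Complex.arg z : ℝ) : Real.Angle)) hL1.continuousAt ha
    have h2 : ContinuousAt (fun z : ℂ => L2 ((Complex.arg z : ℝ) : Real.Angle)) z :=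
      ContinuousAt.comp (f := fun z : ℂ => ((Complex.arg z : ℝ) : Real.Angle)) hL2.continuousAt ha
    have h3 : ContinuousAt (fun z : ℂ => ‖z‖ + L1 ((Complex.arg z : ℝ) : Real.Angle)) z :=
      continuous_norm.continuousAt.add h1
    have h4 : ContinuousAt (fun z : ℂ => ((‖z‖ + L1 ((Complex.arg z : ℝ) : Real.Angle) : ℝ) : ℂ)) z :=
      ContinuousAt.comp (f := fun z : ℂ => ‖z‖ + L1 ((Complex.arg z : ℝ) : Real.Angle))
        Complex.continuous_ofReal.continuousAt h3
    exact (h4.mul h2).continuousWithinAt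
  · intro R u hR
    have hn : ‖(R : ℂ) * Complex.exp ((Real.pi * u : ℝ) * Complex.I)‖ = R := by
      rw [norm_mul, Complex.norm_exp_ofReal_mul_I, mul_one, Complex.norm_real, Real.norm_eq_abs,
        abs_of_pos hR]
    have harg : ((Complex.arg ((R : ℂ) * Complex.exp ((Real.pi * u : ℝ) * Complex.I)) : ℝ) :
        Real.Angle) = ((Real.pi * u : ℝ) : Real.Angle) := by
      rw [Complex.arg_real_mul _ hR]
      rw [Complex.arg_exp_mul_I, Real.Angle.coe_toIocMod]
    have hu : Real.pi * u / Real.pi = u := by field_simp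
    change ((‖(R : ℂ) * Complex.exp ((Real.pi * u : ℝ) * Complex.I)‖ +
      L1 ((Complex.arg ((R : ℂ) * Complex.exp ((Real.pi * u : ℝ) * Complex.I)) : ℝ) : Real.Angle)
        : ℝ) : ℂ) *
      L2 ((Complex.arg ((R : ℂ) * Complex.exp ((Real.pi * u : ℝ) * Complex.I)) : ℝ) : Real.Angle) = _
    rw [harg, hn, e1, e2]
    change ((R + del (Real.pi * u / Real.pi) : ℝ) : ℂ) *
      Complex.exp ((Real.pi * Ush (Real.pi * u / Real.pi) : ℝ) * Complex.I) = _
    rw [hu]

end Pool.Bing
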