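import Pool.Agent.Helper257.Bing.Defs
import Pool.Agent.Helper257.Bing.P_shift_cont
import Pool.Agent.Helper257.Bing.P_w_facts
import Pool.Agent.Helper257.Bing.P_core_compact
import Pool.Agent.Helper257.Bing.P_ee_facts
import Pool.Agent.Helper257.Bing.P_lim_core
import Pool.Agent.Helper257.Bing.P_ee_inducing
import Pool.Agent.Helper257.Bing.P_shift_map
import Pool.Agent.Helper257.Bing.P_shift_core
import Pool.Agent.Helper257.Bing.P_shift_close
import Pool.Agent.Helper257.Bing.P_dd_facts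
import Pool.Agent.Helper257.Bing.P_plane_map

set_option autoImplicit false
open Set Filter Topology

namespace Pool.Bing


variable {K : Type*} [TopologicalSpace K]


/-! TARGET: prove this theorem (add helper lemmas before it if you like; keep the statement) -/

theorem final_map_abs (ee : ℝ × ℝ → ℂ) (Core : Set ℂ) (Reg M : Set (ℝ × ℝ)) (w0 w1 : ℝ → ℂ)
    (hReg : Reg = {z | -3 ≤ z.1 ∧ |z.2| ≤ 3})
    (hCore : Core = rng w0 ∪ rng w1)
    (F0 : ℝ × ℝ → ℝ × ℝ) (hF0c : ContinuousOn F0 M) (hF0m : MapsTo F0 M M)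
    (hF0n : ∀ z ∈ M, F0 z ≠ z) (hF0s : ∀ z ∈ M, 5 ≤ z.1 → F0 z = (z.1 + 1, z.2))
    (G : ℂ → ℂ) (hGc : ContinuousOn G {z | z ≠ 0})
    (hMR : M ⊆ Reg) (hec : ContinuousOn ee Reg) (hei : InjOn ee Reg) (hecore : ∀ z ∈ Reg, ee z ∉ Core)
    (hw01 : ∀ s t, 0 ≤ s → 0 ≤ t → w0 s ≠ w1 t)
    (hwn : ∀ s, 1 ≤ ‖w0 s‖ ∧ 1 ≤ ‖w1 s‖)
    (hsc0 : ∀ s, 0 ≤ s → G (w0 s) ∈ rng w1) (hsc1 : ∀ s, 0 ≤ s → G (w1 s) ∈ rng w0)
    (hcc : IsCompact Core)
    (hemb0 : IsEmbedding (fun z : ↥Reg => ee (z : ℝ × ℝ)))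
    (hclose : ∀ ε : ℝ, 0 < ε → ∃ M : ℝ, ∀ z ∈ Reg, M ≤ z.1 → ‖ee (z.1 + 1, z.2) - G (ee z)‖ < ε) :
    ∃ F : ℂ → ℂ, ContinuousOn F (ee '' M ∪ Core) ∧
    MapsTo F (ee '' M ∪ Core) (ee '' M ∪ Core) ∧
    (∀ z ∈ ee '' M ∪ Core, F z ≠ z) := by
  classical
  have hnorm : ∀ c ∈ Core, c ≠ 0 := by
    rw [hCore]
    rintro c (⟨s, -, rfl⟩ | ⟨s, -, rfl⟩) h0
    · have := (hwn s).1
      rw [h0] at this; norm_num at this
    · have := (hwn s).2
      rw [h0] at this; norm_num at this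
  set F : ℂ → ℂ := fun z => if z ∈ Core then G z else ee (F0 (Function.invFunOn ee M z)) with hF
  have hFcore : ∀ z ∈ Core, F z = G z := by
    intro z hz; simp only [hF, if_pos hz]
  have hFee : ∀ m ∈ M, F (ee m) = ee (F0 m) := by
    intro m hm
    have h1 : ee m ∉ Core := hecore m (hMR hm)
    have h2 : Function.invFunOn ee M (ee m) = m :=
      (hei.mono hMR).leftInvOn_invFunOn hm
    simp only [hF, if_neg h1, h2]
  have hCoreClosed : IsClosed Core := hcc.isClosed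
  refine ⟨F, ?_, ?_, ?_⟩
  · -- continuity
    intro x hx
    rcases hx with ⟨m, hm, rfl⟩ | hc
    · -- at a point of the strip
      have h1 : Coreᶜ ∈ 𝓝 (ee m) := hCoreClosed.isOpen_compl.mem_nhds (hecore m (hMR hm))
      have h2 : 𝓝[ee '' M ∪ Core] (ee m) = 𝓝[ee '' M] (ee m) := by
        rw [nhdsWithin_union]
        have : 𝓝[Core] (ee m) = ⊥ := by
          by_contra hne
          have h3 : (𝓝[Core] (ee m)).NeBot := ⟨hne⟩
          have h4 := mem_closure_iff_nhdsWithin_neBot.mpr h3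
          rw [hCoreClosed.closure_eq] at h4
          exact hecore m (hMR hm) h4
        rw [this, sup_bot_eq]
      have hemb : IsEmbedding (fun z : ↥M => ee (z : ℝ × ℝ)) := by
        have h3 : IsEmbedding (Set.inclusion hMR) := IsEmbedding.inclusion hMR
        exact hemb0.comp h3
      have h4 := hemb.map_nhds_eq ⟨m, hm⟩
      have h5 : range (fun z : ↥M => ee (z : ℝ × ℝ)) = ee '' M := by
        ext y; simp
      rw [h5] at h4
      simp only at h4
      unfold ContinuousWithinAt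
      rw [h2, ← h4, tendsto_map'_iff]
      have h6 : F ∘ (fun z : ↥M => ee (z : ℝ × ℝ)) = fun z : ↥M => ee (F0 z) := by
        funext z; exact hFee z z.2
      rw [h6, hFee m hm]
      have h7 : ContinuousOn (fun z => ee (F0 z)) M :=
        (hec.mono hMR).comp hF0c hF0m
      have h8 : Continuous (fun z : ↥M => ee (F0 z)) := continuousOn_iff_continuous_domRestrict.mp h7
      exact h8.tendsto ⟨m, hm⟩
    · -- at a point of the core
      have hGx : ContinuousAt G x :=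
        hGc.continuousAt (isOpen_ne.mem_nhds (hnorm x hc))
      unfold ContinuousWithinAt
      rw [nhdsWithin_union, tendsto_sup]
      constructor
      · rw [hFcore x hc, Metric.tendsto_nhds]
        intro ε hε
        obtain ⟨M1, hM1⟩ := hclose (ε / 2) (by positivity)
        set N := max M1 5 with hN
        have hcomp : IsCompact (ee '' (Icc (-3) N ×ˢ Icc (-3) 3)) := by
          apply (isCompact_Icc.prod isCompact_Icc).image_of_continuousOn
          apply hec.mono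
          rintro ⟨a, b⟩ ⟨ha, hb⟩
          rw [hReg]
          exact ⟨ha.1, abs_le.mpr hb⟩
        have hxV : x ∉ ee '' (Icc (-3) N ×ˢ Icc (-3) 3) := by
          rintro ⟨⟨a, b⟩, ⟨ha, hb⟩, rfl⟩
          exact hecore (a, b) (by rw [hReg]; exact ⟨ha.1, abs_le.mpr hb⟩) hc
        have hV : (ee '' (Icc (-3) N ×ˢ Icc (-3) 3))ᶜ ∈ 𝓝[ee '' M] x :=
          mem_nhdsWithin_of_mem_nhds (hcomp.isClosed.isOpen_compl.mem_nhds hxV)
        have hG2 : ∀ᶠ z in 𝓝[ee '' M] x, dist (G z) (G x) < ε / 2 :=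
          (Metric.tendsto_nhds.mp (hGx.mono_left nhdsWithin_le_nhds)) (ε / 2) (by positivity)
        filter_upwards [hV, hG2, self_mem_nhdsWithin] with z hz1 hz2 hz3
        obtain ⟨m, hm, rfl⟩ := hz3
        have hmR : m ∈ Reg := hMR hm
        have hmR' := hmR
        rw [hReg] at hmR'
        have hmN : N < m.1 := by
          by_contra hcon
          push Not at hcon
          exact hz1 ⟨m, ⟨⟨hmR'.1, hcon⟩, abs_le.mp hmR'.2⟩, rfl⟩
        have h9 := hM1 m hmR ((le_max_left _ _).trans hmN.le)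
        rw [hFee m hm, hF0s m hm ((le_max_right _ _).trans hmN.le)]
        calc dist (ee (m.1 + 1, m.2)) (G x) ≤ dist (ee (m.1 + 1, m.2)) (G (ee m)) +
              dist (G (ee m)) (G x) := dist_triangle _ _ _
          _ < ε / 2 + ε / 2 := by
              rw [dist_eq_norm (ee (m.1 + 1, m.2))]
              exact add_lt_add h9 hz2
          _ = ε := by ring
      · rw [hFcore x hc]
        have h10 : Tendsto G (𝓝[Core] x) (𝓝 (G x)) := hGx.mono_left nhdsWithin_le_nhds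
        apply h10.congr'
        filter_upwards [self_mem_nhdsWithin] with z hz
        exact (hFcore z hz).symm
  · rintro z (⟨m, hm, rfl⟩ | hc)
    · left
      rw [hFee m hm]
      exact ⟨F0 m, hF0m hm, rfl⟩
    · right
      rw [hFcore z hc]
      rw [hCore] at hc ⊢
      rcases hc with ⟨s, hs, rfl⟩ | ⟨s, hs, rfl⟩
      · exact Or.inr (hsc0 s hs)
      · exact Or.inl (hsc1 s hs)
  · rintro z (⟨m, hm, rfl⟩ | hc)
    · rw [hFee m hm]
      intro h
      exact hF0n m hm (hei (hMR (hF0m hm)) (hMR hm) h)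
    · rw [hFcore z hc]
      intro h
      rw [hCore] at hc
      rcases hc with ⟨s, hs, rfl⟩ | ⟨s, hs, rfl⟩
      · obtain ⟨t, ht, h2⟩ := hsc0 s hs
        exact hw01 s t hs ht (by rw [h2, h])
      · obtain ⟨t, ht, h2⟩ := hsc1 s hs
        exact hw01 t s ht hs (by rw [h2, h])


/-- The fixed point free map on `D ∪ K`. -/
theorem final_map : ∃ F : ℂ → ℂ, ContinuousOn F (ee '' (DD ∪ NN) ∪ Core) ∧
    MapsTo F (ee '' (DD ∪ NN) ∪ Core) (ee '' (DD ∪ NN) ∪ Core) ∧
    (∀ z ∈ ee '' (DD ∪ NN) ∪ Core, F z ≠ z) := by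
  obtain ⟨F0, hF0c, hF0m, hF0n, hF0s⟩ := plane_map
  obtain ⟨G, hGc, hG⟩ := shift_map
  obtain ⟨hDR, -, -, hNR⟩ := dd_facts
  obtain ⟨hec, hei, hecore, -⟩ := ee_facts
  obtain ⟨-, -, -, hw01, -, hwn⟩ := w_facts
  obtain ⟨hsc0, hsc1⟩ := shift_core G hG
  exact final_map_abs ee Core Reg (DD ∪ NN) (w 0) (w 1) rfl rfl F0 hF0c hF0m hF0n hF0s G hGc
    (union_subset hDR hNR) hec hei hecore hw01 (fun s => ⟨(hwn 0 s).1, (hwn 1 s).1⟩) hsc0 hsc1
    core_compact ee_inducing (shift_close G hG)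

end Pool.Bing
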