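import Pool.Agent.Helper257.Bing.Defs

set_option autoImplicit false
open Set Filter Topology

namespace Pool.Bing


variable {K : Type*} [TopologicalSpace K]

/-! TARGET: prove this theorem (add helper lemmas before it if you like; keep the statement) -/


/-- The square is homeomorphic to the disk. -/
theorem square_disk :
    Nonempty (↥DD ≃ₜ ↥(Metric.closedBall (0 : EuclideanSpace ℝ (Fin 2)) 1)) := by
  let L : EuclideanSpace ℝ (Fin 2) ≃L[ℝ] ℝ × ℝ :=
    (EuclideanSpace.equiv (Fin 2) ℝ).trans (ContinuousLinearEquiv.finTwoArrow ℝ ℝ)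
  have hDc : IsCompact DD := isCompact_Icc.prod isCompact_Icc
  have hs : L.symm '' DD = L ⁻¹' DD := by
    ext x
    constructor
    · rintro ⟨y, hy, rfl⟩
      simpa using hy
    · intro hx
      exact ⟨L x, hx, by simp⟩
  have hcpt : IsCompact (L.symm '' DD) := hDc.image L.symm.continuous
  have hconv : Convex ℝ (L.symm '' DD) := by
    rw [hs]
    exact ((convex_Icc _ _).prod (convex_Icc _ _)).linear_preimage (L : EuclideanSpace ℝ (Fin 2) →ₗ[ℝ] ℝ × ℝ)
  have hint : (interior (L.symm '' DD)).Nonempty := by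
    have h1 : L.symm '' (Set.Ioo (-1) 1 ×ˢ Set.Ioo 0 1) ⊆ interior (L.symm '' DD) := by
      refine interior_maximal (Set.image_mono ?_) ?_
      · exact Set.prod_mono Set.Ioo_subset_Icc_self Set.Ioo_subset_Icc_self
      · exact L.symm.toHomeomorph.isOpenMap _ (isOpen_Ioo.prod isOpen_Ioo)
    refine ⟨L.symm (0, 1/2), h1 ⟨(0, 1/2), ?_, rfl⟩⟩
    constructor
    · constructor <;> norm_num
    · constructor <;> norm_num
  obtain ⟨h, -, h2, -⟩ := exists_homeomorph_image_interior_closure_frontier_eq_unitBall hconv hint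
    hcpt.isBounded
  rw [hcpt.isClosed.closure_eq] at h2
  have h3 : (L.symm.toHomeomorph.trans h) '' DD = Metric.closedBall (0 : EuclideanSpace ℝ (Fin 2)) 1 := by
    rw [← h2, ← Set.image_comp]
    rfl
  exact ⟨((L.symm.toHomeomorph.trans h).image DD).trans (Homeomorph.setCongr h3)⟩

end Pool.Bing
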