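import Pool.Agent.Helper257.Bing.Defs
import Pool.Agent.Helper257.Bing.P_core_compact
import Pool.Agent.Helper257.Bing.P_ee_facts
import Pool.Agent.Helper257.Bing.P_ee_inducing
import Pool.Agent.Helper257.Bing.P_ee_compact
import Pool.Agent.Helper257.Bing.P_pp_facts
import Pool.Agent.Helper257.Bing.P_dd_facts
import Pool.Agent.Helper257.Bing.P_square_disk
import Pool.Agent.Helper257.Bing.P_final_map
import Pool.Agent.Helper257.Bing.P_final_fpp
import Pool.Agent.Helper257.Bing.P_final_conn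

set_option autoImplicit false
open Set Filter Topology

namespace Pool.Bing


variable {K : Type*} [TopologicalSpace K]


/-! TARGET: prove this theorem (add helper lemmas before it if you like; keep the statement) -/


theorem homeo_image_11692 {X Y : Type*} [TopologicalSpace X] [TopologicalSpace Y] [T2Space Y]
    {s : Set X} (hs : IsCompact s) {f : X → Y} (hf : ContinuousOn f s) (hi : InjOn f s) :
    Nonempty (↥s ≃ₜ ↥(f '' s)) := by
  have := isCompact_iff_compactSpace.1 hs
  let g : s → ↥(f '' s) := fun x => ⟨f x, mem_image_of_mem f x.2⟩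
  have hg : Continuous g := by
    apply Continuous.subtype_mk
    exact hf.comp_continuous continuous_subtype_val (fun x => x.2)
  have hb : Function.Bijective g := by
    constructor
    · intro x y hxy
      exact Subtype.ext (hi x.2 y.2 (congrArg Subtype.val hxy))
    · rintro ⟨_, x, hx, rfl⟩
      exact ⟨⟨x, hx⟩, rfl⟩
  let e : ↥s ≃ ↥(f '' s) := Equiv.ofBijective g hb
  have he : Continuous e := hg
  exact ⟨Continuous.homeoOfEquivCompactToT2 he⟩

/-- The result in the complex plane. -/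
theorem final_plane : ∃ D K : Set ℂ,
      Nonempty (↥D ≃ₜ ↥(Metric.closedBall (0 : EuclideanSpace ℝ (Fin 2)) 1)) ∧
      IsCompact K ∧ IsConnected K ∧
      (∀ f : C(↥K, ↥K), ∃ x, f x = x) ∧
      Nonempty (↥(D ∩ K) ≃ₜ ↥(Set.Icc (0 : ℝ) 1)) ∧
      ¬ (∀ f : C(↥(D ∪ K), ↥(D ∪ K)), ∃ x, f x = x) := by
  obtain ⟨hec, hei, hem, -⟩ := ee_facts
  obtain ⟨hDR, hDN, hNc, hNR⟩ := dd_facts
  obtain ⟨hpc, hpi, hpR, -, -, -⟩ := pp_facts
  refine ⟨ee '' DD, ee '' NN ∪ Core, ?_, ee_compact NN hNc hNR, final_conn, final_fpp, ?_, ?_⟩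
  · -- the disk
    have hDc : IsCompact DD := isCompact_Icc.prod isCompact_Icc
    obtain ⟨e1⟩ := homeo_image_11692 hDc (hec.mono hDR) (hei.mono hDR)
    obtain ⟨e2⟩ := square_disk
    exact ⟨e1.symm.trans e2⟩
  · -- the arc
    have h1 : ee '' DD ∩ (ee '' NN ∪ Core) = (fun s => ee (pp s)) '' Icc 0 4 := by
      have h2 : ee '' DD ∩ (ee '' NN ∪ Core) = ee '' DD ∩ ee '' NN := by
        ext z
        constructor
        · rintro ⟨h3, h4 | h4⟩
          · exact ⟨h3, h4⟩
          · exfalso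
            obtain ⟨x, hx, rfl⟩ := h3
            exact hem x (hDR hx) h4
        · rintro ⟨h3, h4⟩
          exact ⟨h3, Or.inl h4⟩
      rw [h2, ← hei.image_inter hDR hNR, hDN, image_image]
    rw [h1]
    have hc : ContinuousOn (fun s => ee (pp s)) (Icc (0 : ℝ) 4) :=
      hec.comp hpc.continuousOn (fun s _ => hpR s)
    have hi : InjOn (fun s => ee (pp s)) (Icc (0 : ℝ) 4) := by
      intro s hs t ht hst
      exact hpi (mem_Ici.2 hs.1) (mem_Ici.2 ht.1) (hei (hpR s) (hpR t) hst)
    obtain ⟨e1⟩ := homeo_image_11692 isCompact_Icc hc hi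
    exact ⟨e1.symm.trans (iccHomeoI (0 : ℝ) 4 (by norm_num))⟩
  · -- no fixed point
    intro hfp
    obtain ⟨F, hFc, hFm, hFn⟩ := final_map
    have h1 : ee '' DD ∪ (ee '' NN ∪ Core) = ee '' (DD ∪ NN) ∪ Core := by
      rw [image_union, union_assoc]
    have hFc' : ContinuousOn F (ee '' DD ∪ (ee '' NN ∪ Core)) := by rw [h1]; exact hFc
    have hFm' : MapsTo F (ee '' DD ∪ (ee '' NN ∪ Core)) (ee '' DD ∪ (ee '' NN ∪ Core)) := by
      rw [h1]; exact hFm
    let G : C(↥(ee '' DD ∪ (ee '' NN ∪ Core)), ↥(ee '' DD ∪ (ee '' NN ∪ Core))) :=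
      ⟨fun z => ⟨F z, hFm' z.2⟩, by
        apply Continuous.subtype_mk
        exact hFc'.comp_continuous continuous_subtype_val (fun x => x.2)⟩
    obtain ⟨x, hx⟩ := hfp G
    have h2 : F (x : ℂ) = (x : ℂ) := congrArg Subtype.val hx
    refine hFn x ?_ h2
    rw [← h1]
    exact x.2

end Pool.Bing
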