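import Pool.Agent.Helper257.Bing.Defs

set_option autoImplicit false
open Set Filter Topology

namespace Pool.Bing


variable {K : Type*} [TopologicalSpace K]

/-! TARGET: prove this theorem (add helper lemmas before it if you like; keep the statement) -/


theorem transfer_fpp {X Y : Type*} [TopologicalSpace X] [TopologicalSpace Y] (e : X ≃ₜ Y)
    (h : ∀ f : C(X, X), ∃ x, f x = x) : ∀ f : C(Y, Y), ∃ y, f y = y := by
  intro f
  obtain ⟨x, hx⟩ := h (((ContinuousMap.mk e.symm e.symm.continuous).comp f).comp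
    (ContinuousMap.mk e e.continuous))
  refine ⟨e x, ?_⟩
  have h2 : e.symm (f (e x)) = x := hx
  have h3 := congrArg e h2
  rwa [e.apply_symm_apply] at h3

/-- Transfer to the Euclidean plane. -/
theorem transfer (h : ∃ D K : Set ℂ,
      Nonempty (↥D ≃ₜ ↥(Metric.closedBall (0 : EuclideanSpace ℝ (Fin 2)) 1)) ∧
      IsCompact K ∧ IsConnected K ∧
      (∀ f : C(↥K, ↥K), ∃ x, f x = x) ∧
      Nonempty (↥(D ∩ K) ≃ₜ ↥(Set.Icc (0 : ℝ) 1)) ∧
      ¬ (∀ f : C(↥(D ∪ K), ↥(D ∪ K)), ∃ x, f x = x)) :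
    ∃ D K : Set (EuclideanSpace ℝ (Fin 2)),
      Nonempty (↥D ≃ₜ ↥(Metric.closedBall (0 : EuclideanSpace ℝ (Fin 2)) 1)) ∧
      IsCompact K ∧ IsConnected K ∧
      (∀ f : C(↥K, ↥K), ∃ x, f x = x) ∧
      Nonempty (↥(D ∩ K) ≃ₜ ↥(Set.Icc (0 : ℝ) 1)) ∧
      ¬ (∀ f : C(↥(D ∪ K), ↥(D ∪ K)), ∃ x, f x = x) := by
  obtain ⟨D, K, ⟨hD⟩, hK1, hK2, hK3, ⟨hI⟩, hU⟩ := h
  have hfr : Module.finrank ℝ ℂ = Module.finrank ℝ (EuclideanSpace ℝ (Fin 2)) := by
    simp
  let e : ℂ ≃ₜ EuclideanSpace ℝ (Fin 2) := (ContinuousLinearEquiv.ofFinrankEq hfr).toHomeomorph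
  refine ⟨e '' D, e '' K, ⟨(e.image D).symm.trans hD⟩, hK1.image e.continuous,
    hK2.image e e.continuous.continuousOn, transfer_fpp (e.image K) hK3, ?_, ?_⟩
  · have h1 : e '' (D ∩ K) = e '' D ∩ e '' K := Set.image_inter e.injective
    exact ⟨(Homeomorph.setCongr h1).symm.trans ((e.image (D ∩ K)).symm.trans hI)⟩
  · intro h2
    apply hU
    have h1 : e '' (D ∪ K) = e '' D ∪ e '' K := Set.image_union e D K
    exact transfer_fpp ((Homeomorph.setCongr h1).symm.trans (e.image (D ∪ K)).symm) h2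

end Pool.Bing
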